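import Pool.Agent.Work.MP_3d425c_gt.Md.Defs

/-! An example: two helices of tetrahedra glued along their boundaries (sphere times line). -/

namespace Pool.Agent.Work.MP_3d425c_gt.Ex
open Set Relation Pool.Agent.Work.MP_3d425c_gt.Md

/-- A simplex: its first vertex and its type. -/
@[ext] structure Cl (k : ℕ) where
  n : ℤ
  i : Fin k

abbrev GZ : Type := Multiplicative ℤ

instance (k : ℕ) : MulAction GZ (Cl k) where
  smul g x := ⟨g.toAdd + x.n, x.i⟩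
  one_smul _ := Cl.ext (zero_add _) rfl
  mul_smul _ _ _ := Cl.ext (add_assoc _ _ _) rfl

theorem smul_mk {k : ℕ} (g : GZ) (n : ℤ) (i : Fin k) : g • Cl.mk n i = ⟨g.toAdd + n, i⟩ := rfl

theorem smul_int (g : GZ) (n : ℤ) : g • n = g.toAdd + n := rfl

/-- edges `n, n + i + 1` -/
def d1 (e : Cl 3) : Fin 2 → ℤ := ![e.n + ![1, 2, 3] e.i, e.n]

/-- triangles with gaps `(1,1)`, `(1,1)`, `(1,2)`, `(2,1)` -/
def d2 (f : Cl 4) : Fin 3 → Cl 3 :=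
  ![⟨f.n + ![1, 1, 1, 2] f.i, ![0, 0, 1, 0] f.i⟩, ⟨f.n, ![1, 1, 2, 2] f.i⟩, ⟨f.n, ![0, 0, 0, 1] f.i⟩]

/-- tetrahedra `n, n + 1, n + 2, n + 3`, two copies -/
def d3 (x : Cl 2) : Fin 4 → Cl 4 :=
  ![⟨x.n + 1, ![0, 1] x.i⟩, ⟨x.n, 3⟩, ⟨x.n, 2⟩, ⟨x.n, ![0, 1] x.i⟩]

theorem ex_sum (a : ℤ → ℝ) : ∃ s : ℤ → ℝ, ∀ n, s (n + 1) = s n + a n := by
  refine ⟨fun n => match n with
    | Int.ofNat m => ∑ k ∈ Finset.range m, a k
    | Int.negSucc m => -∑ k ∈ Finset.range (m + 1), a (Int.negSucc k), fun n => ?_⟩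
  rcases n with m | _ | m
  · exact Finset.sum_range_succ _ m
  · show (∑ k ∈ Finset.range 0, a k) = _
    simp
  · show (-∑ k ∈ Finset.range (m + 1), a (Int.negSucc k)) = _
    simp only [Finset.sum_range_succ _ (m + 1)]
    ring

theorem ex_conn (x y : Cl 2) : EqvGen (fun x y => ∃ k l, d3 x k = d3 y l) x y := by
  have h1 : ∀ n i, EqvGen (fun x y => ∃ k l, d3 x k = d3 y l) ⟨n, i⟩ ⟨n, 0⟩ := fun n i =>
    .rel _ _ ⟨1, 1, rfl⟩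
  have h2 : ∀ n, EqvGen (fun x y => ∃ k l, d3 x k = d3 y l) ⟨n, 0⟩ ⟨n + 1, 0⟩ := fun n =>
    .rel _ _ ⟨0, 3, rfl⟩
  have h3 : ∀ n, EqvGen (fun x y => ∃ k l, d3 x k = d3 y l) ⟨n, 0⟩ ⟨0, 0⟩ := fun n => by
    induction n using Int.induction_on with
    | zero => exact .refl _
    | succ m ih => exact .trans _ _ _ (h2 m).symm ih
    | pred m ih =>
      have := h2 (-m - 1)
      rw [sub_add_cancel] at this
      exact .trans _ _ _ this ih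
  exact .trans _ _ _ (.trans _ _ _ (h1 x.n x.i) (h3 _)) (EqvGen.trans _ _ _ (h1 y.n y.i) (h3 _)).symm

theorem ex_link (p : Cl 4 × Fin 3) : EqvGen (fun p q : Cl 4 × Fin 3 => ∃ x, ∃ i j : Fin 3,
    i ≤ j ∧ p = (d3 x j.succ, i) ∧ q = (d3 x i.castSucc, j)) p
    (⟨(d2 p.1 p.2).n, ![2, 3, 3] (d2 p.1 p.2).i⟩, ![2, 2, 1] (d2 p.1 p.2).i) := by
  have h : ∀ (x : Cl 2) (i j : Fin 3), i ≤ j → EqvGen (fun p q : Cl 4 × Fin 3 => ∃ x, ∃ i j : Fin 3,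
      i ≤ j ∧ p = (d3 x j.succ, i) ∧ q = (d3 x i.castSucc, j)) (d3 x j.succ, i)
      (d3 x i.castSucc, j) := fun x i j k => .rel _ _ ⟨x, i, j, k, rfl, rfl⟩
  obtain ⟨⟨n, k⟩, i⟩ := p
  have e : n + 1 + 1 = n + 2 := by ring
  fin_cases k <;> fin_cases i
  · exact .trans _ _ _ (h ⟨n, 0⟩ 0 2 (by decide)) (h ⟨n + 1, 0⟩ 2 2 le_rfl)
  · exact h ⟨n, 0⟩ 1 2 (by decide)
  · exact h ⟨n, 0⟩ 2 2 le_rfl
  · exact .trans _ _ _ (h ⟨n, 1⟩ 0 2 (by decide)) (h ⟨n + 1, 1⟩ 2 2 le_rfl)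
  · exact h ⟨n, 1⟩ 1 2 (by decide)
  · exact h ⟨n, 1⟩ 2 2 le_rfl
  · exact .trans _ _ _ (h ⟨n, 0⟩ 0 1 (by decide)) (h ⟨n + 1, 0⟩ 1 2 (by decide))
  · exact h ⟨n, 0⟩ 1 1 le_rfl
  · exact .refl _
  · have := EqvGen.trans _ _ _ (h ⟨n, 0⟩ 0 0 le_rfl)
      (.trans _ _ _ (h ⟨n + 1, 0⟩ 0 2 (by decide)) (h ⟨n + 1 + 1, 0⟩ 2 2 le_rfl))
    rw [e] at this
    exact this
  · exact .refl _
  · exact .refl _

theorem ex_equ (f : Cl 4) : EqvGen (fun f f' => ∃ x,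
    (f = d3 x 2 ∧ f' = d3 x 3) ∨ (f = d3 x 0 ∧ f' = d3 x 1)) f ⟨d1 (d2 f 2) 0 - 1, 2⟩ := by
  have h : ∀ x : Cl 2, EqvGen (fun f f' => ∃ x,
      (f = d3 x 2 ∧ f' = d3 x 3) ∨ (f = d3 x 0 ∧ f' = d3 x 1)) (d3 x 3) (d3 x 2) :=
    fun x => .symm _ _ (.rel _ _ ⟨x, .inl ⟨rfl, rfl⟩⟩)
  obtain ⟨n, k⟩ := f
  have e1 : n + 1 - 1 = n := by ring
  have e2 : n + 2 - 1 = n + 1 := by ring
  fin_cases k
  · show EqvGen _ _ (Cl.mk (n + 1 - 1) 2)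
    rw [e1]
    exact h ⟨n, 0⟩
  · show EqvGen _ _ (Cl.mk (n + 1 - 1) 2)
    rw [e1]
    exact h ⟨n, 1⟩
  · show EqvGen _ _ (Cl.mk (n + 1 - 1) 2)
    rw [e1]
    exact .refl _
  · show EqvGen _ _ (Cl.mk (n + 2 - 1) 2)
    rw [e2]
    exact .trans _ _ _ (.symm _ _ (.rel _ _ ⟨⟨n, 0⟩, .inr ⟨rfl, rfl⟩⟩)) (h ⟨n + 1, 0⟩)

theorem ex_two (f : Cl 4) :
    ∃ p q : Cl 2 × Fin 4, p ≠ q ∧ ∀ r : Cl 2 × Fin 4, d3 r.1 r.2 = f ↔ r = p ∨ r = q := by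
  obtain ⟨n, k⟩ := f
  fin_cases k
  · refine ⟨(⟨n, 0⟩, 3), (⟨n - 1, 0⟩, 0), by simp, fun ⟨⟨m, c⟩, l⟩ => ?_⟩
    fin_cases c <;> fin_cases l <;> simp [d3] <;> omega
  · refine ⟨(⟨n, 1⟩, 3), (⟨n - 1, 1⟩, 0), by simp, fun ⟨⟨m, c⟩, l⟩ => ?_⟩
    fin_cases c <;> fin_cases l <;> simp [d3] <;> omega
  · refine ⟨(⟨n, 0⟩, 2), (⟨n, 1⟩, 2), by simp, fun ⟨⟨m, c⟩, l⟩ => ?_⟩
    fin_cases c <;> fin_cases l <;> simp [d3]
  · refine ⟨(⟨n, 0⟩, 1), (⟨n, 1⟩, 1), by simp, fun ⟨⟨m, c⟩, l⟩ => ?_⟩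
    fin_cases c <;> fin_cases l <;> simp [d3]

/-- The doubled helix. -/
def helix : Tri GZ ℤ (Cl 3) (Cl 4) (Cl 2) where
  d1 := d1
  d2 := d2
  d3 := d3
  e1 g e i := by fin_cases i <;> simp [d1, smul_int, add_assoc, show (g • e).n = g.toAdd + e.n from rfl,
    show (g • e).i = e.i from rfl]
  e2 g f i := by fin_cases i <;> simp [d2, smul_mk, add_assoc, show (g • f).n = g.toAdd + f.n from rfl,
    show (g • f).i = f.i from rfl]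
  e3 g x i := by fin_cases i <;> simp [d3, smul_mk, add_assoc, show (g • x).n = g.toAdd + x.n from rfl,
    show (g • x).i = x.i from rfl]
  s2 := fun ⟨n, k⟩ i j h => by
    fin_cases k <;> fin_cases i <;> fin_cases j <;> simp [d1, d2, add_assoc] at h ⊢
  s3 := fun ⟨n, k⟩ i j h => by
    fin_cases k <;> fin_cases i <;> fin_cases j <;> simp [d2, d3, add_assoc] at h ⊢
  free g v h := by
    rw [smul_int] at h
    exact Multiplicative.toAdd.injective (by simpa using h)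
  fin := Finite.of_surjective (fun i : Fin 2 => Quotient.mk _ (Cl.mk 0 i)) fun q => by
    obtain ⟨⟨n, i⟩, rfl⟩ := Quotient.exists_rep q
    exact ⟨i, Quotient.sound ⟨Multiplicative.ofAdd (-n), Cl.ext (neg_add_cancel n) rfl⟩⟩
  ne := ⟨⟨0, 0⟩⟩
  two := ex_two
  conn := ex_conn
  link p q h := .trans _ _ _ (ex_link p) (h ▸ (ex_link q).symm)
  equ f f' h := .trans _ _ _ (ex_equ f) (h ▸ (ex_equ f').symm)
  h1 z hz := by
    obtain ⟨s, hs⟩ := ex_sum fun n => z ⟨n, 0⟩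
    refine ⟨s, fun ⟨n, k⟩ => ?_⟩
    have a1 : ∀ n, z ⟨n, 1⟩ = z ⟨n, 0⟩ + z ⟨n + 1, 0⟩ := fun n => hz ⟨n, 0⟩
    have a2 : z ⟨n, 2⟩ = z ⟨n, 0⟩ + z ⟨n + 1, 1⟩ := hz ⟨n, 2⟩
    have b1 := hs n
    have b2 := hs (n + 1)
    have b3 := hs (n + 1 + 1)
    have b4 := a1 n
    have b5 := a1 (n + 1)
    rw [show n + 1 + 1 + 1 = n + 3 by ring] at b3
    fin_cases k
    · show z ⟨n, 0⟩ = s (n + 1) - s n
      linarith
    · show z ⟨n, 1⟩ = s (n + 2) - s n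
      rw [show n + 2 = n + 1 + 1 by ring]
      linarith
    · show z ⟨n, 2⟩ = s (n + 3) - s n
      linarith

theorem helix_cyc : helix.Cyc := fun e =>
  ⟨Multiplicative.ofAdd ((![1, 2, 3] : Fin 3 → ℤ) e.i), by
    rw [show Multiplicative.ofAdd ((![1, 2, 3] : Fin 3 → ℤ) e.i) • helix.d1 e 1 = helix.d1 e 0 from
      add_comm _ _]⟩

/-- A piecewise linear map. -/
noncomputable def plf (t : ℝ) : ℝ := if t ≤ 0 then t else if t ≤ 1 / 2 then t / 2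
  else if t ≤ 3 / 4 then t - 1 / 4 else if t ≤ 1 then 2 * t - 1 else t

theorem plf_mono : StrictMono plf := fun s t h => by
  unfold plf
  split_ifs <;> linarith

theorem plf_surj : Function.Surjective plf := fun y => by
  unfold plf
  by_cases h0 : y ≤ 0 ∨ 1 < y
  · exact ⟨y, by rcases h0 with h | h <;> split_ifs <;> linarith⟩
  rw [not_or, not_le, not_lt] at h0
  obtain ⟨h0, h1⟩ := h0
  by_cases h2 : y ≤ 1 / 4
  · exact ⟨2 * y, by split_ifs <;> linarith⟩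
  by_cases h3 : y ≤ 1 / 2
  · exact ⟨y + 1 / 4, by split_ifs <;> linarith⟩
  · exact ⟨(y + 1) / 2, by split_ifs <;> linarith⟩

noncomputable def pl : ℝ ≃o ℝ := plf_mono.orderIsoOfSurjective plf plf_surj

theorem pl_apply (t : ℝ) : pl t = plf t := rfl

theorem ex_fol : helix.Fol fun f => ![OrderIso.refl ℝ, OrderIso.refl ℝ, OrderIso.refl ℝ, pl] f.i := by
  refine ⟨⟨fun ⟨n, k⟩ t ht => ?_, fun ⟨n, k⟩ s hs => ?_⟩, fun _ _ => rfl⟩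
  · fin_cases k
    · rfl
    · rfl
    · rfl
    · show pl t = t
      rw [mem_Ioo, not_and_or, not_lt, not_lt] at ht
      simp only [pl_apply, plf]
      rcases ht with ht | ht <;> split_ifs <;> linarith
  · have : (if 2 * s ≤ 1 then 2 * s else 1 + 2 * (2 * s - 1)) =
        if 2 * pl s ≤ 1 then 2 * (2 * pl s) else 2 * pl s + 1 := by
      obtain ⟨h0, h1⟩ := hs
      simp only [pl_apply, plf]
      split_ifs <;> linarith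
    fin_cases k <;> exact this

section NC
variable {φ : Cl 4 → ℝ ≃o ℝ} (h : helix.Flat φ)
include h

theorem nc_0 (f : Cl 4) : φ f 0 = 0 := h.supp f 0 (by simp)
theorem nc_1 (f : Cl 4) : φ f 1 = 1 := h.supp f 1 (by simp)

theorem nc_half (f : Cl 4) {t : ℝ} (ht : t ∈ Icc (0 : ℝ) 1) : (φ f).symm (t / 2) ∈ Icc (0 : ℝ) 1 := by
  constructor
  · rw [OrderIso.le_symm_apply, nc_0 h]
    linarith [ht.1]
  · rw [OrderIso.symm_apply_le, nc_1 h]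
    linarith [ht.2]

theorem nc_flat (n : ℤ) (c : Fin 2) {t : ℝ} (ht : t ∈ Icc (0 : ℝ) 1) (u : ℝ)
    (hu : u = 2 * φ ⟨n, 2⟩ ((φ ⟨n, 3⟩).symm (t / 2))) :
    (if u ≤ 1 then u else 1 + 2 * φ ⟨n + 1, ![0, 1] c⟩ (u - 1)) = 2 * φ ⟨n, ![0, 1] c⟩ t := by
  have k := h.flat ⟨n, c⟩ _ (nc_half h ⟨n, 3⟩ ht)
  have e : 2 * φ (helix.d3 ⟨n, c⟩ 1) ((φ ⟨n, 3⟩).symm (t / 2)) = t := by
    show 2 * φ ⟨n, 3⟩ _ = t
    rw [OrderIso.apply_symm_apply]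
    ring
  rw [e, if_pos ht.2] at k
  subst hu
  exact k

theorem nc_low (n : ℤ) {t : ℝ} (ht : t ∈ Icc (0 : ℝ) 1) (h1 : 2 * φ ⟨n, 0⟩ t ≤ 1) :
    φ ⟨n, 0⟩ t = φ ⟨n, 1⟩ t := by
  have a := nc_flat h n 0 ht _ rfl
  have b := nc_flat h n 1 ht _ rfl
  generalize 2 * φ ⟨n, 2⟩ ((φ ⟨n, 3⟩).symm (t / 2)) = u at a b
  change _ = 2 * φ ⟨n, 0⟩ t at a
  change _ = 2 * φ ⟨n, 1⟩ t at b
  by_cases k : u ≤ 1
  · rw [if_pos k] at a b
    linarith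
  · rw [if_neg k] at a
    have := (φ ⟨n + 1, ![0, 1] 0⟩).strictMono (show 0 < u - 1 by linarith)
    rw [nc_0 h] at this
    linarith

theorem nc_same (n : ℤ) (c : Fin 2) (t : ℝ) : φ ⟨n, ![0, 1] c⟩ t = φ ⟨n, 0⟩ t := by
  fin_cases c
  · rfl
  show φ ⟨n, 1⟩ t = _
  by_cases ht : t ∈ Ioo (0 : ℝ) 1
  swap
  · rw [h.supp _ _ ht, h.supp _ _ ht]
  replace ht := Ioo_subset_Icc_self ht
  have a := nc_flat h n 0 ht _ rfl
  have b := nc_flat h n 1 ht _ rfl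
  have u2 : φ ⟨n, 2⟩ ((φ ⟨n, 3⟩).symm (t / 2)) ≤ 1 :=
    ((φ _).monotone (nc_half h ⟨n, 3⟩ ht).2).trans (nc_1 h _).le
  have t1 : φ ⟨n, 0⟩ t ≤ 1 := ((φ _).monotone ht.2).trans (nc_1 h _).le
  generalize φ ⟨n, 2⟩ ((φ ⟨n, 3⟩).symm (t / 2)) = u at a b u2
  change (if _ then _ else 1 + 2 * φ ⟨n + 1, 0⟩ _) = 2 * φ ⟨n, 0⟩ t at a
  change (if _ then _ else 1 + 2 * φ ⟨n + 1, 1⟩ _) = 2 * φ ⟨n, 1⟩ t at b
  by_cases k : 2 * u ≤ 1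
  · rw [if_pos k] at a b
    linarith
  · rw [if_neg k] at a b
    have := nc_low h (n + 1) (t := 2 * u - 1) ⟨by linarith, by linarith⟩ (by linarith)
    linarith

end NC

/-- height of a plaque -/
noncomputable def ht3 (φ : Cl 4 → ℝ ≃o ℝ) (p : Cl 2 × ℝ) : ℝ := p.1.n +
  if 2 * φ ⟨p.1.n, 2⟩ p.2 ≤ 1 then 2 * φ ⟨p.1.n, 2⟩ p.2
  else 1 + 2 * φ ⟨p.1.n + 1, 0⟩ (2 * φ ⟨p.1.n, 2⟩ p.2 - 1)

/-- height of an arc -/
noncomputable def ht2 (φ : Cl 4 → ℝ ≃o ℝ) (f : Cl 4) (t : ℝ) : ℝ :=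
  if f.i = 2 ∨ f.i = 3 then ht3 φ (⟨f.n, 0⟩, t) else f.n + 2 * φ ⟨f.n, 0⟩ t

theorem nc_pos {φ : Cl 4 → ℝ ≃o ℝ} (h : helix.Flat φ) (x : Cl 2) (k : Fin 4) {t : ℝ}
    (ht : t ∈ Ioo (0 : ℝ) 1) : ht3 φ (x, helix.pos φ x k t) = ht2 φ (helix.d3 x k) t := by
  obtain ⟨n, c⟩ := x
  have hc : ¬ ((![0, 1] c : Fin 4) = 2 ∨ (![0, 1] c : Fin 4) = 3) := by
    fin_cases c <;> decide
  fin_cases k
  · show ht3 φ (⟨n, c⟩, (φ ⟨n, 2⟩).symm ((t + 1) / 2)) = ht2 φ ⟨n + 1, ![0, 1] c⟩ t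
    simp only [ht3, ht2, OrderIso.apply_symm_apply]
    rw [if_neg hc, if_neg (by linarith [ht.1]), show 2 * ((t + 1) / 2) - 1 = t by ring]
    push_cast
    ring
  · show ht3 φ (⟨n, c⟩, t) = ht2 φ ⟨n, 3⟩ t
    rw [ht2, if_pos (.inr rfl)]
    rfl
  · show ht3 φ (⟨n, c⟩, t) = ht2 φ ⟨n, 2⟩ t
    rw [ht2, if_pos (.inl rfl)]
    rfl
  · show ht3 φ (⟨n, c⟩, (φ ⟨n, 3⟩).symm (t / 2)) = ht2 φ ⟨n, ![0, 1] c⟩ t
    rw [ht2, if_neg hc]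
    exact congrArg (fun y => (n : ℝ) + y) (nc_flat h n 0 (Ioo_subset_Icc_self ht) _ rfl)

theorem ex_nc {φ : Cl 4 → ℝ ≃o ℝ} (h : helix.Flat φ) : helix.NC φ := by
  intro x s s' k
  have e : ∀ p q, EqvGen (helix.Step φ) p q → ht3 φ p = ht3 φ q := fun p q k => by
    induction k with
    | rel p q k =>
      obtain ⟨i, j, t, ht, e, e1, e2⟩ := k
      have a := nc_pos h p.1 i ht
      have b := nc_pos h q.1 j ht
      rw [← e1] at a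
      rw [← e2, ← e] at b
      exact a.trans b.symm
    | refl => rfl
    | symm _ _ _ ih => exact ih.symm
    | trans _ _ _ _ _ i1 i2 => exact i1.trans i2
  have m : StrictMono fun s => ht3 φ (x, s) := fun s s' k => by
    have a := (φ ⟨x.n, 2⟩).strictMono k
    simp only [ht3]
    split_ifs with h1 h2 h2
    · linarith
    · have := (φ ⟨x.n + 1, 0⟩).strictMono (show 0 < 2 * φ ⟨x.n, 2⟩ s' - 1 by linarith)
      rw [nc_0 h] at this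
      linarith
    · linarith
    · have := (φ ⟨x.n + 1, 0⟩).strictMono
        (show 2 * φ ⟨x.n, 2⟩ s - 1 < 2 * φ ⟨x.n, 2⟩ s' - 1 by linarith)
      linarith
  exact m.injective (e _ _ k)

/-- All hypotheses hold together for the doubled helix. -/
theorem nonvac : ∃ (G X0 X1 X2 X3 : Type) (_ : Group G) (_ : MulAction G X0) (_ : MulAction G X1)
    (_ : MulAction G X2) (_ : MulAction G X3) (T : Tri G X0 X1 X2 X3),
    (∀ a : G, a ≠ 1 → ¬ IsOfFinOrder a) ∧ IsCyclic G ∧ T.Cyc ∧ (∃ φ, T.Fol φ) ∧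
      ∀ φ, T.Flat φ → T.NC φ :=
  ⟨GZ, ℤ, Cl 3, Cl 4, Cl 2, _, _, _, _, _, helix, fun _ ha k => ha k.eq_one', inferInstance,
    helix_cyc, ⟨_, ex_fol⟩, fun _ => ex_nc⟩

end Pool.Agent.Work.MP_3d425c_gt.Ex
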