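import Pool.Agent.Work.MP_3d425c_gt.Lt.Cusp

/-! The Bianchi group `PSL(2, ℤ[√-2])` is a lattice with one cusp, in the sense of `Lt.Cusp`. -/

namespace Pool.Agent.Work.MP_3d425c_gt.Ex.Bi
open Matrix Set Lt Complex

abbrev P2 : Type := ProjectiveSpecialLinearGroup (Fin 2) ℂ

/-- `a + b √-2` -/
noncomputable def z (a b : ℤ) : ℂ := ⟨a, b * √2⟩

theorem s2 : √2 * √2 = (2 : ℝ) := Real.mul_self_sqrt (by norm_num)

theorem z_add (a b c d : ℤ) : z a b + z c d = z (a + c) (b + d) := by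
  apply Complex.ext <;> simp [z, add_mul]

theorem z_neg (a b : ℤ) : -z a b = z (-a) (-b) := by
  apply Complex.ext <;> simp [z]

theorem z_mul (a b c d : ℤ) : z a b * z c d = z (a * c - 2 * b * d) (a * d + b * c) := by
  apply Complex.ext <;> simp [z]
  · linear_combination (b * d : ℝ) * s2
  · ring

theorem z_sq (a b : ℤ) : normSq (z a b) = ((a ^ 2 + 2 * b ^ 2 : ℤ) : ℝ) := by
  simp [z, normSq_mk]
  linear_combination (b * b : ℝ) * s2

theorem z_zero : z 0 0 = 0 := by apply Complex.ext <;> simp [z]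
theorem z_one : z 1 0 = 1 := by apply Complex.ext <;> simp [z]

theorem z_inj {a b : ℤ} (h : z a b = 0) : a = 0 ∧ b = 0 := by
  have := z_sq a b
  rw [h, map_zero] at this
  have : a ^ 2 + 2 * b ^ 2 = 0 := by exact_mod_cast this.symm
  constructor <;> nlinarith [sq_nonneg a, sq_nonneg b]

/-- the ring `ℤ[√-2]` -/
def R : Subring ℂ where
  carrier := {x | ∃ a b, x = z a b}
  mul_mem' := by rintro _ _ ⟨a, b, rfl⟩ ⟨c, d, rfl⟩; exact ⟨_, _, z_mul a b c d⟩
  one_mem' := ⟨1, 0, z_one.symm⟩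
  add_mem' := by rintro _ _ ⟨a, b, rfl⟩ ⟨c, d, rfl⟩; exact ⟨_, _, z_add a b c d⟩
  zero_mem' := ⟨0, 0, z_zero.symm⟩
  neg_mem' := by rintro _ ⟨a, b, rfl⟩; exact ⟨_, _, z_neg a b⟩

theorem one_le {x : ℂ} (hx : x ∈ R) (h : x ≠ 0) : 1 ≤ normSq x := by
  obtain ⟨a, b, rfl⟩ := hx
  have h0 := normSq_pos.2 h
  rw [z_sq] at h0 ⊢
  exact_mod_cast (by exact_mod_cast h0 : 0 < a ^ 2 + 2 * b ^ 2)

theorem unit {x y : ℂ} (hx : x ∈ R) (hy : y ∈ R) (h : x * y = 1) : x = 1 ∨ x = -1 := by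
  have a1 := one_le hx (left_ne_zero_of_mul_eq_one h)
  have a2 := one_le hy (right_ne_zero_of_mul_eq_one h)
  have a3 := congrArg normSq h
  rw [map_mul, map_one] at a3
  have a4 : normSq x = 1 := by nlinarith
  obtain ⟨a, b, rfl⟩ := hx
  rw [z_sq] at a4
  have a5 : a ^ 2 + 2 * b ^ 2 = 1 := by exact_mod_cast a4
  have hb : b = 0 := by nlinarith [sq_nonneg a, sq_nonneg b, sq_nonneg (b - 1), sq_nonneg (b + 1)]
  subst hb
  have : a = 1 ∨ a = -1 := sq_eq_one_iff.1 (by linarith)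
  rcases this with rfl | rfl
  · exact Or.inl z_one
  · exact Or.inr (by rw [← z_one, z_neg]; rfl)

theorem near (t : ℂ) : ∃ τ ∈ R, normSq (t - τ) ≤ 3 / 4 := by
  refine ⟨z (round t.re) (round (t.im / √2)), ⟨_, _, rfl⟩, ?_⟩
  have h1 := abs_le.1 (abs_sub_round t.re)
  have h2 := abs_le.1 (abs_sub_round (t.im / √2))
  have h3 : t.im = t.im / √2 * √2 := (div_mul_cancel₀ _ (by positivity)).symm
  rw [normSq_apply]
  simp only [z, sub_re, sub_im]
  generalize t.im / √2 = u at h2 h3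
  rw [h3, ← sub_mul, mul_mul_mul_comm, s2]
  nlinarith

theorem fin_ball (B : ℝ) : {x : ℂ | x ∈ R ∧ ‖x‖ ≤ B}.Finite := by
  obtain ⟨n, hn⟩ := exists_int_gt (B ^ 2)
  refine (((finite_Icc (-n) n).prod (finite_Icc (-n) n)).image fun p => z p.1 p.2).subset ?_
  rintro _ ⟨⟨a, b, rfl⟩, h⟩
  have h1 : normSq (z a b) ≤ B ^ 2 := by
    rw [normSq_eq_norm_sq]
    exact pow_le_pow_left₀ (norm_nonneg _) h 2
  rw [z_sq] at h1
  have h2 : a ^ 2 + 2 * b ^ 2 < n := by exact_mod_cast h1.trans_lt hn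
  refine ⟨(a, b), ⟨⟨?_, ?_⟩, ?_, ?_⟩, rfl⟩ <;>
    nlinarith [sq_nonneg a, sq_nonneg b, sq_nonneg (2 * a + 1), sq_nonneg (2 * a - 1),
      sq_nonneg (2 * b + 1), sq_nonneg (2 * b - 1)]

theorem inv_ent (y : S2) :
    y⁻¹ 0 0 = y 1 1 ∧ y⁻¹ 0 1 = -y 0 1 ∧ y⁻¹ 1 0 = -y 1 0 ∧ y⁻¹ 1 1 = y 0 0 := by
  rw [SpecialLinearGroup.SL2_inv_expl]
  exact ⟨rfl, rfl, rfl, rfl⟩

/-- `SL(2, ℤ[√-2])` -/
def Γ : Subgroup S2 where
  carrier := {y | ∀ i j, y i j ∈ R}
  mul_mem' := fun hx hy i j => by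
    rw [mul_ent]
    exact add_mem (mul_mem (hx _ _) (hy _ _)) (mul_mem (hx _ _) (hy _ _))
  one_mem' := fun i j => by
    fin_cases i <;> fin_cases j <;> simp
  inv_mem' := fun {y} hy i j => by
    obtain ⟨a, b, c, d⟩ := inv_ent y
    fin_cases i <;> fin_cases j
    · exact a ▸ hy 1 1
    · exact b ▸ neg_mem (hy 0 1)
    · exact c ▸ neg_mem (hy 1 0)
    · exact d ▸ hy 0 0

theorem mk2_mem {a b c d : ℂ} (h) (ha : a ∈ R) (hb : b ∈ R) (hc : c ∈ R) (hd : d ∈ R) :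
    mk2 a b c d h ∈ Γ := fun i j => by
  fin_cases i <;> fin_cases j
  exacts [ha, hb, hc, hd]

/-- `PSL(2, ℤ[√-2])` -/
def A : Subgroup P2 := Γ.map (QuotientGroup.mk' _)

theorem lift_mem {a : A} {y : S2} (h : QuotientGroup.mk y = a.1) : y ∈ Γ := by
  obtain ⟨x, hx, e⟩ := a.2
  obtain ⟨r, h1, h2⟩ := lift_sign (e.trans h.symm)
  intro i j
  rw [h2]
  rcases sq_eq_one_iff.1 h1 with rfl | rfl
  · simpa using hx i j
  · simpa using hx i j

/-- the class of a matrix -/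
def cl (y : S2) (hy : y ∈ Γ) : A := ⟨QuotientGroup.mk y, y, hy, rfl⟩

/-- a lift -/
noncomputable def L (a : A) : S2 := a.1.out

theorem mk_L (a : A) : QuotientGroup.mk (L a) = a.1 := QuotientGroup.out_eq' _

/-- a translation -/
def U (t : ℂ) : S2 := mk2 1 t 0 1 (by ring)

theorem U_add (s t : ℂ) : U (s + t) = U s * U t := by
  ext i j
  rw [mul_ent]
  fin_cases i <;> fin_cases j <;> simp [U, mk2, add_comm]

theorem U_zero : U 0 = 1 := by
  ext i j
  fin_cases i <;> fin_cases j <;> simp [U, mk2]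

theorem U_mem {t : ℂ} (h : t ∈ R) : U t ∈ Γ := mk2_mem _ (one_mem _) h (zero_mem _) (one_mem _)

/-- the cusp group -/
noncomputable def ψ : Multiplicative (ℤ × ℤ) →* A where
  toFun x := cl (U (z x.toAdd.1 x.toAdd.2)) (U_mem ⟨_, _, rfl⟩)
  map_one' := Subtype.ext (by simp [cl, z_zero, U_zero])
  map_mul' x y := Subtype.ext (by simp [cl, ← z_add, U_add])

theorem mem_range {a : A} {y : S2} (h : QuotientGroup.mk y = a.1) : a ∈ ψ.range ↔ y 1 0 = 0 := by
  constructor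
  · rintro ⟨x, rfl⟩
    obtain ⟨r, -, h2⟩ := lift_sign h.symm
    rw [h2]
    exact mul_zero r
  · intro h0
    have hy := lift_mem h
    have hd := det_ent y
    rw [h0, mul_zero, sub_zero] at hd
    obtain ⟨p, q, e⟩ := mul_mem (hy 0 0) (hy 0 1)
    refine ⟨Multiplicative.ofAdd (p, q), Subtype.ext ?_⟩
    rw [← h]
    refine QuotientGroup.eq.2 (Matrix.SpecialLinearGroup.mem_center_iff.2 ⟨y 0 0, ?_, ?_⟩)
    · rcases unit (hy 0 0) (hy 1 1) hd with h1 | h1 <;> simp [h1]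
    · ext i j
      change _ = ((mk2 1 (z p q) 0 1 (by ring))⁻¹ * y) i j
      rw [mul_ent, inv_mk2, ← e]
      have h11 : y 1 1 = y 0 0 := by
        rcases unit (hy 0 0) (hy 1 1) hd with h1 | h1 <;> rw [h1] at hd ⊢
        · linear_combination hd
        · linear_combination -hd
      fin_cases i <;> fin_cases j <;> simp [h0, mk2, h11]
      rw [h11] at hd
      linear_combination (y 0 1) * hd

theorem ψ_inj : Function.Injective ψ := (injective_iff_map_eq_one ψ).2 fun x hx => by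
  have h : (QuotientGroup.mk (U (z x.toAdd.1 x.toAdd.2)) : P2) = QuotientGroup.mk 1 :=
    congrArg Subtype.val hx
  obtain ⟨r, -, h2⟩ := lift_sign h.symm
  have := z_inj (a := x.toAdd.1) (b := x.toAdd.2) ((h2 0 1).trans (by simp))
  exact Multiplicative.toAdd.injective (Prod.ext this.1 this.2)

/-- the half turn -/
def S : S2 := mk2 0 (-1) 1 0 (by ring)

theorem S_mem : S ∈ Γ := mk2_mem _ (zero_mem _) (neg_mem (one_mem _)) (one_mem _) (zero_mem _)

theorem S_not : cl S S_mem ∉ ψ.range := by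
  rw [mem_range (y := S) rfl]
  exact one_ne_zero

theorem not_norm (x : Multiplicative (ℤ × ℤ))
    (h : ∀ g : A, g * ψ x * g⁻¹ ∈ Subgroup.zpowers (ψ x)) : x = 1 := by
  have h1 : cl S S_mem * ψ x * (cl S S_mem)⁻¹ ∈ ψ.range :=
    (Subgroup.zpowers_le.2 ⟨x, rfl⟩ : Subgroup.zpowers (ψ x) ≤ ψ.range) (h _)
  rw [mem_range (y := S * U (z x.toAdd.1 x.toAdd.2) * S⁻¹) rfl, mul_ent, mul_ent, mul_ent] at h1
  obtain ⟨a, b, c, d⟩ := inv_ent S
  rw [a, c] at h1
  have := z_inj (a := x.toAdd.1) (b := x.toAdd.2) (by simpa [S, U, mk2] using h1)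
  exact Multiplicative.toAdd.injective (Prod.ext this.1 this.2)

/-- the vector of a cusp -/
noncomputable def cv (q : A ⧸ ψ.range) : Fin 2 → ℂ := fun i => L q.out i 0

theorem cv_mk {a : A} {y : S2} (h : QuotientGroup.mk y = a.1) :
    (fun i => y i 0) = cv a ∨ (fun i => y i 0) = -cv a := by
  have h1 : ((a : A ⧸ ψ.range).out)⁻¹ * a ∈ ψ.range :=
    QuotientGroup.eq.1 (QuotientGroup.out_eq' _)
  have h2 : QuotientGroup.mk ((L (a : A ⧸ ψ.range).out)⁻¹ * y) =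
      (((a : A ⧸ ψ.range).out)⁻¹ * a).1 := by
    simp [mk_L, h]
  have h3 := (mem_range h2).1 h1
  have hm := lift_mem h2
  have hd := det_ent ((L (a : A ⧸ ψ.range).out)⁻¹ * y)
  rw [h3, mul_zero, sub_zero] at hd
  have e : ∀ i, y i 0 = cv a i * ((L (a : A ⧸ ψ.range).out)⁻¹ * y) 0 0 := fun i => by
    have := mul_ent (L (a : A ⧸ ψ.range).out) ((L (a : A ⧸ ψ.range).out)⁻¹ * y) i 0
    rw [mul_inv_cancel_left, h3, mul_zero, add_zero] at this
    exact this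
  rcases unit (hm 0 0) (hm 1 1) hd with h4 | h4
  · exact Or.inl (funext fun i => by rw [e, h4, mul_one])
  · exact Or.inr (funext fun i => by rw [e, h4, mul_neg_one]; rfl)

/-- squared length of a column -/
noncomputable def N (y : S2) (j : Fin 2) : ℝ := normSq (y 0 j) + normSq (y 1 j)

theorem reduce (y : S2) (h : 0 < N y 0) :
    ∃ τ ∈ R, N (y * U τ) 1 ≤ 3 / 4 * N y 0 + 1 / N y 0 := by
  obtain ⟨τ, hτ, h1⟩ := near (-(y 0 1 * (starRingEnd ℂ) (y 0 0) + y 1 1 * (starRingEnd ℂ) (y 1 0)) /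
    (N y 0 : ℝ))
  refine ⟨τ, hτ, ?_⟩
  have hN : ((N y 0 : ℝ) : ℂ) = y 0 0 * (starRingEnd ℂ) (y 0 0) + y 1 0 * (starRingEnd ℂ) (y 1 0) := by
    simp [N, mul_conj]
  have h0 : ((N y 0 : ℝ) : ℂ) ≠ 0 := by exact_mod_cast h.ne'
  have lag : ∀ a b c d : ℂ, (normSq a + normSq c) * (normSq b + normSq d) =
      normSq (b * (starRingEnd ℂ) a + d * (starRingEnd ℂ) c) + normSq (a * d - b * c) := by
    intro a b c d
    simp [normSq_apply]
    ring
  have e0 : (y * U τ) 0 1 = y 0 0 * τ + y 0 1 := by rw [mul_ent]; simp [U, mk2]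
  have e1 : (y * U τ) 1 1 = y 1 0 * τ + y 1 1 := by rw [mul_ent]; simp [U, mk2]
  have k := lag (y 0 0) (y 0 0 * τ + y 0 1) (y 1 0) (y 1 0 * τ + y 1 1)
  have d1 : y 0 0 * (y 1 0 * τ + y 1 1) - (y 0 0 * τ + y 0 1) * y 1 0 = 1 := by
    linear_combination det_ent y
  have d2 : (y 0 0 * τ + y 0 1) * (starRingEnd ℂ) (y 0 0) +
      (y 1 0 * τ + y 1 1) * (starRingEnd ℂ) (y 1 0) =
      -((N y 0 : ℝ) * (-(y 0 1 * (starRingEnd ℂ) (y 0 0) + y 1 1 * (starRingEnd ℂ) (y 1 0)) /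
        (N y 0 : ℝ) - τ)) := by
    rw [mul_sub, mul_div_cancel₀ _ h0, hN]
    ring
  rw [d1, d2, normSq_neg, map_mul, map_one, normSq_ofReal] at k
  have k2 : N y 0 * N (y * U τ) 1 ≤ N y 0 * (3 / 4 * N y 0 + 1 / N y 0) := by
    rw [mul_add, mul_one_div_cancel h.ne']
    change N y 0 * (normSq _ + normSq _) ≤ _
    rw [e0, e1]
    have := mul_le_mul_of_nonneg_left h1 (mul_self_nonneg (N y 0))
    change N y 0 * _ = _ at k
    linarith
  exact le_of_mul_le_mul_left k2 h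

theorem thick (ε : ℝ) (hε : 0 < ε) (x : S2) (h : ∀ y ∈ Γ, ε ≤ N (x * y) 0) :
    ∃ y ∈ Γ, Bd (3 + 1 / ε) (x * y) := by
  let s : Set ℝ := {r | ∃ y ∈ Γ, r = N (x * y) 0}
  have hb : BddBelow s := ⟨ε, by rintro _ ⟨y, hy, rfl⟩; exact h y hy⟩
  have hn : s.Nonempty := ⟨_, 1, one_mem _, rfl⟩
  have h1 : ε ≤ sInf s := le_csInf hn (by rintro _ ⟨y, hy, rfl⟩; exact h y hy)
  obtain ⟨_, ⟨y, hy, rfl⟩, h2⟩ := exists_lt_of_csInf_lt hn (by linarith : sInf s < 8 / 7 * sInf s)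
  have hp : 0 < N (x * y) 0 := hε.trans_le (h y hy)
  obtain ⟨τ, hτ, h3⟩ := reduce (x * y) hp
  have h4 : sInf s ≤ N (x * y * U τ) 1 := by
    refine csInf_le hb ⟨y * U τ * S, mul_mem (mul_mem hy (U_mem hτ)) S_mem, ?_⟩
    rw [← mul_assoc, ← mul_assoc]
    unfold N
    rw [mul_ent _ S, mul_ent _ S]
    simp [S, mk2]
  have h5 : 1 / N (x * y) 0 ≤ 1 / ε := one_div_le_one_div_of_le hε (h y hy)
  have h6 : N (x * y) 0 ≤ 3 := by
    by_contra hc
    have : 1 / N (x * y) 0 ≤ 1 / 3 := one_div_le_one_div_of_le (by norm_num) (by linarith)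
    linarith
  have h7 : N (x * y * U τ) 0 = N (x * y) 0 := by
    unfold N
    rw [mul_ent _ (U τ), mul_ent _ (U τ)]
    simp [U, mk2]
  have h8 : 0 < 1 / ε := by positivity
  refine ⟨y * U τ, mul_mem hy (U_mem hτ), fun i j => ?_⟩
  rw [← mul_assoc]
  have h9 : N (x * y * U τ) j ≤ 3 + 1 / ε := by
    fin_cases j
    · exact h7.le.trans (by linarith)
    · exact h3.trans (by linarith)
  have h10 : normSq ((x * y * U τ) i j) ≤ N (x * y * U τ) j := by
    fin_cases i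
    · exact le_add_of_nonneg_right (normSq_nonneg _)
    · exact le_add_of_nonneg_left (normSq_nonneg _)
  rw [normSq_eq_norm_sq] at h10
  nlinarith [norm_nonneg ((x * y * U τ) i j)]

theorem cusp : Cusp (⊤ : Subgroup A) (univ : Set (A ⧸ ψ.range))
    (A.subtype.comp (Subgroup.subtype ⊤)) cv where
  disc B := by
    have h1 : {m : Matrix (Fin 2) (Fin 2) ℂ | ∀ i, m i ∈
        {v : Fin 2 → ℂ | ∀ j, v j ∈ {x : ℂ | x ∈ R ∧ ‖x‖ ≤ B}}}.Finite :=
      Finite.pi' fun _ => Finite.pi' fun _ => fin_ball B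
    have h2 := (h1.preimage (f := fun y : S2 => y.1) Subtype.val_injective.injOn).image
      (fun y => (QuotientGroup.mk y : P2))
    refine (h2.preimage (f := fun g : (⊤ : Subgroup A) => g.1.1)
      (Subtype.val_injective.comp Subtype.val_injective).injOn).subset ?_
    rintro g ⟨y, hy, hB⟩
    exact ⟨y, fun i j => ⟨lift_mem hy i j, hB i j⟩, hy⟩
  equi g y hy q _ := by
    have e : g.1 • q = ((g.1 * q.out : A) : A ⧸ ψ.range) := by
      conv_lhs => rw [← QuotientGroup.out_eq' q]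
      rfl
    have e2 : y.1.mulVec (cv q) = fun i => (y * L q.out) i 0 := funext fun i => by
      rw [mv_ent, mul_ent]
      rfl
    rw [e, e2]
    exact cv_mk (by simp [mk_L, hy])
  far q _ q' _ hne := by
    have h2 : QuotientGroup.mk ((L q.out)⁻¹ * L q'.out) = ((q.out)⁻¹ * q'.out).1 := by
      simp [mk_L]
    have h3 : ((L q.out)⁻¹ * L q'.out) 1 0 ≠ 0 := fun h0 => hne (by
      rw [← QuotientGroup.out_eq' q, ← QuotientGroup.out_eq' q']
      exact QuotientGroup.eq.2 ((mem_range h2).2 h0))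
    have h4 := one_le (lift_mem h2 1 0) h3
    obtain ⟨a, b, c, d⟩ := inv_ent (L q.out)
    rw [mul_ent, c, d, normSq_eq_norm_sq] at h4
    have e : cv q 0 * cv q' 1 - cv q 1 * cv q' 0 =
        -L q.out 1 0 * L q'.out 0 0 + L q.out 0 0 * L q'.out 1 0 := by
      simp only [cv]
      ring
    rw [e]
    exact (one_le_sq_iff₀ (norm_nonneg _)).1 h4
  coc ε hε := by
    refine ⟨3 + 1 / ε ^ 2, fun x => ?_⟩
    by_cases h : ∃ w ∈ (univ : Set (A ⧸ ψ.range)), ‖x⁻¹.1.mulVec (cv w)‖ < ε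
    · exact Or.inl h
    push Not at h
    obtain ⟨y, hy, hB⟩ := thick (ε ^ 2) (by positivity) x⁻¹ fun y hy => by
      have h1 := h (cl y hy) (mem_univ _)
      have e2 : x⁻¹.1.mulVec (fun i => y i 0) = fun i => (x⁻¹ * y) i 0 := funext fun i => by
        rw [mv_ent, mul_ent]
      have h2 : ε ≤ ‖fun i => (x⁻¹ * y) i 0‖ := by
        rw [← e2]
        rcases cv_mk (a := cl y hy) (y := y) rfl with e | e
        · rwa [e]
        · rwa [e, mulVec_neg, norm_neg]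
      by_contra hc
      refine h2.not_gt ((pi_norm_lt_iff hε).2 fun i => ?_)
      have h10 : normSq ((x⁻¹ * y) i 0) ≤ N (x⁻¹ * y) 0 := by
        fin_cases i
        · exact le_add_of_nonneg_right (normSq_nonneg _)
        · exact le_add_of_nonneg_left (normSq_nonneg _)
      rw [normSq_eq_norm_sq] at h10
      exact lt_of_pow_lt_pow_left₀ 2 hε.le (by linarith)
    refine Or.inr ⟨⟨cl y⁻¹ (inv_mem hy), trivial⟩, y⁻¹, rfl, ?_⟩
    have := hB.inv
    rwa [_root_.mul_inv_rev, inv_inv] at this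

end Pool.Agent.Work.MP_3d425c_gt.Ex.Bi
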