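import Mathlib

/-! The Bass–Serre tree of an amalgamated product of two groups. -/

namespace Pool.Agent.Work.MP_3d425c_gt.Ex.Bs
open Monoid Monoid.PushoutI MulAction

variable {G : Bool → Type} [∀ i, Group (G i)] {H : Type} [Group H] (φ : ∀ i, H →* G i)

/-- The two factors. -/
abbrev A (i : Bool) : Subgroup (PushoutI φ) := (of (φ := φ) i).range

/-- Vertices: cosets of the factors. -/
abbrev Vx : Type := Σ i : Bool, PushoutI φ ⧸ A φ i

/-- The vertex `g A i`. -/
def vx (i : Bool) (g : PushoutI φ) : Vx φ := ⟨i, (g : PushoutI φ ⧸ A φ i)⟩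

variable {φ}

theorem smul_vx (k : PushoutI φ) (i : Bool) (g : PushoutI φ) :
    k • vx φ i g = vx φ i (k * g) := rfl

theorem vx_eq {i : Bool} {g k : PushoutI φ} : vx φ i g = vx φ i k ↔ g⁻¹ * k ∈ A φ i := by
  simp [vx, QuotientGroup.eq]

theorem vx_fst {i j : Bool} {g k : PushoutI φ} (h : vx φ i g = vx φ j k) : i = j :=
  congrArg Sigma.fst h

theorem vx_surj (v : Vx φ) : ∃ i g, v = vx φ i g := by
  obtain ⟨i, x⟩ := v
  obtain ⟨g, rfl⟩ := QuotientGroup.mk_surjective x
  exact ⟨i, g, rfl⟩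

theorem base_mem (i : Bool) (c : H) : base φ c ∈ A φ i := ⟨φ i c, of_apply_eq_base φ i c⟩

variable (φ) in
/-- The tree. -/
def Tr : SimpleGraph (Vx φ) where
  Adj u v := ∃ i g, u = vx φ i g ∧ v = vx φ (!i) g
  symm := ⟨by
    rintro u v ⟨i, g, rfl, rfl⟩
    exact ⟨!i, g, rfl, by simp⟩⟩
  loopless := ⟨by
    rintro u ⟨i, g, rfl, h⟩
    simpa using vx_fst h⟩

theorem adj_vx (i : Bool) (g : PushoutI φ) : (Tr φ).Adj (vx φ i g) (vx φ (!i) g) :=
  ⟨i, g, rfl, rfl⟩

theorem adj_smul (k : PushoutI φ) {u v : Vx φ} (h : (Tr φ).Adj u v) :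
    (Tr φ).Adj (k • u) (k • v) := by
  obtain ⟨i, g, rfl, rfl⟩ := h
  exact adj_vx i (k * g)

theorem adj_iff {i : Bool} {g : PushoutI φ} {v : Vx φ} :
    (Tr φ).Adj (vx φ i g) v ↔ ∃ a : G i, v = vx φ (!i) (g * of i a) := by
  constructor
  · rintro ⟨j, k, h, rfl⟩
    obtain rfl := vx_fst h
    obtain ⟨a, ha⟩ := vx_eq.1 h
    exact ⟨a, by rw [ha]; simp⟩
  · rintro ⟨a, rfl⟩
    refine ⟨i, g * of i a, vx_eq.2 ⟨a, by simp⟩, rfl⟩

theorem fst_smul (k : PushoutI φ) (v : Vx φ) : (k • v).1 = v.1 := by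
  obtain ⟨i, g, rfl⟩ := vx_surj v
  rfl

theorem adj_fst {u v : Vx φ} (h : (Tr φ).Adj u v) : u.1 ≠ v.1 := by
  obtain ⟨i, g, rfl, rfl⟩ := h
  cases i <;> simp [vx]

theorem reach_smul (k : PushoutI φ) {u v : Vx φ} (h : (Tr φ).Reachable u v) :
    (Tr φ).Reachable (k • u) (k • v) :=
  h.map (⟨fun x => k • x, fun h => adj_smul k h⟩ : Tr φ →g Tr φ)

theorem reach_one (i j : Bool) (g : PushoutI φ) : (Tr φ).Reachable (vx φ i g) (vx φ j g) := by
  by_cases h : j = i
  · rw [h]
  · have : j = !i := by cases i <;> cases j <;> simp_all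
    rw [this]
    exact (adj_vx i g).reachable

theorem reach (g : PushoutI φ) : (Tr φ).Reachable (vx φ true 1) (vx φ true g) := by
  induction g using PushoutI.induction_on with
  | of i a =>
    have : vx φ i 1 = vx φ i (of i a) := vx_eq.2 ⟨a, by simp⟩
    exact (reach_one true i 1).trans (this ▸ reach_one i true _)
  | base c =>
    have : vx φ true 1 = vx φ true (base φ c) := vx_eq.2 (by simpa using base_mem true c)
    rw [← this]
  | mul x y hx hy =>
    have := reach_smul x hy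
    rw [smul_vx, smul_vx, mul_one] at this
    exact hx.trans this

/-- Values of reduced words whose last letter has type `i`, and whose first has not type `j`. -/
inductive Sd (φ : ∀ i, H →* G i) (i : Bool) : Bool → PushoutI φ → Prop
  | nil : Sd φ i i 1
  | cons (j : Bool) (g : PushoutI φ) (a : G j) : Sd φ i j g → a ∉ (φ j).range →
      Sd φ i (!j) (of j a * g)

theorem Sd.word {i j : Bool} {g : PushoutI φ} (h : Sd φ i j g) :
    ∃ w : CoprodI.Word G, Reduced φ w ∧ ofCoprodI w.prod = g ∧ w.fstIdx ≠ some j ∧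
      (w = .empty → j = i) := by
  induction h with
  | nil => exact ⟨.empty, by simp [Reduced, CoprodI.Word.empty], by simp,
      by simp [CoprodI.Word.fstIdx, CoprodI.Word.empty], fun _ => rfl⟩
  | cons j g a _ ha ih =>
    obtain ⟨w, hw, hp, hf, -⟩ := ih
    have h1 : a ≠ 1 := by rintro rfl; exact ha (one_mem _)
    refine ⟨CoprodI.Word.cons a w hf h1, ?_, by simp [hp], by simp, ?_⟩
    · intro x hx
      rcases List.mem_cons.1 hx with rfl | hx
      · exact ha
      · exact hw x hx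
    · intro h
      simp [CoprodI.Word.cons, CoprodI.Word.empty] at h

theorem Sd.not_mem (hφ : ∀ i, Function.Injective (φ i)) {i : Bool} {g : PushoutI φ}
    (h : Sd φ i (!i) g) : g ∉ A φ (!i) := by
  rintro ⟨b, hb⟩
  by_cases hr : b ∈ (φ (!i)).range
  · obtain ⟨w, hw, hp, -, he⟩ := h.word
    obtain ⟨c, rfl⟩ := hr
    have := he (hw.eq_empty_of_mem_range hφ ⟨c, by rw [hp, ← hb, of_apply_eq_base]⟩)
    simp at this
  · obtain ⟨w, hw, hp, hf, -⟩ := h.word
    have h1 : b⁻¹ ≠ 1 := by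
      intro h1
      rw [inv_eq_one] at h1
      exact hr (h1 ▸ one_mem _)
    have hw' : Reduced φ (CoprodI.Word.cons b⁻¹ w hf h1) := by
      intro x hx
      rcases List.mem_cons.1 hx with rfl | hx
      · simpa using hr
      · exact hw x hx
    have := hw'.eq_empty_of_mem_range hφ ⟨1, by simp [hp, ← hb]⟩
    simp [CoprodI.Word.cons, CoprodI.Word.empty] at this

theorem Sd.step {i : Bool} {k : PushoutI φ} {u v : Vx φ}
    (hu : ∃ j g, Sd φ i j g ∧ u = vx φ j (k * g⁻¹)) (h : (Tr φ).Adj u v)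
    (he : s(u, v) ≠ s(vx φ i k, vx φ (!i) k)) : ∃ j g, Sd φ i j g ∧ v = vx φ j (k * g⁻¹) := by
  obtain ⟨j, g, hs, rfl⟩ := hu
  obtain ⟨a, rfl⟩ := adj_iff.1 h
  by_cases ha : a ∈ (φ j).range
  · obtain ⟨c, rfl⟩ := ha
    have e : vx φ (!j) (k * g⁻¹ * of j (φ j c)) = vx φ (!j) (k * g⁻¹) := by
      refine (vx_eq.2 ?_).symm
      rw [of_apply_eq_base]
      rw [inv_mul_cancel_left]
      exact base_mem (!j) c
    rw [e] at he ⊢
    cases hs with
    | nil => exact absurd (by rw [inv_one, mul_one]) he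
    | cons j g b hs hb =>
      refine ⟨j, g, hs, ?_⟩
      rw [Bool.not_not]
      refine vx_eq.2 ⟨b, ?_⟩
      group
  · exact ⟨!j, _, Sd.cons j g a⁻¹ hs (by simpa using ha), by simp [mul_assoc]⟩

theorem isTree (hφ : ∀ i, Function.Injective (φ i)) : (Tr φ).IsTree := by
  refine ⟨(SimpleGraph.connected_iff_exists_forall_reachable _).2 ⟨vx φ true 1, fun v => ?_⟩,
    SimpleGraph.isAcyclic_iff_forall_adj_isBridge.2 ?_⟩
  · obtain ⟨i, g, rfl⟩ := vx_surj v
    exact (reach g).trans (reach_one _ _ _)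
  · rintro u v ⟨i, k, rfl, rfl⟩
    rw [SimpleGraph.isBridge_iff, SimpleGraph.reachable_iff_reflTransGen]
    intro h
    have key : ∀ v, Relation.ReflTransGen
        ((Tr φ).deleteEdges {s(vx φ i k, vx φ (!i) k)}).Adj (vx φ i k) v →
        ∃ j g, Sd φ i j g ∧ v = vx φ j (k * g⁻¹) := by
      intro v hv
      induction hv with
      | refl => exact ⟨i, 1, .nil, by simp⟩
      | tail _ hbc ih =>
        rw [SimpleGraph.deleteEdges_adj] at hbc
        exact Sd.step ih hbc.1 (by simpa using hbc.2)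
    obtain ⟨j, g, hs, he⟩ := key _ h
    obtain rfl := vx_fst he
    have := vx_eq.1 he
    exact hs.not_mem hφ (by simpa using this)

theorem mem_stab {i : Bool} {g k : PushoutI φ} :
    k ∈ stabilizer (PushoutI φ) (vx φ i g) ↔ g⁻¹ * k * g ∈ A φ i := by
  rw [mem_stabilizer_iff, smul_vx, eq_comm, vx_eq, mul_assoc]

theorem stab_one (i : Bool) : stabilizer (PushoutI φ) (vx φ i 1) = A φ i := by
  ext k
  rw [mem_stab]
  simp

theorem edge_one (hφ : ∀ i, Function.Injective (φ i)) (i : Bool) :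
    stabilizer (PushoutI φ) (vx φ i 1) ⊓ stabilizer (PushoutI φ) (vx φ (!i) 1) =
      (base φ).range := by
  rw [stab_one, stab_one]
  exact inf_of_range_eq_base_range hφ (by simp)

end Pool.Agent.Work.MP_3d425c_gt.Ex.Bs
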