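import Pool.Agent.Work.MP_3d425c_gt.Ex.Helix
import Pool.Agent.Work.MP_3d425c_gt.Nv.Mod

/-! The doubled helix and the upper and lower links of its vertices are simply connected. -/

namespace Pool.Agent.Work.MP_3d425c_gt.Ex
open Pool.Agent.Work.MP_3d425c_gt.Md

variable (Γ : Type) [Group Γ]

theorem ex_prod (a : ℤ → Γ) : ∃ s : ℤ → Γ, ∀ n, s n = a n * s (n + 1) := by
  let p : ℕ → Γ := fun m => Nat.rec 1 (fun k x => (a k)⁻¹ * x) m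
  let q : ℕ → Γ := fun m => Nat.rec (a (Int.negSucc 0)) (fun k x => a (Int.negSucc (k + 1)) * x) m
  refine ⟨fun n => match n with
    | Int.ofNat m => p m
    | Int.negSucc m => q m, fun n => ?_⟩
  rcases n with m | _ | m
  · exact (mul_inv_cancel_left (a m) (p m)).symm
  · exact (mul_one _).symm
  · rfl

theorem ex_sc (z : Cl 3 → Γ) (hz : ∀ f, z (d2 f 1) = z (d2 f 2) * z (d2 f 0)) :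
    ∃ s : ℤ → Γ, ∀ e, z e = s (d1 e 1) * (s (d1 e 0))⁻¹ := by
  obtain ⟨s, hs⟩ := ex_prod Γ fun n => z ⟨n, 0⟩
  have b : ∀ n, z ⟨n, 0⟩ = s n * (s (n + 1))⁻¹ := fun n => by rw [hs n, mul_inv_cancel_right]
  have a1 : ∀ n, z ⟨n, 1⟩ = s n * (s (n + 2))⁻¹ := fun n => by
    rw [show z ⟨n, 1⟩ = z ⟨n, 0⟩ * z ⟨n + 1, 0⟩ from hz ⟨n, 0⟩, b, b,
      show n + 1 + 1 = n + 2 by ring]
    group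
  refine ⟨s, fun ⟨n, k⟩ => ?_⟩
  fin_cases k
  · exact b n
  · exact a1 n
  · show z ⟨n, 2⟩ = s n * (s (n + 3))⁻¹
    rw [show z ⟨n, 2⟩ = z ⟨n, 0⟩ * z ⟨n + 1, 1⟩ from hz ⟨n, 2⟩, b, a1,
      show n + 1 + 2 = n + 3 by ring]
    group

theorem ex_ul (c : Cl 4 → Γ) (hc : ∀ x, c (d3 x 2) = c (d3 x 1) * c (d3 x 3)) :
    ∃ s : Cl 3 → Γ, ∀ f, c f = s (d2 f 1) * (s (d2 f 2))⁻¹ := by
  refine ⟨fun e => ![1, c ⟨e.n, 0⟩, c ⟨e.n, 2⟩] e.i, fun ⟨n, k⟩ => ?_⟩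
  have h0 : c ⟨n, 2⟩ = c ⟨n, 3⟩ * c ⟨n, 0⟩ := hc ⟨n, 0⟩
  have h1 : c ⟨n, 2⟩ = c ⟨n, 3⟩ * c ⟨n, 1⟩ := hc ⟨n, 1⟩
  fin_cases k
  · show c ⟨n, 0⟩ = c ⟨n, 0⟩ * 1⁻¹
    simp
  · show c ⟨n, 1⟩ = c ⟨n, 0⟩ * 1⁻¹
    simpa using mul_left_cancel (h1.symm.trans h0)
  · show c ⟨n, 2⟩ = c ⟨n, 2⟩ * 1⁻¹
    simp
  · show c ⟨n, 3⟩ = c ⟨n, 2⟩ * (c ⟨n, 0⟩)⁻¹
    rw [h0, mul_inv_cancel_right]

theorem ex_ll (c : Cl 4 → Γ) (hc : ∀ x, c (d3 x 1) = c (d3 x 2) * c (d3 x 0)) :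
    ∃ s : Cl 3 → Γ, ∀ f, c f = s (d2 f 1) * (s (d2 f 0))⁻¹ := by
  refine ⟨fun e => ![1, c ⟨e.n, 0⟩, c ⟨e.n, 3⟩] e.i, fun ⟨n, k⟩ => ?_⟩
  have h0 : ∀ n, c ⟨n, 3⟩ = c ⟨n, 2⟩ * c ⟨n + 1, 0⟩ := fun n => hc ⟨n, 0⟩
  have h1 : ∀ n, c ⟨n, 3⟩ = c ⟨n, 2⟩ * c ⟨n + 1, 1⟩ := fun n => hc ⟨n, 1⟩
  fin_cases k
  · show c ⟨n, 0⟩ = c ⟨n, 0⟩ * 1⁻¹
    simp
  · show c ⟨n, 1⟩ = c ⟨n, 0⟩ * 1⁻¹
    simpa using mul_left_cancel ((h1 (n - 1)).symm.trans (h0 (n - 1)))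
  · show c ⟨n, 2⟩ = c ⟨n, 3⟩ * (c ⟨n + 1, 0⟩)⁻¹
    rw [h0, mul_inv_cancel_right]
  · show c ⟨n, 3⟩ = c ⟨n, 3⟩ * 1⁻¹
    simp

theorem ex_disc : Nv.Disc helix := ⟨ex_sc, ex_ul, ex_ll⟩

/-- All hypotheses hold together for the doubled helix. -/
theorem nonvac2 : ∃ (G X0 X1 X2 X3 : Type) (_ : Group G) (_ : MulAction G X0) (_ : MulAction G X1)
    (_ : MulAction G X2) (_ : MulAction G X3) (T : Tri G X0 X1 X2 X3),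
    (∀ a : G, a ≠ 1 → ¬ IsOfFinOrder a) ∧ IsCyclic G ∧ T.Cyc ∧ Nv.Disc T ∧ ∃ φ, T.Fol φ :=
  ⟨GZ, ℤ, Cl 3, Cl 4, Cl 2, _, _, _, _, _, helix, fun _ ha k => ha k.eq_one', inferInstance,
    helix_cyc, ex_disc, _, ex_fol⟩

end Pool.Agent.Work.MP_3d425c_gt.Ex
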