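import Pool.Agent.Work.MP_3d425c_gt.Ex.Bs
import Pool.Agent.Work.MP_3d425c_gt.Ex.Bi
import Pool.Agent.Work.MP_3d425c_gt.Js.Defs

/-! The decomposition hypothesis is satisfiable: two trefoil groups glued with the fibres crossed
(a graph manifold group), and a trefoil group glued to a Bianchi group. -/

namespace Pool.Agent.Work.MP_3d425c_gt.Ex.JsEx
open Monoid Monoid.PushoutI MulAction Subgroup Bs Js

theorem cusp_tr {G V G' V' : Type} [Group G] [MulAction G V] [Group G'] [MulAction G' V']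
    {H : Subgroup G} {N : Set V} {ρ c} (L : Lt.Cusp H N ρ c) {H' : Subgroup G'} {N' : Set V'}
    (e : H' ≃* H) (f : V' → V) (hf : Set.BijOn f N' N)
    (eq : ∀ (g : H'), ∀ w ∈ N', f (g.1 • w) = (e g).1 • f w) :
    Lt.Cusp H' N' (ρ.comp e.toMonoidHom) (c ∘ f) where
  disc R := (L.disc R).preimage (f := e) e.injective.injOn
  equi g y hy w hw := by
    simpa only [Function.comp, eq g w hw] using L.equi (e g) y hy (f w) (hf.mapsTo hw)
  far w hw w' hw' hne := L.far _ (hf.mapsTo hw) _ (hf.mapsTo hw') fun h => hne (hf.injOn hw hw' h)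
  coc ε hε := by
    obtain ⟨R, hR⟩ := L.coc ε hε
    refine ⟨R, fun x => (hR x).imp ?_ ?_⟩
    · rintro ⟨w, hw, h⟩
      obtain ⟨w, hw', rfl⟩ := hf.surjOn hw
      exact ⟨w, hw', h⟩
    · rintro ⟨g, y, hy, h⟩
      exact ⟨e.symm g, y, by simpa using hy, h⟩

section
variable {G V : Type} [Group G] [MulAction G V] {T : SimpleGraph V}
  (act : ∀ (g : G) u v, T.Adj u v → T.Adj (g • u) (g • v))

/-- conjugation of stabilisers -/
def cj (k : G) (v : V) : stabilizer G (k • v) ≃* stabilizer G v where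
  toFun g := ⟨k⁻¹ * g * k, by
    rw [mem_stabilizer_iff, mul_smul, mul_smul, mem_stabilizer_iff.1 g.2, inv_smul_smul]⟩
  invFun g := ⟨k * g * k⁻¹, by
    rw [mem_stabilizer_iff, mul_smul, mul_smul, inv_smul_smul, mem_stabilizer_iff.1 g.2]⟩
  left_inv g := Subtype.ext (by simp [mul_assoc])
  right_inv g := Subtype.ext (by simp [mul_assoc])
  map_mul' a b := Subtype.ext (by simp [mul_assoc])

theorem edge_smul (k : G) (u v : V) : stabilizer G (k • u) ⊓ stabilizer G (k • v) =
    (stabilizer G u ⊓ stabilizer G v).map (MulAut.conj k).toMonoidHom := by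
  rw [stabilizer_smul_eq_stabilizer_map_conj, stabilizer_smul_eq_stabilizer_map_conj,
    map_inf _ _ _ (MulAut.conj k).injective]

include act

theorem hyp_smul {v : V} (h : Hyp G T v) (k : G) : Hyp G T (k • v) := by
  obtain ⟨ρ, c, L⟩ := h
  refine ⟨_, _, cusp_tr L (cj k v) (fun w => k⁻¹ • w) ⟨fun w hw => ?_,
    (MulAction.injective k⁻¹).injOn, fun w hw => ⟨k • w, act k _ _ hw, by simp⟩⟩ ?_⟩
  · simpa using act k⁻¹ _ _ hw
  · intro g w _
    simp [cj, mul_smul]

theorem sei_smul {v : V} (h : Sei G T v) (k : G) : Sei G T (k • v) := by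
  obtain ⟨h, n, c, tw, α, β, w, ⟨e, e1, e2⟩, h0, h1, h2, h3, h4, h5, h6⟩ := h
  refine ⟨MulAut.conj k h, n, fun i => MulAut.conj k (c i), tw, α, β, fun i => k • w i,
    ⟨e.trans (cj k v).symm, ?_, fun i => ?_⟩, h0, h1, h2, h3, ?_, fun i a b d => ?_, fun u hu => ?_⟩
  · rw [← e1]; rfl
  · exact congrArg (MulAut.conj k) (e2 i)
  · have := congrArg (MulAut.conj k) h4
    rw [map_mul, map_list_prod, List.map_map, map_one, apply_ite (MulAut.conj k), map_one] at this
    exact this
  · refine ⟨act k _ _ (h5 i a b d).1, ?_⟩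
    rw [edge_smul, (h5 i a b d).2, MonoidHom.map_closure, Set.image_pair]
    rfl
  · have hu' : T.Adj v (k⁻¹ • u) := by simpa using act k⁻¹ _ _ hu
    refine (existsUnique_congr fun i => ?_).1 (h6 _ hu')
    refine and_congr_right' (and_congr_right' (and_congr_right' ⟨?_, ?_⟩))
    · rintro ⟨g, a, b⟩
      exact ⟨k * g * k⁻¹, by simp [mul_smul, a], by simp [mul_smul, b]⟩
    · rintro ⟨g, a, b⟩
      exact ⟨k⁻¹ * g * k, by simp [mul_smul, a], by simp [mul_smul, b]⟩

end

section
variable {G : Bool → Type} [∀ i, Group (G i)] {φ : ∀ i, Multiplicative (ℤ × ℤ) →* G i}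
  (hφ : ∀ i, Function.Injective (φ i))
include hφ

theorem fix_iff (i : Bool) (a : G i) :
    of (φ := φ) i a ∈ A φ (!i) ↔ a ∈ (φ i).range := by
  constructor
  · intro h
    have : of (φ := φ) i a ∈ (base φ).range :=
      inf_of_range_eq_base_range hφ (i := i) (j := !i) (by simp) ▸ ⟨⟨a, rfl⟩, h⟩
    obtain ⟨x, hx⟩ := this
    exact ⟨x, of_injective hφ i (by rw [of_apply_eq_base, hx])⟩
  · rintro ⟨x, rfl⟩
    rw [of_apply_eq_base]
    exact base_mem _ x

theorem jsj_of (ns : ∀ i, ∃ a, a ∉ (φ i).range)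
    (mn : ∀ x, (∀ i (g : G i), g * φ i x * g⁻¹ ∈ zpowers (φ i x)) → x = 1)
    (vt : ∀ i, Hyp (PushoutI φ) (Tr φ) (vx φ i 1) ∨ Sei (PushoutI φ) (Tr φ) (vx φ i 1)) :
    Jsj (PushoutI φ) (Tr φ) where
  tree := isTree hφ
  act g _ _ h := adj_smul g h
  ninv g u v h e _ := adj_fst h (by rw [← e, fst_smul])
  edge := by
    rintro u v ⟨i, k, rfl, rfl⟩
    have := edge_smul k (vx φ i 1) (vx φ (!i) 1)
    rw [edge_one hφ, smul_vx, smul_vx, mul_one] at this
    rw [this]
    exact ⟨((MonoidHom.ofInjective (base_injective hφ)).trans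
      (Subgroup.equivMapOfInjective _ _ (MulAut.conj k).injective)).symm⟩
  red := by
    rintro u v ⟨i, k, rfl, rfl⟩
    obtain ⟨a, ha⟩ := ns i
    refine ⟨k * of i a * k⁻¹, mem_stab.2 ⟨a, by group⟩, fun h => ha ((fix_iff hφ i a).1 ?_)⟩
    have := mem_stab.1 h
    simpa [mul_assoc] using this
  min := by
    rintro u v ⟨i, k, rfl, rfl⟩ a h1 h2 h
    have : k⁻¹ * a * k ∈ (base φ).range :=
      inf_of_range_eq_base_range hφ (i := i) (j := !i) (by simp) ▸ ⟨mem_stab.1 h1, mem_stab.1 h2⟩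
    obtain ⟨x, hx⟩ := this
    have ha : a = k * base φ x * k⁻¹ := by rw [hx]; group
    rw [ha, mn x fun j g => ?_]
    · simp
    have hj : (k * of j g * k⁻¹) • vx φ j k = vx φ j k := mem_stab.2 ⟨g, by group⟩
    obtain ⟨m, hm⟩ := h (k * of j g * k⁻¹) (by
      by_cases e : j = i
      · exact Or.inl (e ▸ hj)
      · have : j = !i := Bool.eq_not_iff.2 e
        exact Or.inr (this ▸ hj))
    refine ⟨m, of_injective hφ j ?_⟩
    simp only [ha, conj_zpow] at hm
    simp only [map_zpow, map_mul, map_inv, of_apply_eq_base]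
    calc _ = k⁻¹ * (k * base φ x ^ m * k⁻¹) * k := by group
      _ = _ := by rw [hm]; group
  vert v := by
    obtain ⟨i, k, rfl⟩ := vx_surj v
    have := (vt i).imp (hyp_smul (fun g _ _ h => adj_smul g h) · k)
      (sei_smul (fun g _ _ h => adj_smul g h) · k)
    rwa [smul_vx, mul_one] at this

/-- a factor is a vertex group -/
noncomputable def fac (i : Bool) : G i ≃* stabilizer (PushoutI φ) (vx φ i 1) :=
  (MonoidHom.ofInjective (of_injective hφ i)).trans (MulEquiv.subgroupCongr (stab_one i).symm)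

theorem fac_val (i : Bool) (a : G i) : (fac hφ i a).1 = of i a := rfl

theorem hyp_of (i : Bool) {ρ c}
    (L : Lt.Cusp (⊤ : Subgroup (G i)) (Set.univ : Set (G i ⧸ (φ i).range)) ρ c) :
    Hyp (PushoutI φ) (Tr φ) (vx φ i 1) := by
  classical
  let f : Vx φ → G i ⧸ (φ i).range := fun v =>
    if h : ∃ a : G i, v = vx φ (!i) (of i a) then (h.choose : G i) else (1 : G i)
  have key : ∀ a b : G i, vx φ (!i) (of i a) = vx φ (!i) (of i b) ↔
      (a : G i ⧸ (φ i).range) = b := fun a b => by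
    rw [vx_eq, QuotientGroup.eq, ← fix_iff hφ, map_mul, map_inv]
  have hf : ∀ a : G i, f (vx φ (!i) (of i a)) = a := fun a => by
    have h : ∃ b : G i, vx φ (!i) (of i a) = vx φ (!i) (of i b) := ⟨a, rfl⟩
    simp only [f, dif_pos h]
    exact ((key _ _).1 h.choose_spec).symm
  have nb : ∀ v, v ∈ (Tr φ).neighborSet (vx φ i 1) ↔ ∃ a : G i, v = vx φ (!i) (of i a) :=
    fun v => by simp [adj_iff]
  refine ⟨_, _, cusp_tr L ((fac hφ i).symm.trans topEquiv.symm) f
    ⟨fun _ _ => trivial, fun u hu v hv h => ?_, fun q _ => ?_⟩ fun g w hw => ?_⟩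
  · obtain ⟨a, rfl⟩ := (nb u).1 hu
    obtain ⟨b, rfl⟩ := (nb v).1 hv
    rw [hf, hf] at h
    exact (key a b).2 h
  · obtain ⟨a, rfl⟩ := QuotientGroup.mk_surjective q
    exact ⟨_, (nb _).2 ⟨a, rfl⟩, hf a⟩
  · obtain ⟨a, rfl⟩ := (nb w).1 hw
    obtain ⟨b, rfl⟩ := (fac hφ i).surjective g
    rw [fac_val, smul_vx, ← map_mul, hf, hf]
    simp

end

/-- multiplicities of the trefoil exterior -/
def al (i : ℕ) : ℕ := if i = 0 then 2 else if i = 1 then 3 else 0
def be (_ : ℕ) : ℤ := 1

/-- the trefoil group -/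
abbrev K : Type := PresentedGroup (Sp.rels 2 false al be)

def kh : K := PresentedGroup.of none
def ka : K := PresentedGroup.of (some 0)
def kb : K := PresentedGroup.of (some 1)
def kc : K := (ka * kb)⁻¹

theorem comm (i : Fin 2) : Commute kh (PresentedGroup.of (some i)) := by
  have := PresentedGroup.one_of_mem (rels := Sp.rels 2 false al be)
    (Set.mem_iUnion.2 ⟨i, .inl rfl⟩)
  simp only [Bool.false_eq_true, false_and, if_false, map_mul, map_inv] at this
  exact (mul_inv_eq_iff_eq_mul.1 (mul_inv_eq_one.1 this)).symm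

theorem comm_c : Commute kh kc := ((comm 0).mul_right (comm 1)).inv_right

/-- the boundary torus -/
def bd : Multiplicative (ℤ × ℤ) →* K where
  toFun x := kh ^ x.toAdd.1 * kc ^ x.toAdd.2
  map_one' := by simp
  map_mul' x y := by
    simp only [toAdd_mul, Prod.fst_add, Prod.snd_add, zpow_add]
    exact ((comm_c.zpow_zpow _ _)).mul_mul_mul_comm _ _

theorem bd_apply (x) : bd x = kh ^ x.toAdd.1 * kc ^ x.toAdd.2 := rfl

theorem lift_ok {M : Type} [Group M] (h a b : M) (ha : a * h * a⁻¹ = h) (hb : b * h * b⁻¹ = h)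
    (h2 : a ^ 2 = h) (h3 : b ^ 3 = h) : ∃ f : K →* M, f kh = h ∧ f ka = a ∧ f kb = b := by
  refine ⟨PresentedGroup.toGroup (f := fun o => o.elim h ![a, b]) ?_,
    PresentedGroup.toGroup.of _, PresentedGroup.toGroup.of _, PresentedGroup.toGroup.of _⟩
  intro r hr
  obtain ⟨i, hi⟩ := Set.mem_iUnion.1 hr
  rcases hi with rfl | rfl <;> fin_cases i <;> simp [al, be, ha, hb, h2, h3]

open ModularGroup in
theorem rep : ∃ f : K →* Matrix.SpecialLinearGroup (Fin 2) ℤ, (f ka).1 = !![0, 1; -1, 0] ∧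
    ∀ x, ∃ e : ℤ, e ≠ 0 ∧ (f (bd x)).1 = !![e, -(e * x.toAdd.2); 0, e] := by
  obtain ⟨f, h1, h2, h3⟩ := lift_ok (-1) (-S) (S * T) (by simp) (by simp) (by decide) (by decide)
  refine ⟨f, by rw [h2]; decide, fun x => ?_⟩
  have hc : f kc = T⁻¹ := by
    rw [kc, map_inv, map_mul, h2, h3]
    decide
  have : f (bd x) = (-1) ^ x.toAdd.1 * T ^ (-x.toAdd.2) := by
    rw [bd_apply, map_mul, map_zpow, map_zpow, h1, hc, inv_zpow']
  rw [this]
  rcases Int.even_or_odd x.toAdd.1 with h | h
  · exact ⟨1, one_ne_zero, by rw [h.neg_one_zpow, one_mul, coe_T_zpow, one_mul]⟩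
  · refine ⟨-1, by decide, ?_⟩
    rw [h.neg_one_zpow, neg_one_mul, Matrix.SpecialLinearGroup.coe_neg, coe_T_zpow]
    simp

theorem bd_inj : Function.Injective bd := (injective_iff_map_eq_one bd).2 fun x hx => by
  obtain ⟨f, -, hf⟩ := rep
  obtain ⟨e, he, h⟩ := hf x
  rw [hx, map_one] at h
  have h2 : x.toAdd.2 = 0 := by simpa [he] using congrFun₂ h 0 1
  obtain ⟨χ, h1, -⟩ := lift_ok (Multiplicative.ofAdd (6 : ℤ)) (Multiplicative.ofAdd 3)
    (Multiplicative.ofAdd 2) (by decide) (by decide) (by decide) (by decide)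
  have h3 := congrArg χ hx
  rw [bd_apply, h2, zpow_zero, mul_one, map_zpow, h1, map_one] at h3
  have h4 : x.toAdd.1 = 0 := by simpa using congrArg Multiplicative.toAdd h3
  exact Multiplicative.toAdd.injective (Prod.ext h4 h2)

theorem ka_not : ka ∉ bd.range := by
  rintro ⟨x, hx⟩
  obtain ⟨f, h1, hf⟩ := rep
  obtain ⟨e, he, h⟩ := hf x
  rw [hx, h1] at h
  simpa using congrFun₂ h 1 0

theorem norm_fib (x : Multiplicative (ℤ × ℤ)) (h : ∀ g : K, g * bd x * g⁻¹ ∈ zpowers (bd x)) :
    x.toAdd.2 = 0 := by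
  obtain ⟨y, hy⟩ := (zpowers_le.2 ⟨x, rfl⟩ : zpowers (bd x) ≤ bd.range) (h ka)
  obtain ⟨f, h1, hf⟩ := rep
  obtain ⟨e, he, h2⟩ := hf x
  obtain ⟨d, hd, h3⟩ := hf y
  have := congrArg (fun g => (f g).1) (eq_mul_inv_iff_mul_eq.1 hy)
  simp only [map_mul, Matrix.SpecialLinearGroup.coe_mul, h1, h2, h3] at this
  have h4 := congrFun₂ this 1 1
  simpa [Matrix.mul_apply, he] using h4

theorem bd_range : bd.range = closure {kh, kc} := by
  refine le_antisymm ?_ ((closure_le _).2 ?_)
  · rintro _ ⟨x, rfl⟩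
    exact mul_mem (zpow_mem (subset_closure (by simp)) _) (zpow_mem (subset_closure (by simp)) _)
  · rintro _ (rfl | rfl)
    · exact ⟨Multiplicative.ofAdd (1, 0), by simp [bd]⟩
    · exact ⟨Multiplicative.ofAdd (0, 1), by simp [bd]⟩

theorem sei_of {G : Bool → Type} [∀ i, Group (G i)] {φ : ∀ i, Multiplicative (ℤ × ℤ) →* G i}
    (hφ : ∀ i, Function.Injective (φ i)) (i : Bool) (e : K ≃* G i)
    (he : (φ i).range = bd.range.map e.toMonoidHom) :
    Sei (PushoutI φ) (Tr φ) (vx φ i 1) := by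
  refine ⟨of i (e kh), 2, fun n => of i (e (if n = 0 then ka else if n = 1 then kb else kc)),
    false, al, be, fun _ => vx φ (!i) 1,
    ?_, by decide, by decide, by simp, ?_, ?_, ?_, ?_⟩
  · refine ⟨e.trans (fac hφ i), rfl, fun j => ?_⟩
    fin_cases j <;> rfl
  · intro n
    unfold al
    split_ifs <;> simp
  · simp [List.range_succ, kc, ← map_mul]
  · intro n h1 h2 _
    have : n = 2 := by
      unfold al at h2
      split_ifs at h2
      omega
    subst this
    refine ⟨adj_vx i 1, ?_⟩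
    rw [edge_one hφ, ← of_comp_eq_base i, MonoidHom.range_comp, he, bd_range,
      MonoidHom.map_closure, MonoidHom.map_closure, Set.image_pair, Set.image_pair]
    rfl
  · intro u hu
    obtain ⟨a, rfl⟩ := adj_iff.1 hu
    refine ⟨2, ⟨le_rfl, rfl, by simp, of i a, mem_stab.2 ⟨a, by simp⟩, by simp [smul_vx]⟩, ?_⟩
    rintro n ⟨h1, h2, -⟩
    unfold al at h2
    split_ifs at h2
    omega

/-- exchange of the two coordinates -/
def sw : Multiplicative (ℤ × ℤ) ≃* Multiplicative (ℤ × ℤ) :=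
  AddEquiv.toMultiplicative AddEquiv.prodComm

/-- fibre to boundary curve and boundary curve to fibre -/
def φ₁ (i : Bool) : Multiplicative (ℤ × ℤ) →* K := if i then bd else bd.comp sw.toMonoidHom

theorem inj₁ (i : Bool) : Function.Injective (φ₁ i) := by
  cases i
  · exact bd_inj.comp sw.injective
  · exact bd_inj

theorem range₁ (i : Bool) : (φ₁ i).range = bd.range := by
  cases i
  · change (bd.comp sw.toMonoidHom).range = _
    rw [MonoidHom.range_comp, MonoidHom.range_eq_top_of_surjective sw.toMonoidHom sw.surjective,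
      ← MonoidHom.range_eq_map]
  · rfl

/-- **Two Seifert pieces.** -/
theorem graph : Jsj (PushoutI (G := fun _ => K) φ₁) (Tr (G := fun _ => K) φ₁) :=
  jsj_of inj₁ (fun i => ⟨ka, range₁ i ▸ ka_not⟩)
    (fun x h => Multiplicative.toAdd.injective
      (Prod.ext (norm_fib (sw x) (h false)) (norm_fib x (h true))))
    fun i => Or.inr (sei_of inj₁ i (MulEquiv.refl _) (by rw [range₁]; simp))

theorem pw (i : Fin 2) : (PresentedGroup.of (some i) : K) ^ al i = kh := by
  have := PresentedGroup.one_of_mem (rels := Sp.rels 2 false al be)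
    (Set.mem_iUnion.2 ⟨i, .inr rfl⟩)
  simp only [be, zpow_one, map_mul, map_inv, map_pow] at this
  exact mul_inv_eq_one.1 this

/-- This group has no real character. -/
theorem graph_qhs (χ : PushoutI (G := fun _ => K) φ₁ →* Multiplicative ℝ) : χ = 1 := by
  let t : Bool → K → ℝ := fun i g => (χ (of (G := fun _ => K) i g)).toAdd
  have a (i) : 2 * t i ka = t i kh := by simp [t, ← pw 0, al, ka]
  have b (i) : 3 * t i kb = t i kh := by simp [t, ← pw 1, al, kb]
  have c (i) : t i kc = -(t i ka + t i kb) := by simp [t, kc, add_comm]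
  have e (x) : t true (bd x) = t false (bd (sw x)) :=
    congrArg (fun g => (χ g).toAdd) ((of_apply_eq_base (G := fun _ => K) φ₁ true x).trans
      (of_apply_eq_base (G := fun _ => K) φ₁ false x).symm)
  have e1 : t true kh = t false kc := by
    simpa [bd_apply, sw] using e (Multiplicative.ofAdd (1, 0))
  have e2 : t true kc = t false kh := by
    simpa [bd_apply, sw] using e (Multiplicative.ofAdd (0, 1))
  have z (i) : t i kh = 0 := by
    cases i <;> linarith [a true, a false, b true, b false, c true, c false]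
  refine hom_ext_nonempty fun i => PresentedGroup.ext fun o => Multiplicative.toAdd.injective ?_
  rcases o with _ | j
  · exact z i
  · fin_cases j
    · exact (by linarith [a i, z i] : t i ka = 0)
    · exact (by linarith [b i, z i] : t i kb = 0)

/-- the two factors -/
def F : Bool → Type
  | true => Bi.A
  | false => K

noncomputable instance : ∀ i, Group (F i)
  | true => inferInstanceAs (Group Bi.A)
  | false => inferInstanceAs (Group K)

/-- the cusp group and the boundary torus -/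
noncomputable def φ₂ : ∀ i, Multiplicative (ℤ × ℤ) →* F i
  | true => Bi.ψ
  | false => bd

theorem inj₂ : ∀ i, Function.Injective (φ₂ i)
  | true => Bi.ψ_inj
  | false => bd_inj

theorem hyp₂ : Hyp (PushoutI φ₂) (Tr φ₂) (vx φ₂ true 1) := hyp_of inj₂ true Bi.cusp

theorem sei₂ : Sei (PushoutI φ₂) (Tr φ₂) (vx φ₂ false 1) :=
  sei_of inj₂ false (MulEquiv.refl K) (Subgroup.map_id _).symm

/-- **A hyperbolic and a Seifert piece.** -/
theorem mixed : Jsj (PushoutI φ₂) (Tr φ₂) :=
  jsj_of inj₂ (fun | true => ⟨_, Bi.S_not⟩ | false => ⟨_, ka_not⟩)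
    (fun x h => Bi.not_norm x (h true))
    fun | true => Or.inl hyp₂ | false => Or.inr sei₂

end Pool.Agent.Work.MP_3d425c_gt.Ex.JsEx
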