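import Pool.Agent.Work.MP_3d425c_gt.Ex.JsEx

/-! The twisted clause is satisfiable: the Klein bottle group, fibred over the Möbius band, glued
to a Bianchi group. -/

namespace Pool.Agent.Work.MP_3d425c_gt.Ex.JsTw
open Monoid Monoid.PushoutI MulAction Subgroup Bs Js JsEx

/-- the Klein bottle group -/
abbrev N : Type := PresentedGroup (Sp.rels 1 true (fun _ => 0) fun _ => 0)

def nh : N := PresentedGroup.of none
def na : N := PresentedGroup.of (some 0)
def nc : N := (na * na)⁻¹

theorem rel : na * nh * na⁻¹ = nh⁻¹ := by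
  have := PresentedGroup.one_of_mem (rels := Sp.rels 1 true (fun _ => 0) fun _ => 0)
    (Set.mem_iUnion.2 ⟨0, .inl rfl⟩)
  simp only [Fin.val_zero, and_self, if_true, map_mul, map_inv] at this
  exact eq_inv_of_mul_eq_one_left this

theorem comm_c : Commute nh nc := by
  refine Commute.inv_right ?_
  have : na * (na * nh * na⁻¹) * na⁻¹ = nh := by
    rw [rel, ← conj_inv, rel, inv_inv]
  calc nh * (na * na) = na * (na * nh * na⁻¹) * na⁻¹ * (na * na) := by rw [this]
    _ = na * na * nh := by group

/-- the boundary torus -/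
def bd : Multiplicative (ℤ × ℤ) →* N where
  toFun x := nh ^ x.toAdd.1 * nc ^ x.toAdd.2
  map_one' := by simp
  map_mul' x y := by
    simp only [toAdd_mul, Prod.fst_add, Prod.snd_add, zpow_add]
    exact ((comm_c.zpow_zpow _ _)).mul_mul_mul_comm _ _

theorem bd_apply (x) : bd x = nh ^ x.toAdd.1 * nc ^ x.toAdd.2 := rfl

theorem lift_ok {M : Type} [Group M] (h a : M) (ha : a * h * a⁻¹ * h = 1) :
    ∃ f : N →* M, f nh = h ∧ f na = a := by
  refine ⟨PresentedGroup.toGroup (f := fun o => o.elim h fun _ => a) ?_,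
    PresentedGroup.toGroup.of _, PresentedGroup.toGroup.of _⟩
  intro r hr
  obtain ⟨i, hi⟩ := Set.mem_iUnion.1 hr
  rcases hi with rfl | rfl <;> fin_cases i <;> simp [ha]

theorem chi : ∃ χ : N →* Multiplicative ℤ, (χ na).toAdd = 1 ∧
    ∀ x, (χ (bd x)).toAdd = -2 * x.toAdd.2 := by
  obtain ⟨χ, h1, h2⟩ := lift_ok (1 : Multiplicative ℤ) (Multiplicative.ofAdd 1) (by simp)
  refine ⟨χ, by rw [h2]; rfl, fun x => ?_⟩
  simp [bd_apply, nc, h1, h2, mul_comm]

theorem bd_inj : Function.Injective bd := (injective_iff_map_eq_one bd).2 fun x hx => by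
  obtain ⟨χ, -, h⟩ := chi
  have h2 : x.toAdd.2 = 0 := by simpa [hx] using h x
  obtain ⟨f, h1, -⟩ := lift_ok (DihedralGroup.r 1 : DihedralGroup 0) (DihedralGroup.sr 0)
    (by simp)
  have h3 := congrArg f hx
  rw [bd_apply, h2, zpow_zero, mul_one, map_zpow, h1, map_one, DihedralGroup.r_one_zpow,
    DihedralGroup.one_def] at h3
  exact Multiplicative.toAdd.injective (Prod.ext (DihedralGroup.r.inj h3) h2)

theorem na_not : na ∉ bd.range := by
  rintro ⟨x, hx⟩
  obtain ⟨χ, h1, h⟩ := chi
  have := h x
  rw [hx, h1] at this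
  omega

theorem bd_range : bd.range = closure {nh, nc} := by
  refine le_antisymm ?_ ((closure_le _).2 ?_)
  · rintro _ ⟨x, rfl⟩
    exact mul_mem (zpow_mem (subset_closure (by simp)) _) (zpow_mem (subset_closure (by simp)) _)
  · rintro _ (rfl | rfl)
    · exact ⟨Multiplicative.ofAdd (1, 0), by simp [bd]⟩
    · exact ⟨Multiplicative.ofAdd (0, 1), by simp [bd]⟩

/-- the two factors -/
def F : Bool → Type
  | true => Bi.A
  | false => N

noncomputable instance : ∀ i, Group (F i)
  | true => inferInstanceAs (Group Bi.A)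
  | false => inferInstanceAs (Group N)

/-- the cusp group and the boundary torus -/
noncomputable def φ : ∀ i, Multiplicative (ℤ × ℤ) →* F i
  | true => Bi.ψ
  | false => bd

theorem inj : ∀ i, Function.Injective (φ i)
  | true => Bi.ψ_inj
  | false => bd_inj

theorem sei : Sei (PushoutI φ) (Tr φ) (vx φ false 1) := by
  refine ⟨of (φ := φ) false nh, 1, fun n => of (φ := φ) false (if n = 0 then na else nc),
    true, fun _ => 0, fun _ => 0, fun _ => vx φ true 1,
    ⟨fac inj false, rfl, fun j => ?_⟩, by decide, rfl, fun _ => rfl, by simp, ?_, ?_, ?_⟩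
  · fin_cases j
    rfl
  · have : na * (na * nc) = 1 := by simp [nc]
    have e := (map_mul (of (φ := φ) false) na (na * nc)).symm.trans
      ((congrArg _ this).trans (map_one _))
    have e2 := map_mul (of (φ := φ) false) na nc
    have e3 := (congrArg _ e2.symm).trans e
    simp [List.range_succ]
    exact e3
  · intro n h1 _ h2
    have : n = 1 := by simp at h2; omega
    subst this
    refine ⟨adj_vx false 1, (edge_one inj false).trans ?_⟩
    rw [← of_comp_eq_base false, MonoidHom.range_comp]
    refine (congrArg _ bd_range).trans ((MonoidHom.map_closure _ _).trans ?_)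
    exact congrArg _ (Set.image_pair _ _ _)
  · intro u hu
    obtain ⟨a, rfl⟩ := adj_iff.1 hu
    refine ⟨1, ⟨le_rfl, rfl, by simp, of false a, mem_stab.2 ⟨a, by simp⟩, by simp [smul_vx]⟩, ?_⟩
    rintro n ⟨h1, -, h2, -⟩
    simp at h2
    omega

/-- **A hyperbolic piece and a twisted interval bundle over the Klein bottle.** -/
theorem twisted : Jsj (PushoutI φ) (Tr φ) :=
  jsj_of inj (fun | true => ⟨_, Bi.S_not⟩ | false => ⟨_, na_not⟩)
    (fun x h => Bi.not_norm x (h true))
    fun | true => Or.inl (hyp_of inj true Bi.cusp) | false => Or.inr sei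

end Pool.Agent.Work.MP_3d425c_gt.Ex.JsTw
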