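import Pool.Agent.Work.MP_3d425c_gt.Ex.Real
import Pool.Agent.Work.MP_3d425c_gt.Ex.Disc

/-! The periodic simplicial triangulation of sphere times line on the integers. -/

namespace Pool.Agent.Work.MP_3d425c_gt.Ex
open Set Function Topology Relation Pool.Agent.Work.MP_3d425c_gt.Tp

/-- the three types of tetrahedra -/
def off : Fin 3 → Fin 4 → ℤ := ![![0, 2, 3, 4], ![0, 1, 3, 4], ![0, 1, 2, 4]]

/-- a tetrahedron -/
def tet (n : ℤ) (i : Fin 3) : Fin 4 → ℤ := fun a => n + off i a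

/-- all tetrahedra -/
def KK : Set (Fin 4 → ℤ) := {x | ∃ n i, x = tet n i}

theorem tet_mem (n : ℤ) (i : Fin 3) : tet n i ∈ KK := ⟨n, i, rfl⟩

theorem off_lt : ∀ i a b, off i a < off i b ↔ a < b := by decide

theorem off_bd : ∀ i a, ∃ d : Fin 5, off i a = (d : ℕ) := by decide

theorem off_0 : ∀ i, off i 0 = 0 := by decide

theorem off_inj : ∀ i j, (∀ a, off i a = off j a) → i = j := by decide

theorem tet_inj {m n : ℤ} {i j : Fin 3} (e : tet m i = tet n j) : m = n ∧ i = j := by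
  have e0 : m = n := by simpa [tet, off_0] using congrFun e 0
  subst e0
  exact ⟨rfl, off_inj _ _ fun a => add_left_cancel (congrFun e a)⟩

/-- coordinates of a tetrahedron near a vertex -/
def cc (s : Fin 5 × Fin 3) (a : Fin 4) : ℤ := off s.2 a - (s.1 : ℕ)

/-- common triangles near a vertex -/
def Ad (P : (Fin 3 → ℤ) → Prop) (s t : Fin 5 × Fin 3) : Prop :=
  ∃ k l : Fin 4, (∀ a : Fin 3, cc s (k.succAbove a) = cc t (l.succAbove a)) ∧
    P fun a => cc s (k.succAbove a)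

instance (P : (Fin 3 → ℤ) → Prop) [DecidablePred P] : DecidableRel (Ad P) := fun _ _ => by
  unfold Ad
  infer_instance

theorem tet_cc (u : ℤ) (s : Fin 5 × Fin 3) (a : Fin 4) :
    tet (u - (s.1 : ℕ)) s.2 a = u + cc s a := by
  simp only [tet, cc]
  ring

theorem ad_adj {P Q : (Fin 3 → ℤ) → Prop} {u : ℤ} (h : ∀ f, P f → Q fun a => u + f a) {s t}
    (a : Ad P s t) : Adj KK Q (tet (u - (s.1 : ℕ)) s.2) (tet (u - (t.1 : ℕ)) t.2) := by
  obtain ⟨k, l, e, p⟩ := a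
  have e1 : ∀ (s : Fin 5 × Fin 3) (k : Fin 4), Fin.removeNth k (tet (u - (s.1 : ℕ)) s.2) =
      fun a => u + cc s (k.succAbove a) := fun s k => funext fun a => tet_cc u s _
  refine ⟨tet_mem _ _, k, l, ?_, ?_⟩
  · rw [e1, e1]
    exact funext fun a => by rw [e]
  · rw [e1]
    exact h _ p

theorem near {x : Fin 4 → ℤ} (hx : x ∈ KK) {u : ℤ} (hu : u ∈ range x) :
    ∃ s : Fin 5 × Fin 3, x = tet (u - (s.1 : ℕ)) s.2 := by
  obtain ⟨n, i, rfl⟩ := hx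
  obtain ⟨a, rfl⟩ := hu
  obtain ⟨d, e⟩ := off_bd i a
  exact ⟨(d, i), by simp [tet, e]⟩

theorem three {P Q : (Fin 3 → ℤ) → Prop} {u : ℤ} (h : ∀ f, P f → Q fun a => u + f a) {s s'}
    (a : ∃ t, Ad P s t ∧ ∃ t', Ad P t t' ∧ Ad P t' s') :
    ReflTransGen (Adj KK Q) (tet (u - (s.1 : ℕ)) s.2) (tet (u - (s'.1 : ℕ)) s'.2) :=
  let ⟨_, a, _, b, c⟩ := a
  ((ReflTransGen.single (ad_adj h a)).tail (ad_adj h b)).tail (ad_adj h c)

theorem link_fin : ∀ (s s' : Fin 5 × Fin 3) (a : Fin 4), cc s a ≠ 0 → (∃ b, cc s b = 0) →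
    (∃ b, cc s' b = 0) → (∃ b, cc s' b = cc s a) →
    ∃ t, Ad (fun f => (∃ b, f b = 0) ∧ ∃ b, f b = cc s a) s t ∧
      ∃ t', Ad (fun f => (∃ b, f b = 0) ∧ ∃ b, f b = cc s a) t t' ∧
        Ad (fun f => (∃ b, f b = 0) ∧ ∃ b, f b = cc s a) t' s' := by
  decide +kernel

theorem equ_fin : ∀ (s s' : Fin 5 × Fin 3), (cc s 1 = 0 ∨ cc s 2 = 0) →
    (cc s' 1 = 0 ∨ cc s' 2 = 0) → ∃ t, Ad (fun f => f 1 = 0) s t ∧
      ∃ t', Ad (fun f => f 1 = 0) t t' ∧ Ad (fun f => f 1 = 0) t' s' := by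
  decide +kernel

theorem two_fin : ∀ (i : Fin 3) (k : Fin 4), ∃ (j : Fin 3) (l : Fin 4), (j, l) ≠ (i, k) ∧
    (∀ a : Fin 3, off i (k.succAbove 0) - off j (l.succAbove 0) + off j (l.succAbove a) =
      off i (k.succAbove a)) ∧ ∀ (j' : Fin 3) (l' : Fin 4),
    (∀ a : Fin 3, off i (k.succAbove 0) - off j' (l'.succAbove 0) + off j' (l'.succAbove a) =
      off i (k.succAbove a)) → (j', l') = (i, k) ∨ (j', l') = (j, l) := by
  decide +kernel

theorem up_fin : ∀ (j : Fin 3) (i : Fin 4), ∃ j' : Fin 3, ∀ a, i < a → ∃ a', 0 < a' ∧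
    off j' a' = off j a - off j i := by decide +kernel

theorem low_fin : ∀ (j : Fin 3) (i : Fin 4), ∃ j' : Fin 3, ∀ a, a < i → ∃ a', a' < 3 ∧
    off j' a' - 4 = off j a - off j i := by decide +kernel

theorem smul_tet (g : GZ) (n : ℤ) (i : Fin 3) : g • tet n i = tet (g.toAdd + n) i :=
  funext fun _ => (add_assoc _ _ _).symm

theorem tet_lt {x : Fin 4 → ℤ} (hx : x ∈ KK) (a b : Fin 4) : x a < x b ↔ a < b := by
  obtain ⟨n, i, rfl⟩ := hx
  exact (add_lt_add_iff_left n).trans (off_lt i a b)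

theorem k_two : ∀ x ∈ KK, ∀ k, ∃! p : (Fin 4 → ℤ) × Fin 4,
    p.1 ∈ KK ∧ p ≠ (x, k) ∧ Fin.removeNth p.2 p.1 = Fin.removeNth k x := by
  rintro _ ⟨n, i, rfl⟩ k
  obtain ⟨j, l, ne, e, un⟩ := two_fin i k
  refine ⟨(tet (n + (off i (k.succAbove 0) - off j (l.succAbove 0))) j, l),
    ⟨tet_mem _ _, fun a => ne ?_, funext fun a => ?_⟩, ?_⟩
  · rw [(tet_inj (congrArg Prod.fst a)).2, show l = k from congrArg Prod.snd a]
  · show _ + off j (l.succAbove a) = n + off i (k.succAbove a)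
    rw [← e a, add_assoc]
  · rintro ⟨_, l'⟩ ⟨⟨m, j', rfl⟩, ne', e'⟩
    have e1 : ∀ a, m + off j' (l'.succAbove a) = n + off i (k.succAbove a) := congrFun e'
    have e0 := e1 0
    rcases un j' l' (fun a => by linarith [e1 a]) with c | c <;>
      obtain ⟨rfl, rfl⟩ := Prod.ext_iff.1 c
    · exact absurd (by rw [show m = n by linarith]) ne'
    · rw [show m = n + (off i (k.succAbove 0) - off j' (l'.succAbove 0)) by linarith]

theorem k_link : ∀ x ∈ KK, ∀ y ∈ KK, ∀ u v, u ≠ v → u ∈ range x → v ∈ range x → u ∈ range y →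
    v ∈ range y → ReflTransGen (Adj KK fun f => u ∈ range f ∧ v ∈ range f) x y := by
  intro x hx y hy u v ne a b c d
  obtain ⟨s, rfl⟩ := near hx a
  obtain ⟨s', rfl⟩ := near hy c
  obtain ⟨a, ha⟩ := a
  obtain ⟨b, hb⟩ := b
  obtain ⟨c, hc⟩ := c
  obtain ⟨d, hd⟩ := d
  rw [tet_cc] at ha hb hc hd
  refine three ?_ (link_fin s s' b (fun e => ne (by linarith)) ⟨a, by linarith⟩ ⟨c, by linarith⟩
    ⟨d, by linarith⟩)
  rintro f ⟨⟨p, hp⟩, q, hq⟩
  exact ⟨⟨p, by simp [hp]⟩, q, by simp [hq, hb]⟩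

theorem k_equ : ∀ x ∈ KK, ∀ y ∈ KK, ∀ v, (v = x 1 ∨ v = x 2) → (v = y 1 ∨ v = y 2) →
    ReflTransGen (Adj KK fun f => f 1 = v) x y := by
  intro x hx y hy v a b
  obtain ⟨s, rfl⟩ := near hx (u := v) (a.elim (fun e => ⟨1, e.symm⟩) fun e => ⟨2, e.symm⟩)
  obtain ⟨s', rfl⟩ := near hy (u := v) (b.elim (fun e => ⟨1, e.symm⟩) fun e => ⟨2, e.symm⟩)
  rw [tet_cc, tet_cc] at a b
  exact three (fun f e => by simp [e]) (equ_fin s s' (by omega) (by omega))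

theorem k_conn : ∀ x ∈ KK, ∀ y ∈ KK, ReflTransGen (Adj KK fun _ => True) x y := by
  have l : ∀ m i n j u, u ∈ range (tet m i) → u + 1 ∈ range (tet m i) → u ∈ range (tet n j) →
      u + 1 ∈ range (tet n j) → ReflTransGen (Adj KK fun _ => True) (tet m i) (tet n j) :=
    fun m i n j u a b c d => ReflTransGen.mono (fun _ _ ⟨p, k, l, e, _⟩ => ⟨p, k, l, e, trivial⟩)
      _ _ (k_link _ (tet_mem m i) _ (tet_mem n j) u (u + 1) (by omega) a b c d)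
  have r : ∀ (n : ℤ) i a (u : ℤ), u = n + off i a → u ∈ range (tet n i) :=
    fun n i a u e => ⟨a, e.symm⟩
  have s : ∀ n, ReflTransGen (Adj KK fun _ => True) (tet n 2) (tet (n + 1) 2) ∧
      ReflTransGen (Adj KK fun _ => True) (tet (n + 1) 2) (tet n 2) := fun n =>
    have a := r n 2 1 (n + 1) rfl
    have b := r n 2 2 (n + 1 + 1) (add_assoc _ _ _)
    have c := r (n + 1) 2 0 (n + 1) (add_zero _).symm
    have d := r (n + 1) 2 1 (n + 1 + 1) rfl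
    ⟨l _ _ _ _ _ a b c d, l _ _ _ _ _ c d a b⟩
  have z : ∀ n, ReflTransGen (Adj KK fun _ => True) (tet n 2) (tet 0 2) ∧
      ReflTransGen (Adj KK fun _ => True) (tet 0 2) (tet n 2) := fun n => by
    induction n using Int.induction_on with
    | zero => exact ⟨.refl, .refl⟩
    | succ m ih => exact ⟨(s m).2.trans ih.1, ih.2.trans (s m).1⟩
    | pred m ih =>
      have := s (-m - 1)
      rw [sub_add_cancel] at this
      exact ⟨this.1.trans ih.1, ih.2.trans this.2⟩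
  have o : ∀ i, ∃ a b, off i a + 1 = off i b := by decide
  have t : ∀ n i, ∃ m, ReflTransGen (Adj KK fun _ => True) (tet n i) (tet m 2) ∧
      ReflTransGen (Adj KK fun _ => True) (tet m 2) (tet n i) := fun n i => by
    obtain ⟨a, b, e⟩ := o i
    have a1 := r n i a _ rfl
    have b1 := r n i b (n + off i a + 1) (by rw [← e, add_assoc])
    have c := r (n + off i a) 2 0 _ (add_zero _).symm
    have d := r (n + off i a) 2 1 (n + off i a + 1) rfl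
    exact ⟨_, l _ _ _ _ _ a1 b1 c d, l _ _ _ _ _ c d a1 b1⟩
  rintro _ ⟨m, i, rfl⟩ _ ⟨n, j, rfl⟩
  obtain ⟨p, hp, -⟩ := t m i
  obtain ⟨q, -, hq⟩ := t n j
  exact (hp.trans (z p).1).trans ((z q).2.trans hq)

theorem k_upper (v : ℤ) :
    IsSimplyConnected (⋃ x ∈ KK, ⋃ i ∈ {i | x i = v}, spx (x '' Ioi i)) := by
  have sub : ∀ j, spx (tet v j '' Ioi 0) ⊆ ⋃ x ∈ KK, ⋃ i ∈ {i | x i = v}, spx (x '' Ioi i) :=
    fun j β hβ => mem_iUnion₂.2 ⟨_, tet_mem v j, mem_iUnion₂.2 ⟨0, by simp [tet, off_0], hβ⟩⟩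
  have o : ∀ j, off j 3 = 4 := by decide
  have top : ∀ j, v + 4 ∈ tet v j '' Ioi 0 := fun j => ⟨3, by decide, by simp [tet, o]⟩
  refine sc_cone (v + 4) (sub 0 (dl_mem (top 0))) fun β hβ => ?_
  obtain ⟨_, ⟨n, j, rfl⟩, hβ⟩ := mem_iUnion₂.1 hβ
  obtain ⟨i, hi, hβ⟩ := mem_iUnion₂.1 hβ
  obtain ⟨j', e⟩ := up_fin j i
  refine ⟨_, spx_mono ?_ hβ, top j', sub j'⟩
  rintro _ ⟨a, ha, rfl⟩
  obtain ⟨a', p, q⟩ := e a ha
  have hi' : n + off j i = v := hi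
  exact ⟨a', p, by simp only [tet]; linarith⟩

theorem k_lower (v : ℤ) :
    IsSimplyConnected (⋃ x ∈ KK, ⋃ i ∈ {i | x i = v}, spx (x '' Iio i)) := by
  have o : ∀ j, off j 3 = 4 := by decide
  have sub : ∀ j, spx (tet (v - 4) j '' Iio 3) ⊆
      ⋃ x ∈ KK, ⋃ i ∈ {i | x i = v}, spx (x '' Iio i) :=
    fun j β hβ => mem_iUnion₂.2 ⟨_, tet_mem (v - 4) j, mem_iUnion₂.2 ⟨3, by simp [tet, o], hβ⟩⟩
  have bot : ∀ j, v - 4 ∈ tet (v - 4) j '' Iio 3 := fun j => ⟨0, by decide, by simp [tet, off_0]⟩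
  refine sc_cone (v - 4) (sub 0 (dl_mem (bot 0))) fun β hβ => ?_
  obtain ⟨_, ⟨n, j, rfl⟩, hβ⟩ := mem_iUnion₂.1 hβ
  obtain ⟨i, hi, hβ⟩ := mem_iUnion₂.1 hβ
  obtain ⟨j', e⟩ := low_fin j i
  refine ⟨_, spx_mono ?_ hβ, bot j', sub j'⟩
  rintro _ ⟨a, ha, rfl⟩
  obtain ⟨a', p, q⟩ := e a ha
  have hi' : n + off j i = v := hi
  exact ⟨a', p, by simp only [tet]; linarith⟩

theorem k_cpx : Cpx GZ KK where
  inv := by
    rintro g _ ⟨n, i, rfl⟩
    exact smul_tet g n i ▸ tet_mem _ _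
  fin := ⟨range (tet 0), finite_range _, by
    rintro _ ⟨n, i, rfl⟩
    exact ⟨.ofAdd (-n), i, by simp [smul_tet]⟩⟩
  all v := ⟨_, tet_mem v 0, 0, add_zero v⟩
  ord x hx y hy i j k l a b c := (tet_lt hy k l).1 (b ▸ c ▸ (tet_lt hx i j).2 a)
  two := k_two
  conn := k_conn
  link := k_link
  equ := k_equ
  upper := k_upper
  lower := k_lower

theorem k_cyc : Cyc GZ KK := fun u v _ => ⟨.ofAdd (v - u), by
  rw [smul_int, toAdd_ofAdd, sub_add_cancel]⟩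

theorem k_mid (v : ℤ) : ∃ x ∈ KK, x 1 = v := ⟨_, tet_mem (v - 1) 1, sub_add_cancel v 1⟩

end Pool.Agent.Work.MP_3d425c_gt.Ex
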