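import Pool.Agent.Work.MP_3d425c_gt.Ex.Tri
import Pool.Agent.Work.MP_3d425c_gt.Js.Defs

/-! A rational homology sphere with a taut foliation: the unit tangent bundle of the orbifold
`S²(2, 4, 6)`. -/

namespace Pool.Agent.Work.MP_3d425c_gt.Ex.Tri
open Set Real Quo Matrix
open scoped Manifold ContDiff

variable {g : E → E} {L : Z3} {f : ℝ → ℝ}

theorem ht_le (v w : E) : 3 * ht w ≤ 2 * ht v * -B (P w) (P v) := by
  have h1 := ht_sq v
  have h2 := ht_sq w
  have h3 := one_le_ht v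
  have h4 := one_le_ht w
  simp only [B, P, cons_val_zero, cons_val_one, cons_val]
  generalize ht v = t at *
  generalize ht w = s at *
  have c : (w 0 * v 0 + w 1 * v 1) ^ 2 ≤ 9 * (t ^ 2 - 1) * s ^ 2 := by
    have : (w 0 * v 0 + w 1 * v 1) ^ 2 ≤ (v 0 ^ 2 + v 1 ^ 2) * (w 0 ^ 2 + w 1 ^ 2) := by
      nlinarith [sq_nonneg (w 0 * v 1 - w 1 * v 0)]
    have e1 : v 0 ^ 2 + v 1 ^ 2 = 3 * (t ^ 2 - 1) := by linarith
    have e2 : w 0 ^ 2 + w 1 ^ 2 = 3 * (s ^ 2 - 1) := by linarith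
    rw [e1, e2] at this
    nlinarith [sq_nonneg t]
  have d : 2 * t * (w 0 * v 0 + w 1 * v 1) ≤ 3 * (2 * t ^ 2 - 1) * s := by
    refine le_of_sq_le_sq_of_nonneg ?_ (mul_nonneg (by nlinarith) (by linarith))
    calc _ = 4 * t ^ 2 * (w 0 * v 0 + w 1 * v 1) ^ 2 := by ring
      _ ≤ 4 * t ^ 2 * (9 * (t ^ 2 - 1) * s ^ 2) := by gcongr
      _ ≤ _ := by nlinarith [sq_nonneg s]
  nlinarith
where le_of_sq_le_sq_of_nonneg {x y : ℝ} (h : x ^ 2 ≤ y ^ 2) (hy : 0 ≤ y) : x ≤ y :=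
  (abs_le_of_sq_le_sq' h hy).2

theorem co_le (v : E) : |v 0| ≤ 2 * ht v ∧ |v 1| ≤ 2 * ht v := by
  have h1 := ht_sq v
  have h3 := one_le_ht v
  constructor <;> refine abs_le_of_sq_le_sq ?_ (by linarith) <;>
    nlinarith [sq_nonneg (v 0), sq_nonneg (v 1)]

theorem ht_bd {R : ℝ} {v : E} (h : ‖v‖ ≤ R) : ht v ≤ 1 + R := by
  have h0 := (norm_nonneg v).trans h
  have h1 := ht_sq v
  have h2 : v 0 ^ 2 + v 1 ^ 2 + v 2 ^ 2 ≤ R ^ 2 := by
    have := EuclideanSpace.real_norm_sq_eq v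
    rw [Fin.sum_univ_three] at this
    rw [← this]
    exact pow_le_pow_left₀ (norm_nonneg _) h 2
  exact (abs_le_of_sq_le_sq' (by nlinarith [sq_nonneg (v 2)]) (by linarith)).2

theorem Dt.pt_bd (a : Dt g L f) {T : ℝ} {v : E} (h : ht v ≤ T) (h' : ht (g v) ≤ T) {w : E}
    (hw : ht w ≤ 2) (i : Fin 3) : |ac L (P w) i| ≤ 60 * T ^ 2 := by
  have h1 := ht_le (g v) (g w)
  rw [a.base, a.base, a.iso] at h1
  have h3 := one_le_ht v
  have h4 := one_le_ht w
  have h5 := one_le_ht (g v)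
  have h6 := one_le_ht (g w)
  obtain ⟨c1, c2⟩ := co_le v
  obtain ⟨c3, c4⟩ := co_le w
  have b : -B (P w) (P v) ≤ 22 * T := by
    simp only [B, P, cons_val_zero, cons_val_one, cons_val]
    have e1 : |w 0 * v 0| ≤ 4 * (2 * T) := by
      rw [abs_mul]
      exact mul_le_mul (by linarith) (by linarith) (abs_nonneg _) (by norm_num)
    have e2 : |w 1 * v 1| ≤ 4 * (2 * T) := by
      rw [abs_mul]
      exact mul_le_mul (by linarith) (by linarith) (abs_nonneg _) (by norm_num)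
    have e3 : ht w * ht v ≤ 2 * T := mul_le_mul hw h (by linarith) (by norm_num)
    linarith [neg_abs_le (w 0 * v 0), neg_abs_le (w 1 * v 1)]
  have c : 3 * ht (g w) ≤ 2 * T * (22 * T) := by
    refine h1.trans ((mul_le_mul_of_nonneg_left b (by linarith)).trans ?_)
    exact mul_le_mul_of_nonneg_right (by linarith) (by linarith)
  obtain ⟨c5, c6⟩ := co_le (g w)
  rw [← a.base]
  fin_cases i
  · exact (abs_of_nonneg (by linarith : 0 ≤ ht (g w))).trans_le (by nlinarith)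
  · exact c5.trans (by nlinarith)
  · exact c6.trans (by nlinarith)

theorem Dt.ent_bd (a : Dt g L f) {T : ℝ} {v : E} (h : ht v ≤ T) (h' : ht (g v) ≤ T)
    (i j : Fin 3) : |(L i j : ℝ)| ≤ 60 * T ^ 2 := by
  have e0 : ht !₂[0, 0, 0] = 1 := ht_eq (by norm_num) (by simp)
  have e1 : ht !₂[3, 0, 0] = 2 := ht_eq (by norm_num) (by simp; norm_num)
  have e2 : ht !₂[0, 3, 0] = 2 := ht_eq (by norm_num) (by simp; norm_num)
  have b0 := abs_le.1 (a.pt_bd h h' (e0.le.trans one_le_two) i)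
  have b1 := abs_le.1 (a.pt_bd h h' e1.le i)
  have b2 := abs_le.1 (a.pt_bd h h' e2.le i)
  simp [ac_apply, P, e0, e1, e2] at b0 b1 b2
  rw [abs_le]
  fin_cases j <;> simp <;> constructor <;> linarith [b0.1, b0.2, b1.1, b1.2, b2.1, b2.2]

theorem Dt.zero_bd (a : Dt g L f) (m : Monotone f) {N : ℕ} {s : ℝ} (h : |s| ≤ N)
    (h' : |f s| ≤ N) : |f 0| ≤ N + N * (2 * π) := by
  have p : (N : ℝ) ≤ N * (2 * π) := le_mul_of_one_le_right N.cast_nonneg (by linarith [pi_gt_three])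
  obtain ⟨h1, h2⟩ := abs_le.1 h
  obtain ⟨h3, h4⟩ := abs_le.1 h'
  have u := m (show 0 ≤ s + ((N : ℤ) : ℝ) * (2 * π) by push_cast; linarith)
  have l := m (show s + ((-N : ℤ) : ℝ) * (2 * π) ≤ 0 by push_cast; linarith)
  rw [a.perz] at u l
  push_cast at u l
  rw [abs_le]
  constructor <;> linarith

theorem τ_mem (n : ℤ) : τ ^ n ∈ G :=
  zpow_mem (pow_mem (Subgroup.subset_closure (by simp)) 4) n

theorem fin_fib (L : Z3) (C : ℝ) : {γ : G | Has γ.1 L ∧ |γ.1 0 2| ≤ C}.Finite := by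
  rcases eq_empty_or_nonempty {γ : G | Has γ.1 L ∧ |γ.1 0 2| ≤ C} with h | ⟨k, ⟨_, hk⟩, bk⟩
  · rw [h]
    exact finite_empty
  obtain ⟨N, hN⟩ := exists_int_gt C
  refine ((finite_Icc (-N) N).image fun n : ℤ => (⟨τ ^ n, τ_mem n⟩ : G) * k).subset ?_
  rintro γ ⟨⟨_, hγ⟩, bγ⟩
  obtain ⟨n, hn⟩ := hγ.same hk
  refine ⟨n, ?_, Subtype.ext (Equiv.ext fun v => (hn v).symm)⟩
  have e : γ.1 0 2 = k.1 0 2 + n * (2 * π) := by simp [hn, τ_zpow]
  obtain ⟨h1, h2⟩ := abs_le.1 bk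
  obtain ⟨h3, h4⟩ := abs_le.1 bγ
  have := pi_gt_three
  constructor
  · by_contra hc
    have : (n : ℝ) < -N := by exact_mod_cast not_le.1 hc
    nlinarith
  · by_contra hc
    have : (N : ℝ) < n := by exact_mod_cast not_le.1 hc
    nlinarith

instance : ProperlyDiscontinuousSMul G E where
  finite_disjoint_inter_image {K K'} hK hK' := by
    obtain ⟨R, hR⟩ := (hK.union hK').isBounded.exists_norm_le
    obtain ⟨N, hN⟩ := exists_nat_ge R
    obtain ⟨D, hD⟩ := exists_int_gt (60 * (1 + R) ^ 2)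
    have hf : {L : Z3 | ∀ i, L i ∈ {r : Fin 3 → ℤ | ∀ j, r j ∈ Icc (-D) D}}.Finite :=
      Finite.pi' fun _ => Finite.pi' fun _ => finite_Icc _ _
    refine (hf.biUnion fun L _ => fin_fib L (N + N * (2 * π))).subset ?_
    rintro γ ⟨_, ⟨v, hv, rfl⟩, hv'⟩
    obtain ⟨L, f, a⟩ := has γ
    have n1 : ‖v‖ ≤ R := hR v (.inl hv)
    have n2 : ‖γ.1 v‖ ≤ R := hR _ (.inr hv')
    refine mem_biUnion (x := L) (fun i j => ?_) ⟨⟨f, a⟩, ?_⟩
    · have := (a.ent_bd (ht_bd n1) (ht_bd n2) i j).trans hD.le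
      exact abs_le.1 (by exact_mod_cast this)
    · rw [a.fib]
      refine a.zero_bd (a.mono γ.1.injective).monotone (s := v 2)
        ((PiLp.norm_apply_le v 2).trans (n1.trans hN)) ?_
      rw [← a.fib]
      exact (PiLp.norm_apply_le (γ.1 v) 2).trans (n2.trans hN)

theorem smooth (γ : G) : ContDiff ℝ ∞ fun v : E => γ • v :=
  let ⟨_, _, a⟩ := has γ
  a.smooth

instance : ContinuousConstSMul G E := ⟨fun γ => (smooth γ).continuous⟩

theorem od (γ : G) (v w : E) : (γ • v) 2 < (γ • w) 2 ↔ v 2 < w 2 := by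
  obtain ⟨_, f, a⟩ := has γ
  show γ.1 v 2 < γ.1 w 2 ↔ _
  rw [a.fib, a.fib, (a.mono γ.1.injective).lt_iff_lt]

theorem pair_ne (v : E) (θ : ℝ) : B (P v) (nl θ) ≠ 0 := by
  have h1 := ht_sq v
  have h3 := s3
  have h4 := sin_sq_add_cos_sq θ
  simp only [B, P, nl, cons_val_zero, cons_val_one, cons_val]
  intro h
  have e : 3 * ht v = √3 * (v 0 * cos θ + v 1 * sin θ) := by linarith
  have e2 : 3 * ht v ^ 2 = (v 0 * cos θ + v 1 * sin θ) ^ 2 := by
    have : (3 * ht v) ^ 2 = (√3 * √3) * (v 0 * cos θ + v 1 * sin θ) ^ 2 := by rw [e]; ring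
    rw [h3] at this
    linarith
  have e3 : (v 0 * cos θ + v 1 * sin θ) ^ 2 + (v 0 * sin θ - v 1 * cos θ) ^ 2 =
      v 0 ^ 2 + v 1 ^ 2 := by linear_combination (v 0 ^ 2 + v 1 ^ 2) * h4
  nlinarith [sq_nonneg (v 0 * sin θ - v 1 * cos θ)]

instance : IsCancelSMul G E := isCancelSMul_iff_eq_one_of_smul_eq.2 fun γ x hx => by
  have hfin : (MulAction.stabilizer G x : Set G).Finite :=
    (ProperlyDiscontinuousSMul.finite_disjoint_inter_image (Γ := G) isCompact_singleton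
      isCompact_singleton).subset fun k hk => ⟨x, ⟨x, rfl, hk⟩, rfl⟩
  have := hfin.to_subtype
  obtain ⟨n, hn, h1⟩ := isOfFinOrder_iff_pow_eq_one.1
    (isOfFinOrder_of_finite (⟨γ, hx⟩ : MulAction.stabilizer G x))
  have h2 : γ.1 ^ n = 1 := congrArg (fun k : MulAction.stabilizer G x => k.1.1) h1
  obtain ⟨L, f, a⟩ := has γ
  have it : ∀ (n : ℕ) (v : E), (γ.1 ^ n) v 2 = f^[n] (v 2) := fun n => by
    induction n with
    | zero => exact fun _ => rfl
    | succ n ih => exact fun v => by rw [pow_succ, Equiv.Perm.mul_apply, ih, a.fib]; rfl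
  have hf : ∀ s, f s = s := fun s => by
    have := it n !₂[0, 0, s]
    rw [h2] at this
    refine (Function.Commute.iterate_pos_eq_iff_map_eq (f := f) (g := id) (fun _ => rfl)
      (a.mono γ.1.injective).monotone strictMono_id hn).1 ?_
    rw [Function.iterate_id]
    exact this.symm
  have hn : ∀ θ, ac L (nl θ) = nl θ := fun θ => by
    obtain ⟨r, -, h⟩ := a.ray θ
    have e := a.iso (P x) (nl θ)
    rw [← a.base, show γ.1 x = x from hx, h, hf] at e
    have : r * B (P x) (nl θ) = B (P x) (nl θ) := by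
      simp only [B, Pi.smul_apply, smul_eq_mul] at e ⊢
      linear_combination e
    rw [h, hf, (mul_eq_right₀ (pair_ne x θ)).1 this, one_smul]
  have s0 : (√3 : ℝ) ≠ 0 := by positivity
  have hL : ∀ u, ac L u = u := fun u => funext fun i => by
    have k1 : L i 0 + L i 1 * √3 = nl 0 i := by simpa [ac_apply, nl] using congrFun (hn 0) i
    have k2 : L i 0 + -(L i 1 * √3) = nl π i := by simpa [ac_apply, nl] using congrFun (hn π) i
    have k3 : L i 0 + L i 2 * √3 = nl (π / 2) i := by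
      simpa [ac_apply, nl] using congrFun (hn (π / 2)) i
    have k4 : u i * √3 = u 0 * √3 * (nl 0 i + nl π i) / 2 + u 1 * (nl 0 i - nl π i) / 2 +
        u 2 * (nl (π / 2) i - (nl 0 i + nl π i) / 2) := by
      fin_cases i <;> simp [nl] <;> ring
    refine mul_right_cancel₀ s0 ?_
    rw [ac_apply, k4, ← k1, ← k2, ← k3]
    ring
  refine Subtype.ext (Equiv.ext fun v => ext3 ?_ ?_)
  · rw [a.base, hL]
    rfl
  · rw [a.fib, hf]
    rfl

theorem a_mem : a ∈ G := Subgroup.subset_closure (by simp)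
theorem b_mem : b ∈ G := Subgroup.subset_closure (by simp)

theorem descend (n : ℕ) (v : E) (h : ht v ≤ n) : ∃ γ : G, ht (γ • v) ≤ 5 := by
  induction n generalizing v with
  | zero => exact ⟨1, by rw [one_smul]; push_cast at h; linarith⟩
  | succ n ih =>
    by_cases h5 : ht v ≤ 5
    · exact ⟨1, by rwa [one_smul]⟩
    have key : ∀ γ : G, ht (γ • v) = ht v → ht v + 1 ≤ (γ • v) 0 → ∃ γ : G, ht (γ • v) ≤ 5 := by
      intro γ e l
      obtain ⟨k, hk⟩ := ih (b0 (γ • v)) (by rw [ht_b0, e]; push_cast at h; linarith)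
      exact ⟨k * ⟨b, b_mem⟩ * γ, by rw [mul_smul, mul_smul]; exact hk⟩
    by_contra hc
    have c0 := mt (key 1 (by rw [one_smul])) hc
    have c1 := mt (key ⟨a, a_mem⟩ (ht_a v)) hc
    have c2 := mt (key ⟨a * a, mul_mem a_mem a_mem⟩ ((ht_a _).trans (ht_a v))) hc
    have c3 := mt (key ⟨a * a * a, mul_mem (mul_mem a_mem a_mem) a_mem⟩
      ((ht_a _).trans ((ht_a _).trans (ht_a v)))) hc
    rw [one_smul] at c0
    change ¬ _ ≤ -v 1 at c1
    change ¬ _ ≤ -v 0 at c2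
    change ¬ _ ≤ - -v 1 at c3
    have := ht_sq v
    push Not at c0 c1 c2 c3 h5
    nlinarith

/-- the manifold -/
abbrev M : Type := MulAction.orbitRel.Quotient G E

theorem cov : IsQuotientCoveringMap (Quotient.mk (MulAction.orbitRel G E)) G :=
  isQuotientCoveringMap_quotientMk_of_properlyDiscontinuousSMul

instance : CompactSpace M := ⟨by
  refine ((isCompact_closedBall (0 : E) 20).image cov.continuous).of_isClosed_subset
    isClosed_univ fun m _ => ?_
  obtain ⟨v, rfl⟩ := cov.surjective m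
  obtain ⟨n, hn⟩ := exists_nat_ge (ht v)
  obtain ⟨γ, hγ⟩ := descend n v hn
  let k : ℤ := -⌊(γ • v) 2 / (2 * π)⌋
  refine ⟨(⟨τ ^ k, τ_mem k⟩ : G) • γ • v, ?_, by rw [cov.map_smul, cov.map_smul]⟩
  have p : 0 < 2 * π := by positivity
  have h1 := Int.sub_floor_div_mul_nonneg ((γ • v) 2) p
  have h2 := Int.sub_floor_div_mul_lt ((γ • v) 2) p
  have h3 := ht_sq (γ • v)
  have h4 := one_le_ht (γ • v)
  have h5 := pi_lt_four
  rw [mem_closedBall_zero_iff]
  refine (abs_le_of_sq_le_sq' ?_ (by norm_num)).2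
  rw [EuclideanSpace.real_norm_sq_eq, Fin.sum_univ_three]
  change ((τ ^ k) _ 0) ^ 2 + ((τ ^ k) _ 1) ^ 2 + ((τ ^ k) _ 2) ^ 2 ≤ _
  simp only [τ_zpow, k]
  simp
  nlinarith⟩

theorem no_char (χ : G →* Multiplicative ℝ) : χ = 1 := by
  obtain ⟨n, hn⟩ := rel_b
  obtain ⟨m, hm⟩ := rel_ab
  let A : G := ⟨a, a_mem⟩
  let C : G := ⟨b, b_mem⟩
  have e1 : C ^ 2 = (A ^ 4) ^ n := Subtype.ext hn
  have e2 : (A * C) ^ 6 = (A ^ 4) ^ m := Subtype.ext hm
  have f1 := congrArg (fun x => (χ x).toAdd) e1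
  have f2 := congrArg (fun x => (χ x).toAdd) e2
  simp only [map_pow, map_zpow, map_mul, toAdd_pow, toAdd_zpow, toAdd_mul, nsmul_eq_mul,
    zsmul_eq_mul] at f1 f2
  push_cast at f1 f2
  have h0 : ((6 + 12 * n - 4 * m : ℤ) : ℝ) ≠ 0 := by
    rw [Int.cast_ne_zero]
    omega
  have hA : (χ A).toAdd = 0 := by
    refine (mul_eq_zero.1 ?_).resolve_left h0
    push_cast
    linarith
  have hC : (χ C).toAdd = 0 := by
    rw [hA] at f1
    linarith
  refine MonoidHom.eq_of_eqOn_dense (Subgroup.closure_closure_coe_preimage (k := {a, b})) ?_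
  rintro ⟨_, _⟩ (rfl | rfl)
  exacts [hA, hC]

theorem central (γ : G) : γ * ⟨τ, by simpa using τ_mem 1⟩ = ⟨τ, by simpa using τ_mem 1⟩ * γ := by
  obtain ⟨L, f, h⟩ := has γ
  refine Subtype.ext (Equiv.ext fun v => ext3 ?_ ?_)
  · have := P_τ 1
    rw [zpow_one] at this
    show P (γ.1 (τ v)) = P (τ (γ.1 v))
    rw [this, h.base, h.base, this]
  · show γ.1 (τ v) 2 = τ (γ.1 v) 2
    simp [h.fib, τ_apply, h.per]

/-- **All hypotheses of the theorem hold together.** -/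
theorem nonvac5 : ∃ (M : Type) (_ : TopologicalSpace M)
    (_ : ChartedSpace (EuclideanSpace ℝ (Fin 3)) M)
    (_ : IsManifold 𝓘(ℝ, EuclideanSpace ℝ (Fin 3)) ∞ M) (_ : CompactSpace M) (_ : T2Space M)
    (_ : ConnectedSpace M) (m : M) (A : Set (OpenPartialHomeomorph M ((ℝ × ℝ) × ℝ))),
    (∀ χ : FundamentalGroup M m →* Multiplicative ℝ, χ = 1) ∧ Js.Geo (FundamentalGroup M m) ∧
      Sm.Foliation A ∧ Sm.Taut A := by
  let e : FundamentalGroup M (Quotient.mk _ 0) ≃* G :=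
    (cov.fundamentalGroupEquiv ⟨0, rfl⟩).trans (MulEquiv.inv' G).symm
  let t : G := ⟨τ, by simpa using τ_mem 1⟩
  refine ⟨M, inferInstance, cs cov, mfd cov smooth, inferInstance, inferInstance,
    cov.surjective.connectedSpace cov.continuous, Quotient.mk _ 0, atl cov, fun χ => ?_,
    .inr (.inl ⟨e.symm t, fun h => ?_, ⟨fun x hx y => ?_⟩⟩), fol cov od,
    taut cov od (τ := t) two_pi_pos τ_apply⟩
  · ext x
    simpa using DFunLike.congr_fun (no_char (χ.comp e.symm.toMonoidHom)) (e x)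
  · have h1 : t = 1 := (map_eq_one_iff _ e.symm.injective).1 h
    have := congrArg (fun k : G => k.1 0 2) h1
    simp [t, τ_apply] at this
  · obtain ⟨n, rfl⟩ := hx
    have c : Commute y (e.symm t) := e.injective (by
      rw [map_mul, map_mul, e.apply_symm_apply]
      exact central (e y))
    rw [(c.zpow_right n).eq, mul_inv_cancel_right]
    exact ⟨n, rfl⟩

end Pool.Agent.Work.MP_3d425c_gt.Ex.Tri
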