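import Pool.Agent.Work.MP_3d425c_gt.Sm.Defs

/-! Quotients of three-space by smooth actions that preserve the order of the last coordinate. -/

namespace Pool.Agent.Work.MP_3d425c_gt.Ex.Quo
open Set Filter Topology
open scoped Manifold ContDiff

abbrev E : Type := EuclideanSpace ℝ (Fin 3)

variable {M G : Type} [TopologicalSpace M] [Group G] [MulAction G E] {p : E → M}
  (hp : IsQuotientCoveringMap p G)

/-- a local section -/
noncomputable def sec (x : E) : OpenPartialHomeomorph M E :=
  hp.isCoveringMap.isLocalHomeomorph.localInverseAt x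

theorem p_sec {x : E} {m : M} (h : m ∈ (sec hp x).source) : p (sec hp x m) = m :=
  hp.isCoveringMap.isLocalHomeomorph.apply_localInverseAt_of_mem h

theorem sec_loc {x z : E} (h : p z ∈ (sec hp x).source) :
    ∃ g : G, ∀ᶠ w in 𝓝 z, sec hp x (p w) = g • w := by
  obtain ⟨g, hg⟩ := hp.apply_eq_iff_mem_orbit.1 (p_sec hp h)
  refine ⟨g, ?_⟩
  have hg' : g • z = sec hp x (p z) := hg
  have h1 : ∀ᶠ w in 𝓝 z, g • w ∈ (sec hp x).target :=
    (hp.continuous_const_smul g).continuousAt.eventually_mem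
      ((sec hp x).open_target.mem_nhds (hg' ▸ (sec hp x).map_source h))
  have h2 : ∀ᶠ w in 𝓝 z, p w ∈ (sec hp x).source :=
    hp.continuous.continuousAt.eventually_mem ((sec hp x).open_source.mem_nhds h)
  filter_upwards [h1, h2] with w a b
  refine hp.isCoveringMap.isLocalHomeomorph.injOn_localInverseAt_target
    ((sec hp x).map_source b) a ?_
  rw [hp.map_smul]
  exact p_sec hp b

theorem sec_sec {x x' : E} {m : M} (h : m ∈ (sec hp x).source) (h' : m ∈ (sec hp x').source) :
    ∃ g : G, ∀ᶠ y in 𝓝 m, sec hp x y = g • sec hp x' y := by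
  obtain ⟨g, hg⟩ := sec_loc hp (x := x) (z := sec hp x' m) (by rwa [p_sec hp h'])
  refine ⟨g, ?_⟩
  filter_upwards [((sec hp x').continuousAt h').eventually hg,
    (sec hp x').open_source.mem_nhds h'] with y a b
  rwa [p_sec hp b] at a

/-- the smooth atlas -/
@[reducible] noncomputable def cs : ChartedSpace E M where
  atlas := range (sec hp)
  chartAt m := sec hp (hp.surjective m).choose
  mem_chart_source m := by
    have := hp.isCoveringMap.isLocalHomeomorph.apply_self_mem_localInverseAt_source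
      (x := (hp.surjective m).choose)
    rwa [(hp.surjective m).choose_spec] at this
  chart_mem_atlas _ := ⟨_, rfl⟩

theorem mfd (sm : ∀ g : G, ContDiff ℝ ∞ fun v : E => g • v) :
    letI := cs hp
    IsManifold 𝓘(ℝ, E) ∞ M := by
  let _ := cs hp
  refine isManifold_of_contDiffOn _ _ _ ?_
  rintro _ _ ⟨x, rfl⟩ ⟨x', rfl⟩ z hz
  have hs : ((sec hp x).symm : E → M) = p :=
    hp.isCoveringMap.isLocalHomeomorph.localInverseAt_symm x
  have hz' : p z ∈ (sec hp x').source := by
    have := hz.1.2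
    simpa [hs] using this
  obtain ⟨g, hg⟩ := sec_loc hp hz'
  refine ((sm g).contDiffAt.congr_of_eventuallyEq ?_).contDiffWithinAt
  filter_upwards [hg] with w hw
  simpa [hs] using hw

/-- coordinates -/
noncomputable def co : E ≃ₜ (ℝ × ℝ) × ℝ where
  toFun v := ((v 0, v 1), v 2)
  invFun q := !₂[q.1.1, q.1.2, q.2]
  left_inv v := by
    ext i
    fin_cases i <;> rfl
  right_inv q := rfl
  continuous_toFun := by fun_prop
  continuous_invFun := by fun_prop

/-- the foliated atlas -/
def atl : Set (OpenPartialHomeomorph M ((ℝ × ℝ) × ℝ)) :=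
  range fun x => (sec hp x).transHomeomorph co

variable (od : ∀ (g : G) (v w : E), (g • v) 2 < (g • w) 2 ↔ v 2 < w 2)
include od

theorem ord_sec {x x' : E} {m : M} (h : m ∈ (sec hp x).source) (h' : m ∈ (sec hp x').source) :
    ∀ᶠ q : M × M in 𝓝 (m, m),
      sec hp x q.1 2 < sec hp x q.2 2 ↔ sec hp x' q.1 2 < sec hp x' q.2 2 := by
  obtain ⟨g, hg⟩ := sec_sec hp h h'
  filter_upwards [hg.prod_nhds hg] with q hq
  rw [hq.1, hq.2, od]

theorem fol :
    letI := cs hp
    Sm.Foliation (atl hp) := by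
  let _ := cs hp
  refine ⟨fun m => ⟨_, ⟨(hp.surjective m).choose, rfl⟩, mem_chart_source E m⟩, ?_, ?_⟩
  · rintro _ ⟨x, rfl⟩ _ ⟨x', rfl⟩ m ⟨h, h'⟩
    exact ord_sec hp od h h'
  · rintro _ ⟨x, rfl⟩ m h
    refine ⟨EuclideanSpace.proj 2, fun h0 => ?_, fun η hη => ?_⟩
    · simpa using DFunLike.congr_fun h0 (EuclideanSpace.single 2 1)
    · filter_upwards [ord_sec hp od h (mem_chart_source E m)] with q hq hl
      refine hq.2 (sub_pos.1 ?_)
      exact (mul_nonneg hη.le (norm_nonneg _)).trans_lt hl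

theorem taut {τ : G} {c : ℝ} (hc : 0 < c)
    (hτ : ∀ v : E, τ • v = v + EuclideanSpace.single 2 c) :
    Sm.Taut (atl hp) := by
  intro m
  obtain ⟨x, rfl⟩ := hp.surjective m
  have hcont : Continuous fun t : ℝ => x + t • EuclideanSpace.single (2 : Fin 3) c := by fun_prop
  refine ⟨fun t => p (x + t • EuclideanSpace.single 2 c), hp.continuous.comp hcont, fun t => ?_,
    ?_, ?_⟩
  · show p _ = p _
    rw [add_smul, one_smul, ← add_assoc, ← hτ, hp.map_smul]
  · show Sm.SameLeaf _ _ (p _)
    rw [zero_smul, add_zero]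
    exact ⟨Path.refl _, fun t e _ _ => Eventually.of_forall fun s => rfl⟩
  · rintro t _ ⟨y, rfl⟩ h
    obtain ⟨g, hg⟩ := sec_loc hp h
    have h2 := hcont.continuousAt.eventually hg
    filter_upwards [h2.prod_nhds h2] with q hq hl
    show sec hp y _ 2 < sec hp y _ 2
    rw [hq.1, hq.2, od]
    simpa using mul_lt_mul_of_pos_right hl hc

end Pool.Agent.Work.MP_3d425c_gt.Ex.Quo
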