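import Pool.Agent.Work.MP_3d425c_gt.Tp.Cech
import Pool.Agent.Work.MP_735653_gt.Nerve

/-! Simple connectivity of realisations of simplicial complexes. -/

namespace Pool.Agent.Work.MP_3d425c_gt.Ex
open Set Function Topology Relation Pool.Agent.Work.MP_3d425c_gt.Tp

variable {V : Type}

/-- a cone is simply connected -/
theorem sc_cone {R : Set (V → ℝ)} (w : V) (hw : dl w ∈ R)
    (h : ∀ β ∈ R, ∃ τ, β ∈ spx τ ∧ w ∈ τ ∧ spx τ ⊆ R) : IsSimplyConnected R := by
  have : StarConvex ℝ (dl w) R := fun β hβ a b ha hb hab => by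
    obtain ⟨τ, h1, h2, h3⟩ := h β hβ
    exact h3 (spx_convex τ (dl_mem h2) h1 ha hb hab)
  have := this.contractibleSpace ⟨_, hw⟩
  exact SimplyConnectedSpace.ofContractible R

theorem supp_dl (u : V) : support (dl u) = {u} := by
  ext w
  by_cases e : w = u
  · simp [e, dl_self]
  · simp [e, dl_ne e]

theorem supp_mix {σ τ : Set V} {β γ : V → ℝ} (hβ : β ∈ spx σ) (hγ : γ ∈ spx τ) {a b : ℝ}
    (ha : 0 ≤ a) (hb : 0 ≤ b) (hab : a + b = 1) {v : V} (h1 : β v ≠ 0 ∨ a = 0)
    (h2 : γ v ≠ 0 ∨ (β v ≠ 0 ∧ a ≠ 0)) : (a • β + b • γ) v ≠ 0 := by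
  have p := hβ.1 v
  have q := hγ.1 v
  show a * β v + b * γ v ≠ 0
  intro e
  have e1 : a * β v = 0 := by nlinarith [mul_nonneg ha p, mul_nonneg hb q]
  have e2 : b * γ v = 0 := by linarith
  rcases h2 with h2 | h2
  · have : b = 0 := (mul_eq_zero.1 e2).resolve_right h2
    have a1 : a ≠ 0 := by intro k; linarith
    exact mul_ne_zero a1 (h1.resolve_right a1) e1
  · exact mul_ne_zero h2.2 h2.1 e1

/-- a point in the interior of a simplex -/
theorem exists_int {σ : Set V} (hf : σ.Finite) (hn : σ.Nonempty) :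
    ∃ β ∈ spx σ, σ ⊆ support β := by
  induction σ, hf using Set.Finite.induction_on with
  | empty => exact absurd hn not_nonempty_empty
  | @insert u σ _ _ ih =>
    rcases σ.eq_empty_or_nonempty with rfl | k
    · exact ⟨dl u, dl_mem (mem_insert _ _), by simp [supp_dl]⟩
    obtain ⟨β, h1, h2⟩ := ih k
    have d : dl u ∈ spx (insert u σ) := dl_mem (mem_insert _ _)
    have h3 := spx_mono (subset_insert u σ) h1
    refine ⟨(1 / 2 : ℝ) • β + (1 / 2 : ℝ) • dl u,
      spx_convex _ h3 d (by norm_num) (by norm_num) (by norm_num), ?_⟩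
    rintro v (rfl | hv)
    · rw [add_comm]
      exact supp_mix d h3 (by norm_num) (by norm_num) (by norm_num)
        (.inl (by simp [dl_self])) (.inr ⟨by simp [dl_self], by norm_num⟩)
    · exact supp_mix h3 d (by norm_num) (by norm_num) (by norm_num)
        (.inl (h2 hv)) (.inr ⟨h2 hv, by norm_num⟩)

theorem supp_ne {σ : Set V} {β : V → ℝ} (h : β ∈ spx σ) : (support β).Nonempty := by
  by_contra k
  have : β = 0 := support_eq_empty_iff.1 (not_nonempty_iff_eq_empty.1 k)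
  have e := h.2.2
  simp [this] at e

/-- A connected union of simplices whose vertex cocycles are coboundaries is simply connected. -/
theorem sc_real {R : Set (V → ℝ)} (hR : Un R) (pc : IsPathConnected R)
    (h : ∀ (H : Type) [Group H] (ψ : V → V → H),
      (∀ β ∈ R, ∀ u ∈ support β, ∀ v ∈ support β, ∀ w ∈ support β, ψ u v * ψ v w = ψ u w) →
      ∃ F : V → H, ∀ β ∈ R, ∀ u ∈ support β, ∀ v ∈ support β, ψ u v = F u * (F v)⁻¹) :
    IsSimplyConnected R := by
  classical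
  have := isPathConnected_iff_pathConnectedSpace.1 pc
  refine MP_735653_gt.simplyConnected_of_nerve (E := R) (P := R)
    (fun p q => support q.1 ⊆ support p.1) (fun _ _ _ a b => b.trans a) (fun _ => subset_rfl) id
    (fun p => ?_) (fun p => ?_) fun H _ φ hφ => ?_
  · have o : IsOpen (⋂ v ∈ support p.1, {γ : V → ℝ | γ v ≠ 0}) :=
      (spx_fin (hR _ p.2).1).isOpen_biInter fun v _ => isOpen_ne_fun (continuous_apply v)
        continuous_const
    have e : {x : R | support p.1 ⊆ support x.1} =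
        Subtype.val ⁻¹' (⋂ v ∈ support p.1, {γ : V → ℝ | γ v ≠ 0}) := by
      ext x
      exact ⟨fun a => mem_iInter₂.2 fun v hv => a hv, fun a v hv => mem_iInter₂.1 a v hv⟩
    exact e ▸ o.preimage continuous_subtype_val
  · have s : StarConvex ℝ p.1 (Subtype.val '' {x : R | support p.1 ⊆ support x.1}) := by
      rintro _ ⟨x, hx, rfl⟩ a b ha hb hab
      have h1 := spx_mono hx (hR _ p.2).1
      refine ⟨⟨_, (hR _ x.2).2 (spx_convex _ h1 (hR _ x.2).1 ha hb hab)⟩, fun v hv => ?_, rfl⟩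
      exact supp_mix h1 (hR _ x.2).1 ha hb hab (.inl hv) (.inl (hx hv))
    have := s.contractibleSpace ⟨_, p, fun _ a => a, rfl⟩
    exact (IsEmbedding.subtypeVal.homeomorphImage
      {x : R | support p.1 ⊆ support x.1}).contractibleSpace
  have hv : ∀ (s : R), ∀ u ∈ support s.1, dl u ∈ R := fun s u hu => (hR _ s.2).2 (dl_mem hu)
  let E : V → R → H := fun u s => if k : dl u ∈ R then φ ⟨_, k⟩ s else 1
  have hE : ∀ (q s : R), support q.1 ⊆ support s.1 → ∀ u ∈ support q.1, E u s = E u q * φ q s :=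
    fun q s a u hu => by
      simp only [E, dif_pos (hv q u hu)]
      exact hφ _ _ _ a (by rw [supp_dl]; exact singleton_subset_iff.2 hu)
  have hρ : ∀ (s s' : R) (u v : V), u ∈ support s.1 → v ∈ support s.1 → u ∈ support s'.1 →
      v ∈ support s'.1 → E u s * (E v s)⁻¹ = E u s' * (E v s')⁻¹ := fun s s' u v a b c d => by
    obtain ⟨m, m1, m2⟩ := exists_int (toFinite {u, v}) (insert_nonempty _ _)
    have k1 : support m ⊆ support s.1 := m1.2.1.trans (pair_subset a b)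
    have k2 : support m ⊆ support s'.1 := m1.2.1.trans (pair_subset c d)
    have mR : m ∈ R := (hR _ s.2).2 ⟨m1.1, k1, m1.2.2⟩
    have u1 : u ∈ support m := m2 (by simp)
    have v1 : v ∈ support m := m2 (by simp)
    rw [hE ⟨m, mR⟩ s k1 u u1, hE ⟨m, mR⟩ s k1 v v1, hE ⟨m, mR⟩ s' k2 u u1, hE ⟨m, mR⟩ s' k2 v v1]
    group
  let ψ : V → V → H := fun u v =>
    if k : ∃ s : R, u ∈ support s.1 ∧ v ∈ support s.1 then E u k.choose * (E v k.choose)⁻¹ else 1
  have hψ : ∀ (s : R), ∀ u ∈ support s.1, ∀ v ∈ support s.1, ψ u v = E u s * (E v s)⁻¹ :=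
    fun s u a v b => by
      have k : ∃ s : R, u ∈ support s.1 ∧ v ∈ support s.1 := ⟨s, a, b⟩
      simp only [ψ, dif_pos k]
      exact hρ _ _ _ _ k.choose_spec.1 k.choose_spec.2 a b
  obtain ⟨F, hF⟩ := h H ψ fun β hβ u a v b w c => by
    rw [hψ ⟨β, hβ⟩ u a v b, hψ ⟨β, hβ⟩ v b w c, hψ ⟨β, hβ⟩ u a w c]
    group
  choose u hu using fun s : R => supp_ne (hR _ s.2).1
  refine ⟨fun s => (E (u s) s)⁻¹ * F (u s), fun p q a => ?_⟩
  have e := hF q.1 q.2 _ (a (hu p)) _ (hu q)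
  rw [hψ q _ (a (hu p)) _ (hu q), hE p q a _ (hu p)] at e
  calc φ p q = (E (u p) p)⁻¹ * (E (u p) p * φ p q * (E (u q) q)⁻¹) * E (u q) q := by group
    _ = _ := by rw [e]; group

theorem pc_real {K : Set (Fin 4 → V)} (hn : K.Nonempty)
    (conn : ∀ x ∈ K, ∀ y ∈ K, ReflTransGen (Adj K fun _ => True) x y) :
    IsPathConnected (⋃ x ∈ K, spx (range x)) := by
  obtain ⟨x, hx⟩ := hn
  have j : ∀ y ∈ K, ∀ β ∈ spx (range y), ∀ γ ∈ spx (range y),
      JoinedIn (⋃ x ∈ K, spx (range x)) β γ := fun y hy β a γ b =>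
    JoinedIn.of_segment_subset (((spx_convex _).segment_subset a b).trans
      (subset_biUnion_of_mem (u := fun x => spx (range x)) hy))
  have k : ∀ y, ReflTransGen (Adj K fun _ => True) x y → y ∈ K ∧ ∀ β ∈ spx (range y),
      JoinedIn (⋃ x ∈ K, spx (range x)) (dl (x 0)) β := fun y r => by
    induction r with
    | refl => exact ⟨hx, j x hx _ (dl_mem ⟨0, rfl⟩)⟩
    | tail _ a ih =>
      obtain ⟨hz, k, l, e, -⟩ := a
      exact ⟨hz, fun β hβ => (ih.2 _ (dl_mem ⟨k.succAbove 0, rfl⟩)).trans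
        (j _ hz _ (dl_mem ⟨l.succAbove 0, (congrFun e 0).symm⟩) _ hβ)⟩
  refine ⟨dl (x 0), mem_biUnion hx (dl_mem ⟨0, rfl⟩), fun β hβ => ?_⟩
  obtain ⟨y, hy, a⟩ := mem_iUnion₂.1 hβ
  exact (k y (conn x hx y hy)).2 β a

end Pool.Agent.Work.MP_3d425c_gt.Ex
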