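import Pool.Agent.Work.MP_3d425c_gt.Sm.Defs
import Pool.Agent.Work.MP_7ba843_gt.Sphere

/-! Sphere times circle as a smooth three-manifold with the foliation by spheres. -/

namespace Pool.Agent.Work.MP_3d425c_gt.Ex
open Set Filter Topology Pool.Agent.Work.MP_7ba843_gt
open scoped Manifold ContDiff RealInnerProductSpace

/-- sphere times circle -/
def SS : Type := S2 × AddCircle (1 : ℝ)

/-- sphere times line -/
def SR : Type := S2 × ℝ

instance : TopologicalSpace SS := inferInstanceAs (TopologicalSpace (S2 × AddCircle (1 : ℝ)))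
instance : TopologicalSpace SR := inferInstanceAs (TopologicalSpace (S2 × ℝ))
instance : CompactSpace SS := inferInstanceAs (CompactSpace (S2 × AddCircle (1 : ℝ)))
instance : T2Space SS := inferInstanceAs (T2Space (S2 × AddCircle (1 : ℝ)))

instance : SimplyConnectedSpace SR := by
  have := sc_sphere
  show SimplyConnectedSpace (S2 × ℝ)
  rw [simply_connected_iff_paths_homotopic]
  refine ⟨inferInstance, ?_⟩
  rintro ⟨a, b⟩ ⟨c, d⟩
  refine ⟨fun p q => ?_⟩
  rw [← Path.Homotopic.prod_projLeft_projRight p, ← Path.Homotopic.prod_projLeft_projRight q]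
  congr 1 <;> exact Subsingleton.elim _ _

instance : MulAction (Multiplicative ℤ) SR where
  smul g y := (y.1, y.2 + g.toAdd)
  one_smul y := Prod.ext rfl (by show y.2 + ((0 : ℤ) : ℝ) = _; simp)
  mul_smul g h y := Prod.ext rfl (by
    show y.2 + ((g.toAdd + h.toAdd : ℤ) : ℝ) = y.2 + h.toAdd + g.toAdd
    push_cast
    ring)

/-- the covering -/
def pr (y : SR) : SS := (y.1, (y.2 : AddCircle (1 : ℝ)))

theorem coe_int {s t : ℝ} : (s : AddCircle (1 : ℝ)) = t ↔ ∃ n : ℤ, s = t + n := by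
  rw [← sub_eq_zero, ← AddCircle.coe_sub, AddCircle.coe_eq_zero_iff]
  simp only [zsmul_eq_mul, mul_one]
  exact exists_congr fun n => ⟨fun e => by linarith, fun e => by linarith⟩

theorem pr_cover : IsQuotientCoveringMap pr (Multiplicative ℤ) where
  toIsQuotientMap :=
    (IsOpenQuotientMap.id.prodMap QuotientAddGroup.isOpenQuotientMap_mk).isQuotientMap
  continuous_const_smul _ := continuous_fst.prodMk (continuous_snd.add continuous_const)
  apply_eq_iff_mem_orbit := by
    intro y z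
    constructor
    · intro e
      obtain ⟨n, hn⟩ := coe_int.1 (congrArg Prod.snd e)
      exact ⟨.ofAdd n, Prod.ext (congrArg Prod.fst e).symm hn.symm⟩
    · rintro ⟨g, rfl⟩
      exact Prod.ext rfl (coe_int.2 ⟨_, rfl⟩)
  disjoint y := by
    refine ⟨Prod.snd ⁻¹' Ioo (y.2 - 1 / 2) (y.2 + 1 / 2),
      (isOpen_Ioo.preimage continuous_snd).mem_nhds ⟨by linarith, by linarith⟩, ?_⟩
    rintro g ⟨_, ⟨z, ⟨a, b⟩, rfl⟩, c, d⟩
    change _ < z.2 + g.toAdd at c
    change z.2 + g.toAdd < _ at d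
    have p : (g.toAdd : ℝ) < 1 := by linarith
    have q : -1 < (g.toAdd : ℝ) := by linarith
    have p' : g.toAdd < 1 := by exact_mod_cast p
    have q' : -1 < g.toAdd := by exact_mod_cast q
    exact toAdd_eq_zero.1 (by omega)

instance : ConnectedSpace SS := pr_cover.surjective.connectedSpace pr_cover.continuous

/-- two continuous lifts of the same angle differ by a constant -/
theorem lifts {X : Type} [TopologicalSpace X] {x : X} {f g : X → ℝ} (hf : ContinuousAt f x)
    (hg : ContinuousAt g x) (h : ∀ᶠ y in 𝓝 x, (f y : AddCircle (1 : ℝ)) = g y) :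
    ∀ᶠ y in 𝓝 x, f y = g y + (f x - g x) := by
  obtain ⟨k, hk⟩ := coe_int.1 h.self_of_nhds
  filter_upwards [h, (hf.sub hg).preimage_mem_nhds
    (Ioo_mem_nhds (sub_one_lt _) (lt_add_one _))] with y a b
  obtain ⟨n, hn⟩ := coe_int.1 a
  obtain ⟨b, c⟩ := b
  simp only [Pi.sub_apply] at b c
  have p : (k : ℝ) - 1 < n := by linarith
  have q : (n : ℝ) < k + 1 := by linarith
  have p' : k - 1 < n := by exact_mod_cast p
  have q' : n < k + 1 := by exact_mod_cast q
  rw [hn, hk, show n = k by omega]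
  ring

/-- polar coordinates -/
noncomputable def pol : ({0}ᶜ : Set V) ≃ₜ SR :=
  (homeomorphUnitSphereProd V).trans
    ((Homeomorph.refl _).prodCongr Real.expOrderIso.toHomeomorph.symm)

open Classical in
/-- the inverse of all charts -/
noncomputable def FF (v : V) : SS := if h : v = 0 then pr Classical.ofNonempty else pr (pol ⟨v, h⟩)

theorem ff_snd {v : V} (h : v ≠ 0) : (FF v).2 = (Real.log ‖v‖ : ℝ) := by
  rw [FF, dif_neg h, Real.log_of_pos (norm_pos_iff.2 h)]
  exact congrArg (fun r => ((Real.expOrderIso.symm r : ℝ) : AddCircle (1 : ℝ)))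
    (Subtype.ext (homeomorphUnitSphereProd_apply_snd_coe V ⟨v, h⟩))

theorem ff_fst {v : V} (h : v ≠ 0) : ((FF v).1 : V) = ‖v‖⁻¹ • v := by
  rw [FF, dif_neg h]
  exact homeomorphUnitSphereProd_apply_fst_coe V ⟨v, h⟩

theorem ff_loc : IsLocalHomeomorphOn FF {0}ᶜ := by
  have a : IsLocalHomeomorph (FF ∘ (Subtype.val : ({0}ᶜ : Set V) → V)) := by
    have : FF ∘ (Subtype.val : ({0}ᶜ : Set V) → V) = pr ∘ pol := funext fun v => dif_neg v.2
    rw [this]
    exact pr_cover.isCoveringMap.isLocalHomeomorph.comp pol.isLocalHomeomorph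
  have := (a.isLocalHomeomorphOn (s := univ)).of_comp_right
    (isOpen_compl_singleton.isOpenEmbedding_subtypeVal.isLocalHomeomorph.isLocalHomeomorphOn)
  rwa [image_univ, Subtype.range_coe] at this

theorem ff_chart (x : SS) : ∃ c : OpenPartialHomeomorph SS V,
    (⇑c.symm = FF ∧ 0 ∉ c.target) ∧ x ∈ c.source := by
  obtain ⟨y, rfl⟩ := pr_cover.surjective x
  obtain ⟨v, rfl⟩ := pol.surjective y
  obtain ⟨e, h1, h2⟩ := ff_loc v.1 v.2
  refine ⟨(e.restrOpen _ isOpen_compl_singleton).symm, ⟨h2.symm, fun a => a.2 rfl⟩, ?_⟩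
  have := (e.restrOpen _ isOpen_compl_singleton).map_source ⟨h1, v.2⟩
  rwa [show (e.restrOpen _ isOpen_compl_singleton) v.1 = pr (pol v) from
    (congrFun h2 _).symm.trans (dif_neg v.2)] at this

noncomputable instance : ChartedSpace V SS where
  atlas := {c | ⇑c.symm = FF ∧ 0 ∉ c.target}
  chartAt x := (ff_chart x).choose
  mem_chart_source x := (ff_chart x).choose_spec.2
  chart_mem_atlas x := (ff_chart x).choose_spec.1

theorem chart_ne {c} (hc : c ∈ atlas V SS) {y} (hy : y ∈ c.source) : c y ≠ 0 :=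
  fun e => hc.2 (e ▸ c.map_source hy)

theorem chart_ff {c} (hc : c ∈ atlas V SS) {y} (hy : y ∈ c.source) : FF (c y) = y :=
  hc.1 ▸ c.left_inv hy

theorem log_cont {X : Type} [TopologicalSpace X] {x : X} {f : X → V} (hf : ContinuousAt f x)
    (h : f x ≠ 0) : ContinuousAt (fun y => Real.log ‖f y‖) x :=
  hf.norm.log (norm_ne_zero_iff.2 h)

instance : IsManifold 𝓘(ℝ, V) ∞ SS := by
  refine isManifold_of_contDiffOn _ _ _ fun c c' hc hc' => ?_
  simp only [mfld_simps]
  intro v hv
  have o : c.target ∩ c.symm ⁻¹' c'.source ∈ 𝓝 v := (c.symm ≫ₕ c').open_source.mem_nhds hv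
  have k : ∀ w ∈ c.target ∩ c.symm ⁻¹' c'.source, w ≠ 0 ∧ c' (c.symm w) ≠ 0 ∧
      FF (c' (c.symm w)) = FF w := fun w hw =>
    ⟨fun e => hc.2 (e ▸ hw.1), chart_ne hc' hw.2, (chart_ff hc' hw.2).trans (congrFun hc.1 w)⟩
  have l := lifts (log_cont ((c.symm ≫ₕ c').continuousAt hv) (k v hv).2.1)
    (log_cont continuousAt_id (k v hv).1) (by
      filter_upwards [o] with w hw
      exact (ff_snd (k w hw).2.1).symm.trans ((congrArg Prod.snd (k w hw).2.2).trans
        (ff_snd (k w hw).1)))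
  generalize Real.log ‖(c.symm ≫ₕ c') v‖ - Real.log ‖id v‖ = r at l
  refine (ContDiffAt.congr_of_eventuallyEq (f := fun w => Real.exp r • w) (by fun_prop)
    ?_).contDiffWithinAt
  filter_upwards [o, l] with w hw e
  obtain ⟨a, b, d⟩ := k w hw
  change Real.log ‖c' (c.symm w)‖ = Real.log ‖w‖ + r at e
  show c' (c.symm w) = _
  generalize c' (c.symm w) = u at b d e
  have f : ‖u‖⁻¹ • u = ‖w‖⁻¹ • w := by rw [← ff_fst a, ← ff_fst b, d]
  have n : ‖u‖ = ‖w‖ * Real.exp r := by
    rw [← Real.exp_log (norm_pos_iff.2 b), e, Real.exp_add, Real.exp_log (norm_pos_iff.2 a)]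
  rw [← smul_inv_smul₀ (norm_ne_zero_iff.2 b) u, f, n, smul_smul, mul_right_comm,
    mul_inv_cancel₀ (norm_ne_zero_iff.2 a), one_mul]

/-- the charts whose last coordinate is a lift of the angle -/
def AA : Set (OpenPartialHomeomorph SS ((ℝ × ℝ) × ℝ)) :=
  {e | ∀ y ∈ e.source, ((e y).2 : AddCircle (1 : ℝ)) = y.2}

theorem pair {X : Type} [TopologicalSpace X] {x : X} {P : X → Prop} (h : ∀ᶠ y in 𝓝 x, P y) :
    ∀ᶠ q in 𝓝 (x, x), P q.1 ∧ P q.2 := h.prod_nhds h

theorem aa_fol : Sm.Foliation AA where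
  cov x := by
    obtain ⟨a, ha⟩ : ∃ a : ℝ, (a : AddCircle (1 : ℝ)) = x.2 := QuotientAddGroup.mk_surjective x.2
    have ne : x.2 ≠ ((a + 1 / 2 : ℝ) : AddCircle (1 : ℝ)) := fun e => by
      obtain ⟨n, hn⟩ := coe_int.1 (ha.trans e)
      have : ((2 * n + 1 : ℤ) : ℝ) = 0 := by push_cast; linarith
      have : 2 * n + 1 = 0 := by exact_mod_cast this
      omega
    refine ⟨((chartAt (EuclideanSpace ℝ (Fin 2)) x.1).transHomeomorph
      ((EuclideanSpace.equiv (Fin 2) ℝ).toHomeomorph.trans Homeomorph.finTwoArrow)).prod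
      (AddCircle.openPartialHomeomorphCoe (1 : ℝ) (a + 1 / 2)).symm, fun y hy => ?_,
      mem_chart_source (EuclideanSpace ℝ (Fin 2)) x.1, ne⟩
    exact (AddCircle.openPartialHomeomorphCoe (1 : ℝ) (a + 1 / 2)).right_inv hy.2
  ord e he e' he' x hx := by
    have l := lifts (e.continuousAt hx.1).snd (e'.continuousAt hx.2).snd (by
      filter_upwards [e.open_source.mem_nhds hx.1, e'.open_source.mem_nhds hx.2] with y a b
      exact (he y a).trans (he' y b).symm)
    filter_upwards [pair l] with q a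
    rw [a.1, a.2, add_lt_add_iff_right]
  tan e he x hx := by
    have hc := chart_mem_atlas V x
    have hs := mem_chart_source V x
    unfold Sm.dif
    generalize chartAt V x = c at hc hs
    have o := c.open_source.mem_nhds hs
    have l := lifts (e.continuousAt hx).snd (log_cont (c.continuousAt hs) (chart_ne hc hs)) (by
      filter_upwards [e.open_source.mem_nhds hx, o] with y a b
      rw [he y a, ← ff_snd (chart_ne hc b), chart_ff hc b])
    refine ⟨innerSL ℝ (c x), fun a => chart_ne hc hs ?_, fun η hη => ?_⟩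
    · exact inner_self_eq_zero.1 (DFunLike.congr_fun a (c x))
    filter_upwards [pair l, pair o,
      pair ((c.continuousAt hs).preimage_mem_nhds (Metric.ball_mem_nhds _ hη))] with q a b d f
    rw [a.1, a.2, add_lt_add_iff_right]
    refine Real.log_lt_log (norm_pos_iff.2 (chart_ne hc b.1)) ?_
    have d1 : ‖c q.1 - c x‖ < η := mem_ball_iff_norm.1 d.1
    have d2 : ‖c q.2 - c x‖ < η := mem_ball_iff_norm.1 d.2
    generalize c q.1 = u at *
    generalize c q.2 = v at *
    rw [innerSL_apply_apply] at f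
    have g : ‖v‖ ^ 2 - ‖u‖ ^ 2 = 2 * ⟪c x, v - u⟫ + ⟪u - c x, v - u⟫ + ⟪v - c x, v - u⟫ := by
      simp only [inner_sub_left, inner_sub_right, real_inner_self_eq_norm_sq, real_inner_comm u v]
      ring
    have g1 := (abs_le.1 (abs_real_inner_le_norm (u - c x) (v - u))).1
    have g2 := (abs_le.1 (abs_real_inner_le_norm (v - c x) (v - u))).1
    refine lt_of_pow_lt_pow_left₀ 2 (norm_nonneg _) ?_
    nlinarith [norm_nonneg (v - u)]

theorem aa_taut : Sm.Taut AA := fun x => by
  obtain ⟨a, ha⟩ : ∃ a : ℝ, (a : AddCircle (1 : ℝ)) = x.2 := QuotientAddGroup.mk_surjective x.2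
  have c : Continuous fun t : ℝ => pr (x.1, t + a) :=
    pr_cover.continuous.comp (continuous_const.prodMk (continuous_id.add continuous_const))
  have z : pr (x.1, 0 + a) = x := Prod.ext rfl (by rw [zero_add]; exact ha)
  refine ⟨_, c, fun t => Prod.ext rfl (coe_int.2 ⟨1, by push_cast; ring⟩),
    ⟨(Path.refl x).cast rfl z, fun t e _ _ => .of_forall fun s => rfl⟩, fun t e he ht => ?_⟩
  have l := lifts ((e.continuousAt ht).comp (f := fun t : ℝ => pr (x.1, t + a))
    c.continuousAt).snd (g := fun t => t + a) (by fun_prop) (by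
      filter_upwards [c.continuousAt.preimage_mem_nhds (e.open_source.mem_nhds ht)] with s b
      exact he _ b)
  filter_upwards [pair l] with q b d
  have b1 := b.1
  have b2 := b.2
  simp only [Function.comp_apply] at b1 b2
  linarith

theorem ss_pi (m : SS) : Nonempty (FundamentalGroup SS m ≃* Multiplicative ℤ) := by
  obtain ⟨y, hy⟩ := pr_cover.surjective m
  exact ⟨(pr_cover.fundamentalGroupEquiv ⟨y, hy⟩).trans (MulEquiv.inv' _).symm⟩

theorem hyp_int {G : Type} [Group G] (e : G ≃* Multiplicative ℤ) :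
    (∀ a : G, a ≠ 1 → ¬ IsOfFinOrder a) ∧ ∀ E : Subgroup G, IsCyclic E := by
  have := isCyclic_of_surjective e.symm e.symm.surjective
  exact ⟨fun a ha k => ha (e.injective ((e.toMonoidHom.isOfFinOrder k).eq_one'.trans
    (map_one e).symm)), fun _ => inferInstance⟩

/-- All hypotheses of the smooth form hold together. -/
theorem nonvac4 : ∃ (M : Type) (_ : TopologicalSpace M)
    (_ : ChartedSpace (EuclideanSpace ℝ (Fin 3)) M)
    (A : Set (OpenPartialHomeomorph M ((ℝ × ℝ) × ℝ))) (m : M),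
    IsManifold 𝓘(ℝ, EuclideanSpace ℝ (Fin 3)) ∞ M ∧ CompactSpace M ∧ T2Space M ∧
    ConnectedSpace M ∧ Sm.Foliation A ∧ Sm.Taut A ∧
    Nonempty (FundamentalGroup M m ≃* Multiplicative ℤ) ∧
    (∀ a : FundamentalGroup M m, a ≠ 1 → ¬ IsOfFinOrder a) ∧
    ∀ E : Subgroup (FundamentalGroup M m), IsCyclic E :=
  ⟨SS, _, _, AA, Classical.ofNonempty, inferInstance, inferInstance, inferInstance, inferInstance,
    aa_fol, aa_taut, ss_pi _, hyp_int (ss_pi _).some⟩

end Pool.Agent.Work.MP_3d425c_gt.Ex
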