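import Pool.Agent.Work.MP_3d425c_gt.Ex.Kuhnel

/-! The realisation of the periodic triangulation, its covering action and its fibration. -/

namespace Pool.Agent.Work.MP_3d425c_gt.Ex
open Set Function Topology Relation Pool.Agent.Work.MP_3d425c_gt.Tp

/-- the realisation -/
def RR : Set (ℤ → ℝ) := ⋃ x ∈ KK, spx (range x)

theorem rr_un : Un RR := un_of fun _ hβ =>
  let ⟨_, hx, a⟩ := mem_iUnion₂.1 hβ
  ⟨_, a, subset_biUnion_of_mem (u := fun x => spx (range x)) hx⟩

theorem rr_sc : IsSimplyConnected RR := by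
  refine sc_real rr_un (pc_real ⟨_, tet_mem 0 0⟩ k_conn) fun H _ ψ h => ?_
  have t : ∀ n i a b c, ψ (tet n i a) (tet n i b) * ψ (tet n i b) (tet n i c) =
      ψ (tet n i a) (tet n i c) := fun n i a b c => by
    obtain ⟨β, h1, h2⟩ := exists_int (finite_range (tet n i)) (range_nonempty _)
    exact h β (mem_biUnion (tet_mem n i) h1) _ (h2 ⟨a, rfl⟩) _ (h2 ⟨b, rfl⟩) _ (h2 ⟨c, rfl⟩)
  obtain ⟨s, hs⟩ := ex_prod H fun n => ψ n (n + 1)
  have e0 : ∀ n, ψ n n = 1 := fun n => by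
    have := t n 0 0 0 0
    simpa [tet, off_0] using this
  have e1 : ∀ n, ψ n (n + 1) = s n * (s (n + 1))⁻¹ := fun n => by rw [hs n, mul_inv_cancel_right]
  have e2 : ∀ n, ψ n (n + 2) = s n * (s (n + 2))⁻¹ := fun n => by
    have : ψ (n + 0) (n + 1) * ψ (n + 1) (n + 2) = ψ (n + 0) (n + 2) := t n 2 0 1 2
    rw [add_zero, show n + 2 = n + 1 + 1 by ring, e1, e1] at this
    rw [show n + 2 = n + 1 + 1 by ring, ← this]
    group
  have e3 : ∀ n, ψ n (n + 3) = s n * (s (n + 3))⁻¹ := fun n => by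
    have : ψ (n + 0) (n + 1) * ψ (n + 1) (n + 3) = ψ (n + 0) (n + 3) := t n 1 0 1 2
    rw [add_zero, show n + 3 = n + 1 + 2 by ring, e1, e2] at this
    rw [show n + 3 = n + 1 + 2 by ring, ← this]
    group
  have e4 : ∀ n, ψ n (n + 4) = s n * (s (n + 4))⁻¹ := fun n => by
    have : ψ (n + 0) (n + 1) * ψ (n + 1) (n + 4) = ψ (n + 0) (n + 4) := t n 1 0 1 3
    rw [add_zero, show n + 4 = n + 1 + 3 by ring, e1, e3] at this
    rw [show n + 4 = n + 1 + 3 by ring, ← this]
    group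
  have up : ∀ u v, u ≤ v → v ≤ u + 4 → ψ u v = s u * (s v)⁻¹ := fun u v a b => by
    obtain rfl | rfl | rfl | rfl | rfl :
      v = u ∨ v = u + 1 ∨ v = u + 2 ∨ v = u + 3 ∨ v = u + 4 := by omega
    exacts [by simp [e0], e1 _, e2 _, e3 _, e4 _]
  refine ⟨s, fun β hβ u hu v hv => ?_⟩
  have c := h β hβ u hu v hv u hu
  obtain ⟨_, ⟨n, i, rfl⟩, a⟩ := mem_iUnion₂.1 hβ
  obtain ⟨p, rfl⟩ := a.2.1 hu
  obtain ⟨q, rfl⟩ := a.2.1 hv
  obtain ⟨d, hd⟩ := off_bd i p
  obtain ⟨d', hd'⟩ := off_bd i q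
  rcases le_total (tet n i p) (tet n i q) with k | k
  · exact up _ _ k (by simp only [tet]; omega)
  · rw [up _ _ k (by simp only [tet]; omega), e0] at c
    rw [eq_inv_of_mul_eq_one_left c]
    group

/-- the covering space -/
def YY : Type := RR

instance : TopologicalSpace YY := inferInstanceAs (TopologicalSpace RR)

instance : SimplyConnectedSpace YY := rr_sc

theorem shift_mem (g : ℤ) {σ : Set ℤ} {β : ℤ → ℝ} (h : β ∈ spx σ) :
    (fun v => β (v - g)) ∈ spx ((g + ·) '' σ) :=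
  ⟨fun _ => h.1 _, fun v hv => ⟨v - g, h.2.1 hv, by simp⟩,
    (finsum_comp_equiv (Equiv.subRight g)).trans h.2.2⟩

instance : MulAction GZ YY where
  smul g y := ⟨fun v => y.1 (v - g.toAdd), by
    obtain ⟨x, hx, a⟩ := mem_iUnion₂.1 y.2
    refine mem_biUnion (k_cpx.inv g x hx) ?_
    have := shift_mem g.toAdd a
    rwa [← range_comp] at this⟩
  one_smul y := Subtype.ext (funext fun v => congrArg y.1 (sub_zero v))
  mul_smul g h y := Subtype.ext (funext fun v => congrArg y.1 (sub_sub v _ _).symm)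

theorem k_bary : Bary GZ KK (fun y : YY => y.1) where
  emb := IsEmbedding.subtypeVal
  onto := Subtype.range_coe
  equi _ y v := congrArg y.1 (add_sub_cancel_left _ v)

/-- the height -/
noncomputable def hgt (y : YY) : ℝ := ∑ᶠ v : ℤ, (v : ℝ) * y.1 v

theorem hgt_eq (y : YY) (s : Finset ℤ) (h : support y.1 ⊆ s) :
    hgt y = ∑ v ∈ s, (v : ℝ) * y.1 v :=
  finsum_eq_sum_of_support_subset _ fun _ hv => h (right_ne_zero_of_mul hv)

theorem hgt_cont : Continuous hgt := by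
  refine continuous_iff_continuousAt.2 fun y => ?_
  obtain ⟨u, hu⟩ := supp_ne (rr_un _ y.2).1
  have c : ∀ v, Continuous fun z : YY => z.1 v :=
    fun v => (continuous_apply v).comp continuous_subtype_val
  have : Continuous fun z : YY => ∑ v ∈ Finset.Icc (u - 4) (u + 4), (v : ℝ) * z.1 v :=
    continuous_finsetSum _ fun v _ => continuous_const.mul (c v)
  refine this.continuousAt.congr ?_
  filter_upwards [(isOpen_ne_fun (c u) continuous_const).mem_nhds hu] with z hz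
  refine (hgt_eq z _ fun v hv => ?_).symm
  obtain ⟨_, ⟨n, i, rfl⟩, a⟩ := mem_iUnion₂.1 z.2
  obtain ⟨p, rfl⟩ := a.2.1 hz
  obtain ⟨q, rfl⟩ := a.2.1 hv
  obtain ⟨d, hd⟩ := off_bd i p
  obtain ⟨d', hd'⟩ := off_bd i q
  simp only [Finset.coe_Icc, mem_Icc, tet]
  omega

theorem hgt_smul (g : GZ) (y : YY) : hgt (g • y) = hgt y + (g.toAdd : ℤ) := by
  have h := (rr_un _ y.2).1
  have f := spx_fin h
  have e : hgt (g • y) = ∑ᶠ v : ℤ, ((v : ℝ) * y.1 v + (g.toAdd : ℤ) * y.1 v) := by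
    refine Eq.trans ?_ (finsum_comp_equiv (Equiv.subRight g.toAdd))
    refine finsum_congr fun v => ?_
    show (v : ℝ) * y.1 (v - g.toAdd) = ((v - g.toAdd : ℤ) : ℝ) * y.1 (v - g.toAdd) +
      (g.toAdd : ℤ) * y.1 (v - g.toAdd)
    push_cast
    ring
  rw [e, finsum_add_distrib (f.subset fun v hv => right_ne_zero_of_mul hv)
    (f.subset fun v hv => right_ne_zero_of_mul hv), ← mul_finsum' _ _ f, h.2.2, mul_one]
  rfl

theorem hgt_edge {u w : ℤ} (h : u < w) (y : YY) (a : y.1 ∈ spx {u, w}) :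
    hgt y = u + (w - u) * y.1 w := by
  have s : support y.1 ⊆ ({u, w} : Finset ℤ) := by simpa using a.2.1
  have e := a.2.2
  rw [finsum_eq_sum_of_support_subset _ s, Finset.sum_pair h.ne] at e
  rw [hgt_eq y _ s, Finset.sum_pair h.ne, show y.1 u = 1 - y.1 w by linarith]
  ring

theorem k_normal : Normal GZ KK (fun y : YY => y.1) fun _ => hgt where
  cont _ _ := hgt_cont.continuousOn
  mono x hx i j a y z b c d := by
    have k := (tet_lt hx i j).2 a
    have : (x i : ℝ) < x j := by exact_mod_cast k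
    rw [hgt_edge k y b, hgt_edge k z c]
    nlinarith
  same _ _ _ _ _ _ _ _ a := a
  inv g _ _ y z _ _ a := by
    rw [hgt_smul, hgt_smul]
    linarith

theorem k_cover :
    IsQuotientCoveringMap (Quotient.mk (MulAction.orbitRel GZ YY)) GZ where
  toIsQuotientMap := isQuotientMap_quotient_mk'
  continuous_const_smul g := k_bary.emb.continuous_iff.2
    (continuous_pi fun v => (continuous_apply (v - g.toAdd)).comp k_bary.emb.continuous)
  apply_eq_iff_mem_orbit := Quotient.eq''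
  disjoint y := by
    refine ⟨hgt ⁻¹' Ioo (hgt y - 1 / 2) (hgt y + 1 / 2),
      (isOpen_Ioo.preimage hgt_cont).mem_nhds ⟨by linarith, by linarith⟩, ?_⟩
    rintro g ⟨_, ⟨z, ⟨a, b⟩, rfl⟩, c, d⟩
    rw [hgt_smul] at c d
    have p : (g.toAdd : ℝ) < 1 := by linarith
    have q : -1 < (g.toAdd : ℝ) := by linarith
    have p' : g.toAdd < 1 := by exact_mod_cast p
    have q' : -1 < g.toAdd := by exact_mod_cast q
    exact toAdd_eq_zero.1 (by omega)

/-- All hypotheses of the topological form hold together. -/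
theorem nonvac3 : ∃ (M Y G V : Type) (_ : TopologicalSpace M) (_ : TopologicalSpace Y)
    (_ : SimplyConnectedSpace Y) (_ : Group G) (_ : MulAction G Y) (_ : MulAction G V)
    (p : Y → M) (K : Set (Fin 4 → V)) (b : Y → V → ℝ) (ht : (Fin 4 → V) → Y → ℝ),
    IsQuotientCoveringMap p G ∧ (∀ a : G, a ≠ 1 → ¬ IsOfFinOrder a) ∧
    (∀ a : G, a ≠ 1 → IsCyclic (Subgroup.centralizer ({a} : Set G))) ∧
    (∀ E : Subgroup G, E.FG → IsCyclic E ∨ E.FiniteIndex ∨
      ∃ f : E →* Multiplicative (ℤ × ℤ), Function.Surjective f) ∧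
    Cpx G K ∧ Cyc G K ∧ Bary G K b ∧ Normal G K b ht ∧ Nonempty M :=
  ⟨_, YY, GZ, ℤ, _, _, inferInstance, _, _, _, _, KK, _, _, k_cover,
    fun _ ha k => ha k.eq_one', fun _ _ => inferInstance, fun _ _ => .inl inferInstance,
    k_cpx, k_cyc, k_bary, k_normal, inferInstance⟩

end Pool.Agent.Work.MP_3d425c_gt.Ex
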