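import Pool.Agent.Work.MP_3d425c_gt.Ex.Top
import Pool.Agent.Work.MP_3d425c_gt.Tp.TDefs

/-! The fibration of the periodic triangulation is taut. -/

namespace Pool.Agent.Work.MP_3d425c_gt.Ex
open Set Function Relation Pool.Agent.Work.MP_3d425c_gt.Tp

theorem hgt_bd {σ : Set ℤ} (y : YY) (h : y.1 ∈ spx σ) {a b : ℤ} (k : ∀ v ∈ σ, a ≤ v ∧ v ≤ b) :
    a ≤ hgt y ∧ hgt y ≤ b := by
  have s : support y.1 ⊆ (spx_fin h).toFinset := by simp
  have e := h.2.2
  rw [finsum_eq_sum_of_support_subset _ s] at e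
  rw [hgt_eq y _ s, ← mul_one (a : ℝ), ← mul_one (b : ℝ), ← e, Finset.mul_sum, Finset.mul_sum]
  constructor <;> refine Finset.sum_le_sum fun v hv => mul_le_mul_of_nonneg_right ?_ (h.1 v)
  · exact_mod_cast (k v (h.2.1 (by simpa using hv))).1
  · exact_mod_cast (k v (h.2.1 (by simpa using hv))).2

theorem hgt_vt (y : YY) {u : ℤ} (h : y.1 ∈ spx {u}) : hgt y = u :=
  have := hgt_bd y h (a := u) (b := u) fun _ e => ⟨e.ge, e.le⟩
  this.2.antisymm this.1

/-- a vertex -/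
noncomputable def vt (u : ℤ) : YY :=
  ⟨dl u, mem_biUnion (tet_mem u 0) (dl_mem ⟨0, add_zero u⟩)⟩

theorem tet_bd (n : ℤ) (i : Fin 3) : ∀ v ∈ range (tet n i), n ≤ v ∧ v ≤ n + 4 := by
  rintro _ ⟨a, rfl⟩
  obtain ⟨d, hd⟩ := off_bd i a
  simp only [tet]
  omega

theorem k_taut : Taut GZ KK (fun y : YY => y.1) fun _ => hgt where
  btw x hx i j y z w a b c := by
    rw [hgt_vt z b, hgt_vt w c]
    refine hgt_bd y a ?_
    rintro _ ⟨k, hk, rfl⟩
    exact ⟨not_lt.1 fun e => hk.1.not_gt ((tet_lt hx _ _).1 e),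
      not_lt.1 fun e => hk.2.not_gt ((tet_lt hx _ _).1 e)⟩
  loop y := by
    obtain ⟨_, ⟨n, i, rfl⟩, a⟩ := mem_iUnion₂.1 y.2
    have o : ∀ j, off j 3 = 4 := by decide
    have v : ∀ u, hgt (vt u) = u := fun u => hgt_vt _ (dl_mem rfl)
    have b : ((Multiplicative.ofAdd (5 : ℤ)) • y).1 ∈ spx (range (tet (5 + n) i)) := by
      have := shift_mem 5 a
      rwa [← range_comp, show (5 + ·) ∘ tet n i = tet (5 + n) i from smul_tet (.ofAdd 5) n i] at this
    refine ⟨.ofAdd 5, vt (n + 4), vt (5 + n),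
      .single ⟨_, tet_mem n i, a, dl_mem ⟨3, by simp [tet, o]⟩, ?_⟩,
      ⟨_, tet_mem (n + 4) 2, dl_mem ⟨0, add_zero _⟩, dl_mem ⟨1, ?_⟩, ?_⟩,
      .single ⟨_, tet_mem (5 + n) i, dl_mem ⟨0, by simp [tet, off_0]⟩, b, ?_⟩⟩
    · beta_reduce
      rw [v]
      exact (hgt_bd y a (tet_bd n i)).2
    · show n + 4 + 1 = 5 + n
      ring
    · beta_reduce
      rw [v, v]
      push_cast
      linarith
    · beta_reduce
      rw [v]
      exact (hgt_bd _ b (tet_bd _ i)).1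

/-- All hypotheses of the taut topological form hold together. -/
theorem nonvac3t : ∃ (M Y G V : Type) (_ : TopologicalSpace M) (_ : TopologicalSpace Y)
    (_ : SimplyConnectedSpace Y) (_ : Group G) (_ : MulAction G Y) (_ : MulAction G V)
    (p : Y → M) (K : Set (Fin 4 → V)) (b : Y → V → ℝ) (ht : (Fin 4 → V) → Y → ℝ),
    IsQuotientCoveringMap p G ∧ (∀ a : G, a ≠ 1 → ¬ IsOfFinOrder a) ∧
    (∀ E : Subgroup G, IsCyclic E) ∧
    Cpx G K ∧ Bary G K b ∧ Normal G K b ht ∧ Taut G K b ht ∧ Nonempty M :=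
  ⟨_, YY, GZ, ℤ, _, _, inferInstance, _, _, _, _, KK, _, _, k_cover,
    fun _ ha k => ha k.eq_one', fun _ => inferInstance, k_cpx, k_bary, k_normal, k_taut,
    inferInstance⟩

end Pool.Agent.Work.MP_3d425c_gt.Ex
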