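import Pool.Agent.Work.MP_3d425c_gt.Ex.Quo

/-! The triangle group `(2, 4, 6)` acting on the hyperbolic plane and on the line that covers its
boundary. -/

namespace Pool.Agent.Work.MP_3d425c_gt.Ex.Tri
open Set Real Quo Matrix
open scoped ContDiff

abbrev V : Type := Fin 3 → ℝ
abbrev Z3 : Type := Matrix (Fin 3) (Fin 3) ℤ

/-- height on the hyperboloid -/
noncomputable def ht (v : E) : ℝ := √(1 + (v 0 ^ 2 + v 1 ^ 2) / 3)

theorem ht_sq (v : E) : 3 * ht v ^ 2 = 3 + v 0 ^ 2 + v 1 ^ 2 := by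
  rw [ht, sq_sqrt (by positivity)]
  ring

theorem one_le_ht (v : E) : 1 ≤ ht v := one_le_sqrt.2 (le_add_of_nonneg_right (by positivity))

theorem ht_eq {v : E} {s : ℝ} (h : 0 ≤ s) (e : 3 * s ^ 2 = 3 + v 0 ^ 2 + v 1 ^ 2) : ht v = s := by
  rw [ht, sqrt_eq_iff_mul_self_eq (by positivity) h]
  linarith

theorem ht_smooth : ContDiff ℝ ∞ ht := by
  refine ContDiff.sqrt (by fun_prop) fun v => ?_
  positivity

/-- the point of the hyperboloid -/
noncomputable def P (v : E) : V := ![ht v, v 0, v 1]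

/-- the null ray -/
noncomputable def nl (θ : ℝ) : V := ![1, √3 * cos θ, √3 * sin θ]

/-- the form -/
def B (u w : V) : ℝ := -3 * u 0 * w 0 + u 1 * w 1 + u 2 * w 2

/-- action of an integer matrix -/
def ac (L : Z3) (u : V) : V := (L.map ((↑) : ℤ → ℝ)).mulVec u

theorem ac_apply (L : Z3) (u : V) (i : Fin 3) :
    ac L u i = L i 0 * u 0 + L i 1 * u 1 + L i 2 * u 2 := by
  simp [ac, mulVec, dotProduct, Fin.sum_univ_three]

theorem ac_mul (L K : Z3) (u : V) : ac (L * K) u = ac L (ac K u) := by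
  funext i
  simp only [ac_apply, Matrix.mul_apply, Fin.sum_univ_three]
  push_cast
  ring

theorem ac_one (u : V) : ac 1 u = u := by
  funext i
  fin_cases i <;> simp [ac_apply]

theorem ac_smul (L : Z3) (r : ℝ) (u : V) : ac L (r • u) = r • ac L u := mulVec_smul _ _ _

/-- `g` is the product of the isometry `L` and a lift `f` of its boundary action -/
structure Dt (g : E → E) (L : Z3) (f : ℝ → ℝ) : Prop where
  iso : ∀ u w, B (ac L u) (ac L w) = B u w
  sm : ContDiff ℝ ∞ f
  per : ∀ θ, f (θ + 2 * π) = f θ + 2 * π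
  base : ∀ v, P (g v) = ac L (P v)
  fib : ∀ v, g v 2 = f (v 2)
  ray : ∀ θ, ∃ r > (0 : ℝ), ac L (nl θ) = r • nl (f θ)

variable {g k : E → E} {L K : Z3} {f e : ℝ → ℝ}

theorem Dt.comp (a : Dt g L f) (b : Dt k K e) : Dt (g ∘ k) (L * K) (f ∘ e) where
  iso u w := by rw [ac_mul, ac_mul, a.iso, b.iso]
  sm := a.sm.comp b.sm
  per θ := by simp [a.per, b.per]
  base v := by rw [ac_mul, ← b.base, ← a.base]; rfl
  fib v := by simp [a.fib, b.fib]
  ray θ := by
    obtain ⟨r, hr, h⟩ := b.ray θ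
    obtain ⟨s, hs, h'⟩ := a.ray (e θ)
    exact ⟨r * s, mul_pos hr hs, by rw [ac_mul, h, ac_smul, h', smul_smul]; rfl⟩

theorem dt_id : Dt id 1 id where
  iso u w := by rw [ac_one, ac_one]
  sm := contDiff_id
  per _ := rfl
  base v := (ac_one _).symm
  fib _ := rfl
  ray θ := ⟨1, one_pos, by rw [ac_one, one_smul]; rfl⟩

theorem Dt.smooth (a : Dt g L f) : ContDiff ℝ ∞ g := by
  have h0 : ∀ v, g v 0 = L 1 0 * ht v + L 1 1 * v 0 + L 1 2 * v 1 := fun v =>
    (congrFun (a.base v) 1).trans (ac_apply _ _ _)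
  have h1 : ∀ v, g v 1 = L 2 0 * ht v + L 2 1 * v 0 + L 2 2 * v 1 := fun v =>
    (congrFun (a.base v) 2).trans (ac_apply _ _ _)
  have := ht_smooth
  have := a.sm
  refine contDiff_euclidean.2 fun i => ?_
  fin_cases i
  · simp only [Fin.zero_eta, h0]
    fun_prop
  · simp only [Fin.mk_one, h1]
    fun_prop
  · simp only [Fin.reduceFinMk, a.fib]
    fun_prop

theorem ext3 {v w : E} (h : P v = P w) (h2 : v 2 = w 2) : v = w := by
  ext i
  fin_cases i
  exacts [congrFun h 1, congrFun h 2, h2]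

theorem Dt.perz (a : Dt g L f) (θ : ℝ) (n : ℤ) : f (θ + n * (2 * π)) = f θ + n * (2 * π) := by
  have : Function.Periodic (fun θ => f θ - θ) (2 * π) := fun θ => by simp [a.per]
  have := this.int_mul n θ
  linarith

theorem Dt.mono (a : Dt g L f) (hg : Function.Injective g) : StrictMono f := by
  have inj : Function.Injective f := fun s t h => by
    have := hg (ext3 (v := g !₂[0, 0, s]) (w := g !₂[0, 0, t]) (by rw [a.base, a.base]; rfl)
      (by rw [a.fib, a.fib]; exact h))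
    exact congrArg (fun v : E => v 2) this
  refine (a.sm.continuous.strictMono_of_inj inj).resolve_right fun h => ?_
  have := h (show 0 < 0 + 2 * π by positivity)
  rw [a.per] at this
  linarith [pi_pos]

theorem Dt.uniq (a : Dt g L f) (b : Dt k L e) : ∃ n : ℤ, ∀ θ, f θ = e θ + n * (2 * π) := by
  have h : ∀ θ, Circle.exp (f θ) = Circle.exp (e θ) := fun θ => by
    obtain ⟨r, hr, h⟩ := a.ray θ
    obtain ⟨s, hs, h'⟩ := b.ray θ
    rw [h] at h'
    have h0 : r = s := by simpa [nl] using congrFun h' 0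
    subst h0
    have h1 : cos (f θ) = cos (e θ) := by simpa [nl, hr.ne'] using congrFun h' 1
    have h2 : sin (f θ) = sin (e θ) := by simpa [nl, hr.ne'] using congrFun h' 2
    ext
    apply Complex.ext <;> simp [Complex.exp_ofReal_mul_I_re, Complex.exp_ofReal_mul_I_im, h1, h2]
  obtain ⟨n, hn⟩ := Circle.exp_eq_exp.1 (h 0)
  refine ⟨n, congrFun (Circle.isCoveringMap_exp.eq_of_comp_eq a.sm.continuous
    (b.sm.continuous.add continuous_const) (funext fun θ => ?_) 0 hn)⟩
  exact (h θ).trans (Circle.exp_eq_exp.2 ⟨n, rfl⟩).symm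

/-- the quarter turn -/
noncomputable def a : Equiv.Perm E where
  toFun v := !₂[-v 1, v 0, v 2 + π / 2]
  invFun v := !₂[v 1, -v 0, v 2 - π / 2]
  left_inv v := by
    ext i
    fin_cases i <;> simp
  right_inv v := by
    ext i
    fin_cases i <;> simp

def La : Z3 := !![1, 0, 0; 0, 0, -1; 0, 1, 0]
def La' : Z3 := !![1, 0, 0; 0, 0, 1; 0, -1, 0]
def Lb : Z3 := !![2, -1, 0; 3, -2, 0; 0, 0, -1]

theorem ht_a (v : E) : ht (a v) = ht v := by simp [ht, a, add_comm]

theorem dt_a : Dt a La (· + π / 2) where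
  iso u w := by simp [B, ac_apply, La]; ring
  sm := by fun_prop
  per θ := by ring
  base v := by
    funext i
    fin_cases i <;> simp [P, ac_apply, La, ht_a] <;> simp [a]
  fib _ := rfl
  ray θ := ⟨1, one_pos, by
    funext i
    fin_cases i <;> simp [nl, ac_apply, La, cos_add_pi_div_two, sin_add_pi_div_two]⟩

theorem dt_a' : Dt (a⁻¹ : Equiv.Perm E) La' (· - π / 2) where
  iso u w := by simp [B, ac_apply, La']; ring
  sm := by fun_prop
  per θ := by ring
  base v := by
    have : ht (a.symm v) = ht v := by rw [← ht_a, Equiv.apply_symm_apply]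
    funext i
    fin_cases i <;> simp [P, ac_apply, La', this] <;> simp [a]
  fib _ := rfl
  ray θ := ⟨1, one_pos, by
    funext i
    fin_cases i <;> simp [nl, ac_apply, La', cos_sub_pi_div_two, sin_sub_pi_div_two]⟩

theorem s3 : √3 * √3 = (3 : ℝ) := mul_self_sqrt (by norm_num)

theorem den (θ : ℝ) : 0 < √3 - cos θ := by
  have : (1 : ℝ) < √3 := by rw [lt_sqrt (by norm_num)]; norm_num
  linarith [cos_le_one θ]

theorem den2 (θ : ℝ) : 0 < 2 - √3 * cos θ := by
  have : √3 < (2 : ℝ) := by rw [sqrt_lt' (by norm_num)]; norm_num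
  nlinarith [cos_le_one θ, sqrt_nonneg 3]

/-- the boundary action of the half turn -/
noncomputable def fb (θ : ℝ) : ℝ := θ + π + 2 * arctan (sin θ / (√3 - cos θ))

/-- the half turn -/
noncomputable def b0 (v : E) : E := !₂[3 * ht v - 2 * v 0, -v 1, fb (v 2)]

theorem ht_b0 (v : E) : ht (b0 v) = 2 * ht v - v 0 := by
  have h := ht_sq v
  have h1 := one_le_ht v
  refine ht_eq ?_ ?_
  · nlinarith [sq_nonneg (v 1), sq_nonneg (v 0 - 2 * ht v)]
  · simp [b0]
    linarith

theorem two_arctan (u : ℝ) : cos (2 * arctan u) * (1 + u ^ 2) = 1 - u ^ 2 ∧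
    sin (2 * arctan u) * (1 + u ^ 2) = 2 * u := by
  have h : 0 < 1 + u ^ 2 := by positivity
  have h2 : √(1 + u ^ 2) * √(1 + u ^ 2) = 1 + u ^ 2 := mul_self_sqrt h.le
  constructor
  · rw [cos_two_mul, cos_sq_arctan]
    field_simp
    ring
  · rw [sin_two_mul, sin_arctan, cos_arctan, mul_assoc 2, div_mul_div_comm, h2]
    field_simp

theorem dt_b0 : Dt b0 Lb fb where
  iso u w := by simp [B, ac_apply, Lb]; ring
  sm := by
    unfold fb
    have : ContDiff ℝ ∞ fun θ : ℝ => sin θ / (√3 - cos θ) :=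
      contDiff_sin.div (by fun_prop) fun θ => (den θ).ne'
    have := contDiff_arctan.comp this
    exact (contDiff_id.add contDiff_const).add (contDiff_const.mul this)
  per θ := by simp [fb]; ring
  base v := by
    funext i
    fin_cases i <;> simp [P, ac_apply, Lb, ht_b0]
    · ring
    · simp [b0]
      ring
    · simp [b0]
  fib _ := rfl
  ray θ := by
    refine ⟨2 - √3 * cos θ, den2 θ, ?_⟩
    obtain ⟨h1, h2⟩ := two_arctan (sin θ / (√3 - cos θ))
    have hd := (den θ).ne'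
    have h3 := s3
    have h4 := sin_sq_add_cos_sq θ
    have e : (√3 - cos θ) ^ 2 + sin θ ^ 2 = 2 * (2 - √3 * cos θ) := by linear_combination h3 + h4
    field_simp at h1 h2
    rw [e] at h1 h2
    funext i
    fin_cases i <;> simp only [nl, ac_apply, Lb, fb, cos_add, sin_add, cos_pi, sin_pi] <;> simp
    · ring
    · generalize cos (2 * arctan _) = c at *
      generalize sin (2 * arctan _) = s at *
      grind
    · generalize cos (2 * arctan _) = c at *
      generalize sin (2 * arctan _) = s at *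
      grind

/-- the fibre -/
noncomputable def τ : Equiv.Perm E := a ^ 4

theorem τ_apply (v : E) : τ v = v + EuclideanSpace.single 2 (2 * π) := by
  ext i
  fin_cases i <;> simp [τ, pow_succ, a]
  ring

theorem τ_zpow (n : ℤ) (v : E) : (τ ^ n) v = v + EuclideanSpace.single 2 (n * (2 * π)) := by
  induction n generalizing v with
  | zero => simp
  | succ n ih =>
    rw [_root_.zpow_add_one, Equiv.Perm.mul_apply, ih, τ_apply]
    ext i
    fin_cases i <;> simp
    ring
  | pred n ih =>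
    rw [_root_.zpow_sub_one, Equiv.Perm.mul_apply, ih]
    have : τ⁻¹ v = v - EuclideanSpace.single 2 (2 * π) := by
      rw [Equiv.Perm.inv_eq_iff_eq, τ_apply, sub_add_cancel]
    rw [this]
    ext i
    fin_cases i <;> simp
    ring

theorem P_τ (n : ℤ) (v : E) : P ((τ ^ n) v) = P v := by simp [τ_zpow, P, ht]

theorem Dt.same (h : Dt g L f) (h' : Dt k L e) : ∃ n : ℤ, ∀ v, g v = (τ ^ n) (k v) := by
  obtain ⟨n, hn⟩ := h.uniq h'
  refine ⟨n, fun v => ext3 (by rw [P_τ, h.base, h'.base]) ?_⟩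
  simp [τ_zpow, h.fib, h'.fib, hn]

theorem b0_sq : ∃ n : ℤ, ∀ v, b0 (b0 v) = (τ ^ n) v := by
  have h := dt_b0.comp dt_b0
  rw [show Lb * Lb = 1 by decide] at h
  exact h.same dt_id

/-- the half turn as a permutation -/
noncomputable def b : Equiv.Perm E := Equiv.ofBijective b0 (by
  obtain ⟨n, hn⟩ := b0_sq
  have : b0 ∘ b0 = ⇑(τ ^ n) := funext hn
  exact ⟨Function.Injective.of_comp (this ▸ (τ ^ n).injective),
    Function.Surjective.of_comp (this ▸ (τ ^ n).surjective)⟩)

/-- `g` has linear part `L` -/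
def Has (g : Equiv.Perm E) (L : Z3) : Prop := ∃ f, Dt g L f

theorem Has.mul {g k : Equiv.Perm E} (h : Has g L) (h' : Has k K) : Has (g * k) (L * K) :=
  let ⟨_, a⟩ := h
  let ⟨_, b⟩ := h'
  ⟨_, a.comp b⟩

theorem Has.pow {g : Equiv.Perm E} (h : Has g L) (n : ℕ) : Has (g ^ n) (L ^ n) := by
  induction n with
  | zero => exact ⟨_, by simpa using dt_id⟩
  | succ n ih => rw [pow_succ, pow_succ]; exact ih.mul h

theorem Has.ker {g : Equiv.Perm E} (h : Has g 1) : ∃ n : ℤ, g = τ ^ n :=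
  let ⟨_, a⟩ := h
  let ⟨n, hn⟩ := a.same dt_id
  ⟨n, Equiv.ext hn⟩

theorem has_a : Has a La := ⟨_, dt_a⟩
theorem has_b : Has b Lb := ⟨_, dt_b0⟩

theorem rel_b : ∃ n : ℤ, b ^ 2 = τ ^ n := by
  have := has_b.pow 2
  rw [show Lb ^ 2 = 1 by decide] at this
  exact this.ker

theorem rel_ab : ∃ n : ℤ, (a * b) ^ 6 = τ ^ n := by
  have := (has_a.mul has_b).pow 6
  rw [show (La * Lb) ^ 6 = 1 by decide] at this
  exact this.ker

theorem has_τ (n : ℤ) : Has (τ ^ n) 1 := ⟨(· + n * (2 * π)), {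
  iso := dt_id.iso
  sm := by fun_prop
  per := fun θ => by ring
  base := fun v => by rw [P_τ, ac_one]
  fib := fun v => by simp [τ_zpow]
  ray := fun θ => ⟨1, one_pos, by simp [ac_one, nl]⟩ }⟩

/-- the group -/
def G : Subgroup (Equiv.Perm E) := Subgroup.closure {a, b}

theorem has (g : G) : ∃ L, Has g.1 L := by
  obtain ⟨g, hg⟩ := g
  refine Subgroup.closure_induction'' (p := fun g _ => ∃ L, Has g L) ?_ ?_
    ⟨1, _, dt_id⟩ (fun _ _ _ _ ⟨_, h⟩ ⟨_, h'⟩ => ⟨_, h.mul h'⟩) hg
  · rintro _ (rfl | rfl)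
    exacts [⟨_, has_a⟩, ⟨_, has_b⟩]
  · rintro _ (rfl | rfl)
    · exact ⟨_, _, dt_a'⟩
    · obtain ⟨n, hn⟩ := rel_b
      have : b⁻¹ = b * τ ^ (-n) := by
        rw [_root_.zpow_neg, ← hn]
        group
      exact ⟨_, this ▸ has_b.mul (has_τ _)⟩

end Pool.Agent.Work.MP_3d425c_gt.Ex.Tri
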